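import Pool.Agent.MP_ddf486_co.KV.All

/-! Project KL: the statements of project KV with the pin bound read on labels, and basic facts. -/

set_option autoImplicit false
set_option linter.unusedSectionVars false

noncomputable section

namespace Pool.Agent.MP_ddf486_co.KV.L

open Finset Pool.Agent.MP_6c3157_co.PD Pool.Agent.MP_6c3157_co.PQ

section geo

variable {X PL K : Type} [DecidableEq X] [Field K] [Fintype PL]

open Classical in
/-- what is known about a minimal bad set `Q` -/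
structure Hyp (N : Nb) (s : Sys X PL) (A : Ari X PL K) (η : ℝ) (Q : Finset X) : Prop where
  ari : A.Good s η
  eta_lo : 0 ≤ η
  eta : η * Q.card ≤ 1
  sym : Sym A
  pin : ∀ y ∈ Q, ∀ z ∈ Q, y ≠ z → ((Q.filter fun x => s.lab x y = s.lab x z).card : ℝ) ≤ N.k
  big : N.s ^ 2 ≤ Q.card
  small : (Q.card : ℝ) ≤ Real.exp N.L
  bad : Phi s.lab N.κ Q ≤ N.ψ * (Q.card : ℝ) ^ 2
  pl : ∀ S ⊆ Q, (S.card : ℝ) ≤ N.s ^ 2 → N.u * Pr S ≤ Phi s.lab N.κ S
  ih : ∀ S ⊆ Q, S.card ^ 20 ≤ Q.card ^ 19 →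
    (1 + 100 * N.u) * N.ψ * Pr S ≤ Phi s.lab N.κ S

open Classical in
/-- the fine model: the output of the coarse stage and of the blocks -/
structure Fm (N : Nb) (s : Sys X PL) (A : Ari X PL K) (η : ℝ) (Z : Finset X) (R L : PL → ℝ)
    (G rq : PL → X → ℝ) (cn : PL → X) (W ε : ℝ) : Prop where
  ari : A.Good s η
  eta_lo : 0 ≤ η
  eta : η * Z.card ≤ 1
  big : N.s ^ 2 ≤ 2 * Z.card
  cen : Cen s Z R G W ε
  e_le : ε ≤ N.u ^ 10
  L_lo : ∀ p, 0 ≤ L p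
  L_sum : ∑ p, s.m p * L p ≤ ε * W
  R_lo : ∀ p, 256 * (s.c p).rlo ≤ R p
  R_hi : ∀ p, R p ≤ (s.c p).rhi
  G_eq : ∀ p y, G p y = max 0 (Real.log ((s.c p).d y (cn p) / R p))
  cn_in : ∀ p, 10 ^ 6 * (Z.filter fun x => R p < (s.c p).d (cn p) x).card ≤ Z.card
  mass : ∀ p, ∀ y ∈ Z,
    10 ^ 6 * (Z.filter fun x => (s.c p).d y x < R p * Real.exp (-L p)).card ≤ Z.card
  rq_mem : ∀ p, ∀ y ∈ Z, ∃ a ∈ Z, a ≠ y ∧ rq p y = (s.c p).d y a
  rq_in : ∀ p, ∀ y ∈ Z, (Z.card : ℝ) ≤ (N.q : ℝ) ^ 50 * ((s.c p).ball Z y (rq p y)).card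
  rq_min : ∀ p, ∀ y ∈ Z, ∀ t < rq p y, (N.q : ℝ) ^ 50 * ((s.c p).ball Z y t).card < Z.card
  free : ∀ b ≤ N.q ^ 3, A.Free Z b (4 * Z.card / (N.q : ℝ) ^ 45)
  pin : ∀ y ∈ Z, ∀ z ∈ Z, y ≠ z → ((Z.filter fun x => s.lab x y = s.lab x z).card : ℝ) ≤ N.k
  al : ∑ x ∈ Z, ∑ y ∈ Z.erase x, lm2 s R rq x y ≤ N.u ^ 7 * W * (Z.card : ℝ) ^ 2
  sep : 2 * (ed Z fun x y =>
      Z.card ^ 9 < (Z.filter fun z => ht s x y z ≤ N.u ^ 4 * W).card ^ 10 : ℝ) ≤
    N.u * (Z.card : ℝ) ^ 2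

open Classical in
/-- triples with equal labels and a base in `H` -/
def tl (lab : X → X → ℝ) (Z Y : Finset X) (H : X → X → Prop) : ℕ :=
  ((Z ×ˢ Y ×ˢ Y).filter fun t => t.2.1 ≠ t.2.2 ∧ lab t.1 t.2.1 = lab t.1 t.2.2 ∧ H t.2.1 t.2.2).card

end geo

/-- block B: coarse stage, height balls, curves -/
def CRS : Prop :=
  ∀ (N : Nb) (X PL K : Type) [DecidableEq X] [Fintype PL] [Field K] (s : Sys X PL)
    (A : Ari X PL K) (η : ℝ) (Q : Finset X), N.Good → Hyp N s A η Q →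
    ∃ Z ⊆ Q, (1 - 3 * N.u) * Q.card ≤ Z.card ∧ ∃ (R L : PL → ℝ) (G rq : PL → X → ℝ) (cn : PL → X)
      (W ε : ℝ), Fm N s A η Z R L G rq cn W ε

/-- block C: small cells, refined double cells, the abstract model -/
def MOD : Prop :=
  ∀ (N : Nb) (X PL K : Type) [DecidableEq X] [Fintype PL] [Field K] (s : Sys X PL)
    (A : Ari X PL K) (η : ℝ) (Z : Finset X) (R L : PL → ℝ) (G rq : PL → X → ℝ) (cn : PL → X)
    (W ε : ℝ), N.Good → Fm N s A η Z R L G rq cn W ε →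
    ∃ (ι : Type) (_ : Fintype ι) (F : Fam X ι) (Kt : ℝ) (Om Cl : X → X → ℝ) (Gh : X → ℝ),
      Am N F s.lab Z W Kt η Om Cl Gh

/-- the step -/
def STEP : Prop :=
  ∀ (N : Nb) (X PL K : Type) [DecidableEq X] [Fintype PL] [Field K] (s : Sys X PL)
    (A : Ari X PL K) (η : ℝ) (Q : Finset X), N.Good → Hyp N s A η Q → False

open Classical in
/-- the induction -/
def IND : Prop :=
  ∃ a b c : ℝ, 0 ≤ a ∧ 0 ≤ b ∧ 1 ≤ c ∧
    ∀ (N : Nb) (i : ℕ) (X PL K : Type) [DecidableEq X] [Fintype PL] [Field K] (s : Sys X PL)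
      (A : Ari X PL K) (η : ℝ) (Q : Finset X), N.Run a b c i → A.Good s η → 0 ≤ η →
      η * Real.exp N.L ≤ 1 → Sym A → (Q.card : ℝ) ≤ Real.exp N.L →
      (∀ y ∈ Q, ∀ z ∈ Q, y ≠ z → ((Q.filter fun x => s.lab x y = s.lab x z).card : ℝ) ≤ N.k) →
      N.ψ / 2 * Pr Q ≤ Phi s.lab N.κ Q

/-- the coarse stage on a large subset -/
def COA : Prop :=
  ∀ (N : Nb) (X PL K : Type) [DecidableEq X] [Fintype PL] [Field K] (s : Sys X PL)
    (A : Ari X PL K) (η : ℝ) (Q V : Finset X), N.Good → Hyp N s A η Q → V ⊆ Q →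
    N.u ^ 3 * Q.card ≤ V.card →
    ∃ Z ⊆ V, (1 - N.u) * V.card ≤ Z.card ∧ ∃ (hv : ℕ × Finset X → Prop) (R L : PL → ℝ)
      (G : PL → X → ℝ) (cn : PL → X) (W T : ℝ),
      Co s hv Z R L G cn W (N.u ^ 470) (Q.card / (N.q : ℝ) ^ 90) T

open Classical in
/-- triples with a hot base, off curves and on the band -/
def FT : Prop :=
  ∀ (X PL K : Type) [DecidableEq X] [Field K] (A : Ari X PL K) (lab : X → X → ℝ) (Z : Finset X)
    (H : X → X → Prop) (k : ℝ), 0 ≤ k → (∀ x y z, lab x y = lab x z → A.bis x y z) →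
    (∀ y ∈ Z, ∀ z ∈ Z, y ≠ z → ((Z.filter fun x => lab x y = lab x z).card : ℝ) ≤ k) →
    (tl lab Z Z H : ℝ) ≤ k * ed Z H ∧
    ∀ (C : Finset (Finset X)) (β : Finset X → ℕ) (b : ℕ) (ν k₁ M n D : ℝ),
      Cls2 A (C.biUnion id) b ν C β → Z ⊆ C.biUnion id → Cnt A Z C β H k₁ M n →
      ∑ P ∈ C, (P.card : ℝ) ≤ n →
      (∑ P ∈ C, (P.card : ℝ) ^ 2 / β P) * (∑ P ∈ C, (β P : ℝ)) ≤ D →
      (tl lab Z Z H : ℝ) ≤ 14 * k * n ^ 2 / k₁ + 2 * M * D + k * C.card * Z.card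

/-- few hot triples give few small height balls -/
def SML : Prop :=
  ∀ (N : Nb) (X PL K : Type) [DecidableEq X] [Fintype PL] [Field K] (s : Sys X PL)
    (A : Ari X PL K) (η : ℝ) (Q Z : Finset X) (hv : ℕ × Finset X → Prop) (R L : PL → ℝ)
    (G : PL → X → ℝ) (cn : PL → X) (W ns T : ℝ), N.Good → Hyp N s A η Q → Z ⊆ Q →
    N.u ^ 4 * Q.card ≤ Z.card → Co s hv Z R L G cn W (N.u ^ 470) ns T →
    N.u ^ 40 * (tl s.lab Z Z fun y z => N.u ^ 20 / 3 * W ≤ del s R y z : ℝ) ≤ (Z.card : ℝ) ^ 2 →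
    Sml s Z (N.u ^ 8 * W) ((N.q : ℝ) ^ 61) (N.u ^ 20)

/-- the classes are a small part -/
def CASE1 : Prop :=
  ∀ (N : Nb) (X PL K : Type) [DecidableEq X] [Fintype PL] [Field K] (s : Sys X PL)
    (A : Ari X PL K) (η : ℝ) (Q : Finset X) (C : Finset (Finset X)) (β : Finset X → ℕ),
    N.Good → Hyp N s A η Q → (∀ P ∈ C, P ⊆ Q) → Crv A C β →
    (∀ C' ⊆ C, Cls2 A (C'.biUnion id) (N.q ^ 3) (Q.card / (N.q : ℝ) ^ 48) C' β) →
    ((C.biUnion id).card : ℝ) ≤ N.u * Q.card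

/-- the fine model off the classes -/
def CASE0 : Prop :=
  ∀ (N : Nb) (X PL K : Type) [DecidableEq X] [Fintype PL] [Field K] (s : Sys X PL)
    (A : Ari X PL K) (η : ℝ) (Q V : Finset X) (β : Finset X → ℕ),
    N.Good → Hyp N s A η Q → V ⊆ Q → (1 - N.u) * Q.card ≤ V.card →
    Cls2 A V (N.q ^ 3) (Q.card / (N.q : ℝ) ^ 48) ∅ β →
    ∃ Z ⊆ Q, (1 - 3 * N.u) * Q.card ≤ Z.card ∧ ∃ (R L : PL → ℝ) (G rq : PL → X → ℝ) (cn : PL → X)
      (W ε : ℝ), Fm N s A η Z R L G rq cn W ε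

/-- the refined double cells exist -/
def RDC : Prop :=
  ∀ (N : Nb) (X PL K : Type) [DecidableEq X] [Fintype PL] [Field K] (s : Sys X PL)
    (A : Ari X PL K) (η : ℝ) (Z : Finset X) (R L : PL → ℝ) (G rq : PL → X → ℝ) (cn : PL → X)
    (W ε : ℝ), N.Good → Fm N s A η Z R L G rq cn W ε →
    ∃ D : Dbl X PL, RGood D s R L rq

open Classical in
/-- radii that hold many points are not deep -/
def CRAD : Prop :=
  ∀ (N : Nb) (X PL K : Type) [DecidableEq X] [Fintype PL] [Field K] (s : Sys X PL)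
    (A : Ari X PL K) (η : ℝ) (Z : Finset X) (R L : PL → ℝ) (G rq : PL → X → ℝ) (cn : PL → X)
    (W ε : ℝ), N.Good → Fm N s A η Z R L G rq cn W ε →
    ∀ x ∈ Z, (∀ T ⊆ Z, ∀ (r : PL → ℝ) (a : ℝ),
      (∀ p, a ≤ (((s.c p).ball T x (r p)).erase x).card) → 0 < a →
      a * ∑ p, s.m p * max 0 (Real.log (R p / r p)) ≤ 2 * W * T.card) ∧
    ∑ p, s.m p * lq R rq p x ≤ 4 * (N.q : ℝ) ^ 50 * W

open Classical in
/-- total overlap, overlap through small cells, outliers, pins -/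
def CTOT : Prop :=
  ∀ (N : Nb) (X PL K : Type) [DecidableEq X] [Fintype PL] [Field K] (s : Sys X PL)
    (A : Ari X PL K) (η : ℝ) (Z : Finset X) (R L : PL → ℝ) (G rq : PL → X → ℝ) (cn : PL → X)
    (W ε : ℝ), N.Good → Fm N s A η Z R L G rq cn W ε →
    (∀ y ∈ Z, ∀ z ∈ Z, y ≠ z → |(fam s Z R L rq).OA y z + (fam s Z R L rq).OB y z -
      ∑ p, s.m p * (s.c p).K| ≤ η) ∧
    (∀ y ∈ Z, ∀ z ∈ Z, y ≠ z → (fam s Z R L rq).OB y z ≤ 2 * W) ∧
    (∀ y, 0 ≤ Ghf s L G y) ∧ (∀ y ∈ Z, Ghf s L G y ≤ W) ∧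
    ∀ y ∈ Z, ∀ z ∈ Z, y ≠ z → ((Z.filter fun x => s.lab x y = s.lab x z).card : ℝ) ≤ N.k

/-- the diagonal -/
def DGA : Prop :=
  ∀ (N : Nb) (X PL K : Type) [DecidableEq X] [Fintype PL] [Field K] (s : Sys X PL)
    (A : Ari X PL K) (η : ℝ) (Z : Finset X) (R L : PL → ℝ) (G rq : PL → X → ℝ) (cn : PL → X)
    (W ε : ℝ), N.Good → Fm N s A η Z R L G rq cn W ε →
    ∀ y ∈ Z, ∀ z ∈ Z, (fam s Z R L rq).W (fun i => ¬ (fam s Z R L rq).b i ∧
      y ∈ (fam s Z R L rq).S i ∧ z ∉ (fam s Z R L rq).S i) ≤ (N.q : ℝ) ^ 51 * W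

/-- close pairs are few -/
def CLO : Prop :=
  ∀ (N : Nb) (X PL K : Type) [DecidableEq X] [Fintype PL] [Field K] (s : Sys X PL)
    (A : Ari X PL K) (η : ℝ) (Z : Finset X) (R L : PL → ℝ) (G rq : PL → X → ℝ) (cn : PL → X)
    (W ε : ℝ), N.Good → Fm N s A η Z R L G rq cn W ε →
    (∀ x y, 0 ≤ Clf s L G rq x y) ∧
    (N.q : ℝ) ^ 40 * ∑ x ∈ Z, ∑ y ∈ Z.erase x, Clf s L G rq x y ≤ W * (Z.card : ℝ) ^ 2

/-- small cells on a base that miss the pin -/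
def TRIP : Prop :=
  ∀ (N : Nb) (X PL K : Type) [DecidableEq X] [Fintype PL] [Field K] (s : Sys X PL)
    (A : Ari X PL K) (η : ℝ) (Z : Finset X) (R L : PL → ℝ) (G rq : PL → X → ℝ) (cn : PL → X)
    (W ε : ℝ), N.Good → Fm N s A η Z R L G rq cn W ε →
    ∀ D : Dbl X PL, RGood D s R L rq →
    ∀ x ∈ Z, ∀ y ∈ Z, ∀ z ∈ Z, y ≠ x → z ≠ x → y ≠ z → s.lab x y = s.lab x z →
    (fam s Z R L rq).DB y z x ≤ 8 * om2 D y z + Ghf s L G x + Ghf s L G y + Clf s L G rq x y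

open Classical in
/-- the mate of an outlier is an outlier -/
def OUT1 : Prop :=
  ∀ (N : Nb) (X PL K : Type) [DecidableEq X] [Fintype PL] [Field K] (s : Sys X PL)
    (A : Ari X PL K) (η : ℝ) (Z : Finset X) (R L : PL → ℝ) (G rq : PL → X → ℝ) (cn : PL → X)
    (W ε : ℝ), N.Good → Fm N s A η Z R L G rq cn W ε →
    ∀ y x z, x ≠ y → z ≠ x → s.lab x z = s.lab x y →
    ∑ p, s.m p * (if cpin s R L cn y p x then ghp s L G p y else 0) ≤
      60 * ∑ p, s.m p * (s.c p).W fun i =>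
        oc s R cn (fun p => max (ghp s L G p y) (ghp s L G (s.bar p) y)) p i ∧ z ∉ i.2

open Classical in
/-- outliers give discrepancy -/
def OUT2 : Prop :=
  ∀ (N : Nb) (X PL K : Type) [DecidableEq X] [Fintype PL] [Field K] (s : Sys X PL)
    (A : Ari X PL K) (η : ℝ) (Z : Finset X) (R L : PL → ℝ) (G rq : PL → X → ℝ) (cn : PL → X)
    (W ε : ℝ), N.Good → Fm N s A η Z R L G rq cn W ε →
    ∀ Z' ⊆ Z, ∀ y ∈ Z',
    Z.card ≤ 2 * ((Z'.erase y).filter fun x =>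
      ∃ z ∈ Z', z ≠ x ∧ z ≠ y ∧ s.lab x z = s.lab x y).card →
    ∃ U ⊆ Z', (Z.card : ℝ) ≤ 4 * N.k * U.card ∧
      ∀ Z'' ⊆ Z, 9 * Z.card ≤ 10 * Z''.card →
        Ghf s L G y ≤ 10 ^ 6 * (fam s Z R L rq).disc U Z''

open Classical in
/-- heavy refined cells lie in heavy cells with few points of `Z` -/
def HVC : Prop :=
  ∀ (N : Nb) (X PL K : Type) [DecidableEq X] [Fintype PL] [Field K] (s : Sys X PL)
    (A : Ari X PL K) (η : ℝ) (Z : Finset X) (R L : PL → ℝ) (G rq : PL → X → ℝ) (cn : PL → X)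
    (W ε : ℝ), N.Good → Fm N s A η Z R L G rq cn W ε →
    ∀ D : Dbl X PL, RGood D s R L rq → ∀ y ∈ Z, ∀ z, y ≠ z →
    ∀ (U : Finset X) (c : ℝ) (P : Fin D.N → Prop),
    (∀ i, P i → D.cl i y = D.cl i z ∧ c ≤ (D.cell i U y).card) →
    (∑ i, if P i then D.om i else 0) ≤ 20 * (fam s Z R L rq).W fun i =>
      ((N.q : ℝ) ^ 50 * (Z ∩ (fam s Z R L rq).S i).card ≤ Z.card ∧
        c ≤ (U ∩ (fam s Z R L rq).S i).card) ∧
      y ∈ (fam s Z R L rq).S i ∧ z ∈ (fam s Z R L rq).S i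

/-- many pairs in common refined cells give many pairs in common heavy refined cells -/
def RARE1 : Prop :=
  ∀ (N : Nb) (X PL K : Type) [DecidableEq X] [Fintype PL] [Field K] (s : Sys X PL)
    (A : Ari X PL K) (η : ℝ) (Z : Finset X) (R L : PL → ℝ) (G rq : PL → X → ℝ) (cn : PL → X)
    (W ε : ℝ), N.Good → Fm N s A η Z R L G rq cn W ε →
    ∀ D : Dbl X PL, DGood D s R → ∀ Z' ⊆ Z, ∀ t e : ℝ, W ≤ t * N.L ^ 5 → 0 < e → e ≤ 1 →
    1 ≤ (e / 4) ^ N.m * (N.q : ℝ) ^ 40 →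
    e * (Z.card : ℝ) ^ 2 < (ed Z' fun y z => t ≤ 8 * om2 D y z : ℝ) →
    ∃ T ⊆ Z', ∃ T' ⊆ Z', Disjoint T T' ∧ (e / 4) ^ N.m * Z.card ≤ T.card ∧
      (e / 4) ^ N.m * Z.card ≤ T'.card ∧ N.u * t * (T.card * T'.card) ≤
        8 * ∑ y ∈ T, ∑ z ∈ T', omh D T T' ((1 / N.L ^ 3) ^ 20) ((1 / N.L ^ 3) ^ 60) y z

/-- the field `rare` -/
def RARE2 : Prop :=
  ∀ (N : Nb) (X PL K : Type) [DecidableEq X] [Fintype PL] [Field K] (s : Sys X PL)
    (A : Ari X PL K) (η : ℝ) (Z : Finset X) (R L : PL → ℝ) (G rq : PL → X → ℝ) (cn : PL → X)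
    (W ε : ℝ), N.Good → Fm N s A η Z R L G rq cn W ε →
    ∀ D : Dbl X PL, RGood D s R L rq → ∀ Z' ⊆ Z, ∀ t e : ℝ, W ≤ t * N.L ^ 5 → 0 < e → e ≤ 1 →
    1 ≤ (e / 4) ^ N.m * (N.q : ℝ) ^ 40 →
    e * (Z.card : ℝ) ^ 2 < (ed Z' fun y z => t ≤ 8 * om2 D y z : ℝ) →
    ∃ T ⊆ Z', ∃ T' ⊆ Z', Disjoint T T' ∧ T.card = T'.card ∧ (e / 4) ^ N.m * Z.card ≤ T.card ∧
      ∃ (f : X → X → ℝ) (C : (Σ p : PL, (s.c p).I) → Prop),
        (∀ y ∈ T, ∀ z ∈ T', 0 ≤ f y z ∧ f y z ≤ 8 * om2 D y z ∧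
          f y z ≤ 400 * (fam s Z R L rq).W fun i =>
            C i ∧ y ∈ (fam s Z R L rq).S i ∧ z ∈ (fam s Z R L rq).S i) ∧
        N.u * t * (T.card : ℝ) ^ 2 ≤ ∑ y ∈ T, ∑ z ∈ T', f y z ∧
        ∀ i, C i → (N.q : ℝ) ^ 50 * (Z ∩ (fam s Z R L rq).S i).card ≤ Z.card ∧
          ((T ∪ T').card : ℝ) ≤ N.L ^ 200 * ((T ∪ T') ∩ (fam s Z R L rq).S i).card

open Classical in
/-- the mirror at one place -/
def CMIRP : Prop :=
  ∀ (N : Nb) (X PL K : Type) [DecidableEq X] [Fintype PL] [Field K] (s : Sys X PL)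
    (A : Ari X PL K) (η : ℝ) (Z : Finset X) (R L : PL → ℝ) (G rq : PL → X → ℝ) (cn : PL → X)
    (W ε : ℝ), N.Good → Fm N s A η Z R L G rq cn W ε →
    ∀ (p : PL), ∀ x ∈ Z, ∀ (T c : Finset X) (a a' ζ r₂ r₃ : ℝ), 0 < ζ → ζ ≤ 1 / 100 →
    0 < r₂ → a < ((s.c p).ball T x r₂).card → 0 < r₃ →
    (∀ t < r₃, (((s.c (s.bar p)).ball T x t).card : ℝ) ≤ a') →
    c ⊆ Z.erase x → c.Nonempty → (∀ y ∈ c, ∀ z ∈ c, s.lab x y = s.lab x z) →
    ∃ Aw : ℝ, 0 ≤ Aw ∧ ∃ M ⊆ c, ((c \ M).card : ℝ) ≤ 2 * ζ * c.card ∧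
      (∀ z ∈ M, Aw ≤ (s.c (s.bar p)).W fun i => bc s Z R L rq (s.bar p) i ∧ x ∈ i.2 ∧ z ∈ i.2 ∧
        ((T ∩ i.2).card : ℝ) ≤ a') ∧
      ∀ y ∈ c, ((s.c p).W fun i => bc s Z R L rq p i ∧ x ∈ i.2 ∧ y ∈ i.2 ∧
          ((T ∩ i.2).card : ℝ) ≤ a ∧ ((c ∩ i.2).card : ℝ) < 2 * ζ * c.card) ≤
        (if y ∈ M then 0 else 4 * Aw + (s.c (s.bar p)).eta) +
        (if (s.c p).d x y < r₂ then
          lq R rq (s.bar p) x + max 0 (Real.log (R (s.bar p) / r₃)) else 0) +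
        2 * clp s L G rq p x y

open Classical in
/-- the field `mir` -/
def CMIR : Prop :=
  ∀ (N : Nb) (X PL K : Type) [DecidableEq X] [Fintype PL] [Field K] (s : Sys X PL)
    (A : Ari X PL K) (η : ℝ) (Z : Finset X) (R L : PL → ℝ) (G rq : PL → X → ℝ) (cn : PL → X)
    (W ε : ℝ), N.Good → Fm N s A η Z R L G rq cn W ε →
    ∀ x ∈ Z, ∀ T ⊆ Z, x ∈ T → ∀ a a' ζ : ℝ, 1 ≤ a → 2 ≤ a' → a ≤ a' → a' < T.card → 0 < ζ →
    ζ ≤ 1 / 100 → ∃ er : X → ℝ, (∀ y, 0 ≤ er y) ∧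
      ∑ y ∈ T.erase x, er y ≤ a * ((N.q : ℝ) ^ 51 * W + 4 * W * T.card / a') ∧
      ∀ c ⊆ Z.erase x, (∀ y ∈ c, ∀ z ∈ c, s.lab x y = s.lab x z) → ∃ Aw : ℝ, 0 ≤ Aw ∧
        (∑ y ∈ c ∩ T, (fam s Z R L rq).W fun i => (fam s Z R L rq).b i ∧
            x ∈ (fam s Z R L rq).S i ∧ y ∈ (fam s Z R L rq).S i ∧
            ((T ∩ (fam s Z R L rq).S i).card : ℝ) ≤ a ∧
            ((c ∩ (fam s Z R L rq).S i).card : ℝ) < 2 * ζ * c.card) ≤
          8 * ζ * c.card * Aw + η * c.card + ∑ y ∈ c ∩ T, (er y + Clf s L G rq x y) ∧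
        ((c.filter fun z => ((fam s Z R L rq).W fun i => (fam s Z R L rq).b i ∧
            x ∈ (fam s Z R L rq).S i ∧ z ∈ (fam s Z R L rq).S i ∧
            ((T ∩ (fam s Z R L rq).S i).card : ℝ) ≤ a') < Aw / 2).card : ℝ) ≤ 4 * ζ * c.card

open Classical in
/-- the field `sep` -/
def CSEP : Prop :=
  ∀ (N : Nb) (X PL K : Type) [DecidableEq X] [Fintype PL] [Field K] (s : Sys X PL)
    (A : Ari X PL K) (η : ℝ) (Z : Finset X) (R L : PL → ℝ) (G rq : PL → X → ℝ) (cn : PL → X)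
    (W ε : ℝ), N.Good → Fm N s A η Z R L G rq cn W ε →
    (ed Z fun x y => Z.card ^ 9 <
      (Z.filter fun z => (fam s Z R L rq).DB x y z ≤ N.u ^ 10 * W).card ^ 10 : ℝ) ≤
    N.u * (Z.card : ℝ) ^ 2

variable {N : Nb} {X PL K : Type} [DecidableEq X] [Fintype PL] [Field K] {s : Sys X PL}
  {A : Ari X PL K} {η : ℝ} {Z : Finset X} {R L : PL → ℝ} {G rq : PL → X → ℝ} {cn : PL → X}
  {W ε : ℝ}

theorem Fm.card_big (h : Fm N s A η Z R L G rq cn W ε) (hN : N.Good) :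
    (N.q : ℝ) ^ 1000 ≤ Z.card := by
  have h1 : (2 : ℝ) ≤ N.q := le_trans (by norm_num) hN.q_big
  have h2 : (2 : ℝ) ≤ (N.q : ℝ) ^ 1000 := h1.trans (le_self_pow₀ (by linarith) (by norm_num))
  have h3 := hN.sq'
  rw [show 2000 = 1000 * 2 from rfl, pow_mul] at h3
  have h4 := h.big
  generalize (N.q : ℝ) ^ 1000 = v at h2 h3 ⊢
  have h5 : 2 * v ≤ N.s := by nlinarith
  nlinarith

theorem Fm.W_big (h : Fm N s A η Z R L G rq cn W ε) : 2000 ≤ W := by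
  have := h.cen.eW
  have := h.cen.e_le
  have := h.cen.e_pos
  by_contra k
  nlinarith

theorem Fm.eW_le (h : Fm N s A η Z R L G rq cn W ε) : 100 * (ε * W) ≤ W := by
  have := h.cen.e_le
  have := h.W_big
  nlinarith

/-! ### slacks -/

theorem Fm.good (h : Fm N s A η Z R L G rq cn W ε) : s.Good := h.ari.good

theorem Fm.xi_pos (h : Fm N s A η Z R L G rq cn W ε) (p : PL) : 0 < (s.c p).xi :=
  (h.ari.eta_pos p).trans_le (h.good.good p).eta_hi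

theorem Fm.xi_le (h : Fm N s A η Z R L G rq cn W ε) (p : PL) : (s.c p).xi ≤ xs s p :=
  le_add_of_nonneg_right (h.xi_pos _).le

theorem Fm.xib_le (h : Fm N s A η Z R L G rq cn W ε) (p : PL) : (s.c (s.bar p)).xi ≤ xs s p :=
  le_add_of_nonneg_left (h.xi_pos _).le

theorem Fm.xs_pos (h : Fm N s A η Z R L G rq cn W ε) (p : PL) : 0 < xs s p :=
  (h.xi_pos p).trans_le (h.xi_le p)

theorem Fm.xs_bar (h : Fm N s A η Z R L G rq cn W ε) (p : PL) : xs s (s.bar p) = xs s p := by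
  unfold xs; rw [h.ari.bar_bar, add_comm]

theorem Fm.gth_bar (h : Fm N s A η Z R L G rq cn W ε) (p : PL) :
    gth s L (s.bar p) = gth s L p := by
  unfold gth; rw [h.xs_bar, h.ari.bar_bar, add_comm (L p)]

theorem Fm.ga_bar (h : Fm N s A η Z R L G rq cn W ε) (p : PL) : ga s L (s.bar p) = ga s L p := by
  unfold ga; rw [h.xs_bar, h.gth_bar]

theorem Fm.gth_ge (h : Fm N s A η Z R L G rq cn W ε) (p : PL) : 20 * xs s p ≤ gth s L p := by
  have := h.L_lo p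
  have := h.L_lo (s.bar p)
  unfold gth; linarith

theorem Fm.ga_ge (h : Fm N s A η Z R L G rq cn W ε) (p : PL) : 180 * xs s p ≤ ga s L p := by
  have := h.gth_ge p
  unfold ga; linarith

theorem Fm.ga_pos (h : Fm N s A η Z R L G rq cn W ε) (p : PL) : 0 < ga s L p := by
  have := h.ga_ge p
  have := h.xs_pos p
  linarith

theorem Fm.sum_xs (h : Fm N s A η Z R L G rq cn W ε) : ∑ p, s.m p * xs s p ≤ 40 := by
  have h1 := h.good.xi_sum
  have h2 := h.good.sum_bar fun p => (s.c p).xi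
  simp only [xs, mul_add, sum_add_distrib]
  linarith

theorem Fm.sum_ga (h : Fm N s A η Z R L G rq cn W ε) : ∑ p, s.m p * ga s L p ≤ 400 * (ε * W) := by
  have h1 := h.sum_xs
  have h2 := h.good.sum_bar L
  have h3 := h.L_sum
  have h4 := h.cen.eW
  have e : ∑ p, s.m p * ga s L p = 16 * ∑ p, s.m p * L p + 16 * ∑ p, s.m p * L (s.bar p) +
      180 * ∑ p, s.m p * xs s p := by
    simp only [mul_sum, ← sum_add_distrib]
    exact sum_congr rfl fun p _ => by unfold ga gth; ring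
  linarith

theorem Fm.lam_le (h : Fm N s A η Z R L G rq cn W ε) (p : PL) :
    (s.c p).lam ≤ Real.exp (xs s p) := by
  rw [← Real.log_le_iff_le_exp (h.good.good p).lam_pos]
  exact (h.good.good p).log_lam.trans (h.xi_le p)

theorem Fm.clp_lo (h : Fm N s A η Z R L G rq cn W ε) (p : PL) (x y : X) :
    0 ≤ clp s L G rq p x y := by
  have := h.ga_pos p
  have := h.cen.G_lo (s.bar p) x
  have := h.cen.G_lo (s.bar p) y
  unfold clp; split_ifs <;> linarith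

theorem Fm.ghp_lo (h : Fm N s A η Z R L G rq cn W ε) (p : PL) (y : X) : 0 ≤ ghp s L G p y := by
  have := h.cen.G_lo p y
  unfold ghp; split_ifs <;> linarith

/-- lower bound for depths -/
theorem Fm.dep_ge (h : Fm N s A η Z R L G rq cn W ε) (p : PL) {x y : X} (hx : x ∈ Z) (hy : y ∈ Z)
    (hxy : x ≠ y) : -((s.c p).xi + max (G p x) (G p y)) ≤ dep s R p x y := by
  have hc := h.good.good p
  have h1 := Real.log_le_log (hc.d_pos hxy) (h.cen.out p x hx y hy)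
  have hR := h.cen.R_pos p
  rw [Real.log_mul (mul_pos hc.lam_pos hR).ne' (Real.exp_pos _).ne',
    Real.log_mul hc.lam_pos.ne' hR.ne', Real.log_exp] at h1
  unfold dep
  rw [Real.log_div hR.ne' (hc.d_pos hxy).ne']
  linarith [hc.log_lam]

/-! ### quantile radii and small cells -/

theorem Fm.rq_pos (h : Fm N s A η Z R L G rq cn W ε) (p : PL) {y : X} (hy : y ∈ Z) :
    0 < rq p y := by
  obtain ⟨a, -, h1, h2⟩ := h.rq_mem p y hy
  rw [h2]; exact (h.good.good p).d_pos h1.symm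

theorem Fm.min_eq (h : Fm N s A η Z R L G rq cn W ε) (p : PL) {y : X} (hy : y ∈ Z) :
    min (R p) (rq p y) = R p * Real.exp (-lq R rq p y) := by
  have hR := h.cen.R_pos p
  have hq := h.rq_pos p hy
  unfold lq
  rcases le_total (R p) (rq p y) with k | k
  · rw [min_eq_left k, max_eq_left (Real.log_nonpos (by positivity) ((div_le_one hq).2 k))]
    simp
  · rw [min_eq_right k, max_eq_right (Real.log_nonneg ((one_le_div hq).2 k)), Real.exp_neg,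
      Real.exp_log (by positivity)]
    field_simp

theorem Fm.rB_pos (h : Fm N s A η Z R L G rq cn W ε) (p : PL) {y : X} (hy : y ∈ Z) :
    0 < rB s R L rq p y :=
  div_pos (mul_pos (lt_min (h.cen.R_pos p) (h.rq_pos p hy)) (Real.exp_pos _))
    (pow_pos (h.good.good p).lam_pos _)

theorem Fm.log_rB (h : Fm N s A η Z R L G rq cn W ε) (p : PL) {y : X} (hy : y ∈ Z) :
    Real.log (rB s R L rq p y) =
      Real.log (R p) - lq R rq p y - ga s L p - 3 * Real.log (s.c p).lam := by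
  have hR := h.cen.R_pos p
  have hl := (h.good.good p).lam_pos
  unfold rB
  rw [h.min_eq p hy, Real.log_div (by positivity) (by positivity),
    Real.log_mul (by positivity) (by positivity), Real.log_mul (by positivity) (by positivity),
    Real.log_exp, Real.log_exp, Real.log_pow]
  push_cast
  ring

theorem Fm.rB_le (h : Fm N s A η Z R L G rq cn W ε) (p : PL) {y : X} (hy : y ∈ Z) :
    rB s R L rq p y ≤ R p := by
  have h0 := (lt_min (h.cen.R_pos p) (h.rq_pos p hy)).le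
  have h1 : Real.exp (-ga s L p) ≤ 1 := Real.exp_le_one_iff.2 (by linarith [h.ga_pos p])
  refine (div_le_self (by positivity) (one_le_pow₀ (h.good.good p).lam_lo)).trans ?_
  exact (mul_le_of_le_one_right h0 h1).trans (min_le_left _ _)

/-- quantile radii of two points -/
theorem Fm.rq_le (h : Fm N s A η Z R L G rq cn W ε) (p : PL) {y z : X} (hy : y ∈ Z) (hz : z ∈ Z) :
    rq p y ≤ (s.c p).lam * max ((s.c p).d y z) (rq p z) := by
  by_contra k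
  have h1 := h.rq_min p y hy _ (not_le.1 k)
  have h2 := h.rq_in p z hz
  have h3 : (s.c p).ball Z z (rq p z) ⊆
      (s.c p).ball Z y ((s.c p).lam * max ((s.c p).d y z) (rq p z)) := fun v hv => by
    obtain ⟨v1, v2⟩ := Cells.mem_ball.1 hv
    exact Cells.mem_ball.2 ⟨v1, ((h.good.good p).d_tri y z v).trans
      (mul_le_mul_of_nonneg_left (max_le_max le_rfl v2) (h.good.good p).lam_pos.le)⟩
  have h4 : (((s.c p).ball Z z (rq p z)).card : ℝ) ≤ _ := Nat.cast_le.2 (card_le_card h3)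
  have h5 := mul_le_mul_of_nonneg_left h4 (pow_nonneg (Nat.cast_nonneg (α := ℝ) N.q) 50)
  linarith

theorem Fm.lq_lip (h : Fm N s A η Z R L G rq cn W ε) (p : PL) {y z : X} (hy : y ∈ Z) (hz : z ∈ Z)
    (h1 : (s.c p).d y z ≤ rq p y) (h2 : (s.c p).d y z ≤ rq p z) :
    |lq R rq p y - lq R rq p z| ≤ (s.c p).xi := by
  have hc := h.good.good p
  have key : ∀ a ∈ Z, ∀ b ∈ Z, (s.c p).d a b ≤ rq p b →
      lq R rq p b ≤ lq R rq p a + (s.c p).xi := fun a ha b hb k => by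
    have e1 := h.rq_le p ha hb
    rw [max_eq_right k] at e1
    have e2 := Real.log_le_log (h.rq_pos p ha) e1
    rw [Real.log_mul hc.lam_pos.ne' (h.rq_pos p hb).ne'] at e2
    have e3 : Real.log (R p / rq p a) ≤ lq R rq p a := le_max_right _ _
    refine max_le (add_nonneg (lq_nonneg _ _ _ _) hc.xi_nonneg) ?_
    rw [Real.log_div (h.cen.R_pos p).ne' (h.rq_pos p ha).ne'] at e3
    rw [Real.log_div (h.cen.R_pos p).ne' (h.rq_pos p hb).ne']
    linarith [hc.log_lam]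
  have k1 := key y hy z hz h2
  have k2 := key z hz y hy (by rwa [hc.d_symm])
  rw [abs_le]; constructor <;> linarith

/-- cells below `rB` are small -/
theorem Fm.bc_of_lt (h : Fm N s A η Z R L G rq cn W ε) {p : PL} {i : ℕ × Finset X}
    (hi : i ∈ (s.c p).I) {y : X} (hy : y ∈ Z) (hyi : y ∈ i.2)
    (hρ : (s.c p).ρ i < rB s R L rq p y) : bc s Z R L rq p i := by
  have hc := h.good.good p
  have hl := hc.lam_lo
  have hr := hc.rho_pos i hi
  have he := Real.exp_pos (ga s L p)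
  have he1 : 1 ≤ Real.exp (ga s L p) := Real.one_le_exp (h.ga_pos p).le
  unfold rB at hρ
  rw [lt_div_iff₀ (by positivity), Real.exp_neg, ← div_eq_mul_inv, lt_div_iff₀ he] at hρ
  set t := (s.c p).ρ i * Real.exp (ga s L p) with ht
  have t0 : 0 < t := mul_pos hr he
  have h1 : (s.c p).lam ^ 3 * t < min (R p) (rq p y) := by rw [ht]; linarith
  have l2 : (s.c p).lam * ((s.c p).lam * t) ≤ (s.c p).lam ^ 3 * t := by
    have : 0 ≤ (s.c p).lam * ((s.c p).lam * t) := by positivity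
    nlinarith
  refine ⟨?_, fun z hz hzi => ?_⟩
  · exact ((le_mul_of_one_le_left t0.le (one_le_pow₀ hl)).trans h1.le).trans (min_le_left _ _)
  · by_contra k
    have h2 := h.rq_le p hy hz
    have h3 : (s.c p).d y z ≤ (s.c p).lam * t := (hc.c1 i hi y hyi z hzi).trans
      (mul_le_mul_of_nonneg_left (le_mul_of_one_le_right hr.le he1) hc.lam_pos.le)
    have h4 := mul_le_mul_of_nonneg_left (max_le h3 (not_lt.1 k)) hc.lam_pos.le
    linarith [min_le_right (R p) (rq p y)]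

/-- small cells are deep -/
theorem Fm.bc_le (h : Fm N s A η Z R L G rq cn W ε) {p : PL} {i : ℕ × Finset X}
    (hi : i ∈ (s.c p).I) (hb : bc s Z R L rq p i) {y : X} (hy : y ∈ Z) (hyi : y ∈ i.2) :
    (s.c p).ρ i ≤ R p * Real.exp (-(lq R rq p y + ga s L p)) := by
  have hc := h.good.good p
  have he := Real.exp_pos (ga s L p)
  have t0 := (mul_pos (hc.rho_pos i hi) he).le
  have h1 := le_min hb.1 ((le_mul_of_one_le_left t0 hc.lam_lo).trans (hb.2 y hy hyi).le)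
  rw [h.min_eq p hy] at h1
  rw [neg_add, Real.exp_add, ← mul_assoc, Real.exp_neg (ga s L p), ← div_eq_mul_inv,
    le_div_iff₀ he]
  exact h1

theorem Fm.bc_lt (h : Fm N s A η Z R L G rq cn W ε) {p : PL} {i : ℕ × Finset X}
    (hi : i ∈ (s.c p).I) (hb : bc s Z R L rq p i) : (s.c p).ρ i < R p :=
  lt_of_lt_of_le (lt_mul_of_one_lt_right ((h.good.good p).rho_pos i hi)
    (Real.one_lt_exp_iff.2 (h.ga_pos p))) hb.1

/-- two points of a small cell are close -/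
theorem Fm.bc_d (h : Fm N s A η Z R L G rq cn W ε) {p : PL} {i : ℕ × Finset X}
    (hi : i ∈ (s.c p).I) (hb : bc s Z R L rq p i) {x y : X} (hx : x ∈ Z) (hxi : x ∈ i.2)
    (hyi : y ∈ i.2) : (s.c p).lam * (s.c p).d x y < rq p x := by
  have hc := h.good.good p
  refine lt_of_le_of_lt (mul_le_mul_of_nonneg_left ((hc.c1 i hi x hxi y hyi).trans ?_)
    hc.lam_pos.le) (hb.2 x hx hxi)
  rw [mul_comm]
  refine mul_le_mul_of_nonneg_left ((h.lam_le p).trans (Real.exp_le_exp.2 ?_))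
    (hc.rho_pos i hi).le
  linarith [h.ga_ge p, h.xs_pos p]

end Pool.Agent.MP_ddf486_co.KV.L
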