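import Pool.Agent.MP_ddf486_co.KL.Ri

/-! Project KL: almost every point sees many other points along rich lines. -/

set_option autoImplicit false

noncomputable section

namespace Pool.Agent.MP_ddf486_co.KV.L

open Finset

/-- the statement -/
def AE : Prop :=
  ∀ δ : ℝ, 0 < δ → ∃ c : ℝ, 0 < c ∧ ∀ ε : ℝ, 0 < ε → ∃ n₀ : ℕ,
    ∀ P : Finset Pl, n₀ ≤ P.card →
    ∑ a ∈ P, (((P.image fun b => dist a b).erase 0).card : ℝ) ≤
      (P.card : ℝ) ^ 2 / Real.log P.card ^ δ →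
    ∃ B ⊆ P, (B.card : ℝ) ≤ P.card / Real.log P.card ^ (δ / 3) ∧ ∀ x ∈ P, x ∉ B →
      (P.card : ℝ) ^ (1 / 2 - ε) ≤ {y | y ∈ P ∧ y ≠ x ∧ Real.exp (Real.log P.card ^ c) ≤
        ((P : Set Pl) ∩ (line[ℝ, x, y] : Set Pl)).ncard}.ncard

theorem pw_cmp {n m Λ a e : ℝ} (m0 : 0 < m) (mn : m ≤ n) (h1 : 1 ≤ Λ) (h2 : n ≤ m * Λ)
    (h3 : Λ ≤ n ^ (e / 2)) (a0 : 0 ≤ a) (a1 : a ≤ 1) (e0 : 0 ≤ e) :
    n ^ (a - e) ≤ m ^ (a - e / 2) := by
  have n0 : 0 < n := m0.trans_le mn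
  have k1 : n ^ a ≤ m ^ a * n ^ (e / 2) := by
    refine (Real.rpow_le_rpow n0.le h2 a0).trans ?_
    rw [Real.mul_rpow m0.le (by linarith)]
    refine mul_le_mul_of_nonneg_left (le_trans ?_ h3) (by positivity)
    simpa using Real.rpow_le_rpow_of_exponent_le h1 a1
  have k2 : m ^ (e / 2) ≤ n ^ (e / 2) := Real.rpow_le_rpow m0.le mn (by linarith)
  rw [Real.rpow_sub n0, Real.rpow_sub m0, div_le_div_iff₀ (by positivity) (by positivity),
    show n ^ e = n ^ (e / 2) * n ^ (e / 2) by rw [← Real.rpow_add n0, add_halves], ← mul_assoc]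
  exact mul_le_mul k1 k2 (by positivity) (by positivity)

theorem ae (hI : TRI) : AE := by
  classical
  intro δ hδ
  obtain ⟨c, c0, h⟩ := many hI (δ / 3) (by positivity)
  refine ⟨c / 2, by positivity, fun ε hε => ?_⟩
  obtain ⟨n₁, h⟩ := h (ε / 2) (half_pos hε)
  obtain ⟨n₂, hs⟩ := log_small 1 (δ / 3) (ε / 2) one_pos (half_pos hε)
  obtain ⟨n₃, hs'⟩ := log_small 1 (δ / 3) (1 / 2) one_pos (by norm_num)
  refine ⟨max (max n₂ n₃) (max (n₁ ^ 2) 81), fun P hn hZ => ?_⟩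
  simp only [max_le_iff] at hn
  have a2 := hs _ hn.1.1
  have a3 := hs' _ hn.1.2
  rw [one_mul] at a2 a3
  have n3 : (81 : ℝ) ≤ P.card := by exact_mod_cast hn.2.2
  have n0 : (0 : ℝ) < P.card := by linarith
  have l4 : 4 ≤ Real.log P.card := by
    rw [Real.le_log_iff_exp_le n0, show (4 : ℝ) = (4 : ℕ) * 1 by norm_num, Real.exp_nat_mul]
    exact (pow_le_pow_left₀ (Real.exp_pos _).le (Real.exp_one_lt_d9.le.trans
      (by norm_num : (2.7182818286 : ℝ) ≤ 3)) 4).trans (le_trans (by norm_num) n3)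
  set B := P.filter fun x => ¬ (P.card : ℝ) ^ (1 / 2 - ε) ≤ {y | y ∈ P ∧ y ≠ x ∧
    Real.exp (Real.log P.card ^ (c / 2)) ≤
      ((P : Set Pl) ∩ (line[ℝ, x, y] : Set Pl)).ncard}.ncard with hB
  have BP : B ⊆ P := filter_subset _ _
  set Λ := Real.log P.card ^ (δ / 3) with hΛ
  have Λ1 : 1 ≤ Λ := Real.one_le_rpow (by linarith) (by positivity)
  by_cases hb : (B.card : ℝ) ≤ P.card / Λ
  · exact ⟨B, BP, hb, fun x hx k => not_not.1 fun e => k (mem_filter.2 ⟨hx, e⟩)⟩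
  rw [not_le, div_lt_iff₀ (by linarith)] at hb
  have mn : (B.card : ℝ) ≤ P.card := Nat.cast_le.2 (card_le_card BP)
  rw [← Real.sqrt_eq_rpow] at a3
  have r0 : 0 < √(P.card : ℝ) := by positivity
  have r2 := Real.mul_self_sqrt n0.le
  have m1 : √(P.card : ℝ) ≤ B.card := by
    refine le_of_mul_le_mul_right ?_ r0
    linarith [mul_le_mul_of_nonneg_left a3 (Nat.cast_nonneg (α := ℝ) B.card)]
  have m0 : (0 : ℝ) < B.card := r0.trans_le m1
  have lm : Real.log P.card / 2 ≤ Real.log B.card := by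
    rw [← Real.log_sqrt n0.le]
    exact Real.log_le_log r0 m1
  have lm' : Real.log B.card ≤ Real.log P.card := Real.log_le_log m0 mn
  have b1 : n₁ ≤ B.card := by
    have : (n₁ : ℝ) ≤ √(P.card : ℝ) := Real.le_sqrt_of_sq_le (by exact_mod_cast hn.2.1)
    exact_mod_cast this.trans m1
  have b2 : ∑ a ∈ B, (((B.image fun b => dist a b).erase 0).card : ℝ) ≤
      (B.card : ℝ) ^ 2 / Real.log B.card ^ (δ / 3) := by
    refine le_trans ((sum_le_sum fun a _ => Nat.cast_le.2 (card_le_card (erase_subset_erase _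
      (image_subset_image BP)))).trans (sum_le_sum_of_subset_of_nonneg BP fun _ _ _ =>
      Nat.cast_nonneg _)) (hZ.trans ?_)
    have e : Real.log P.card ^ δ = Λ ^ 2 * Λ := by
      rw [hΛ, ← pow_succ, ← Real.rpow_natCast, ← Real.rpow_mul (by linarith)]
      congr 1
      push_cast
      ring
    have e2 : Real.log B.card ^ (δ / 3) ≤ Λ := Real.rpow_le_rpow (by linarith) lm' (by positivity)
    have e3 : 0 < Real.log B.card ^ (δ / 3) := Real.rpow_pos_of_pos (by linarith) _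
    rw [e, ← div_div]
    refine div_le_div₀ (by positivity) ?_ e3 e2
    rw [div_le_iff₀ (by positivity), ← mul_pow]
    exact pow_le_pow_left₀ n0.le hb.le 2
  have g2 := h B b1 b2
  exfalso
  have c1 : Real.exp (Real.log P.card ^ (c / 2)) ≤ Real.exp (Real.log B.card ^ c) := by
    rw [Real.exp_le_exp, show c / 2 = 1 / 2 * c by ring, Real.rpow_mul (by linarith),
      ← Real.sqrt_eq_rpow]
    refine Real.rpow_le_rpow (by positivity) (le_trans ?_ lm) c0.le
    rw [Real.sqrt_le_iff]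
    exact ⟨by linarith, by nlinarith⟩
  set G := prs B (Real.exp (Real.log B.card ^ c)) with hG
  have c2 : ∀ x ∈ B, ((G.filter fun e => e.1 = x).card : ℝ) < (P.card : ℝ) ^ (1 / 2 - ε) :=
    fun x hx => lt_of_le_of_lt (Nat.cast_le.2 (by
      rw [← Set.ncard_coe_finset]
      refine Set.ncard_le_ncard_of_injOn Prod.snd (fun e he => ?_) (fun e he f hf k => ?_)
        (P.finite_toSet.subset fun y hy => hy.1)
      · obtain ⟨u1, rfl⟩ := mem_filter.1 he
        obtain ⟨u2, u3⟩ := mem_filter.1 u1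
        obtain ⟨-, u4, u5⟩ := mem_offDiag.1 u2
        refine ⟨BP u4, u5.symm, c1.trans (u3.trans (Nat.cast_le.2 ?_))⟩
        rw [← kt_eq]
        exact Set.ncard_le_ncard (Set.inter_subset_inter_left _ (coe_subset.2 BP))
          (P.finite_toSet.inter_of_left _)
      · exact Prod.ext ((mem_filter.1 he).2.trans (mem_filter.1 hf).2.symm) k))
      (not_le.1 (mem_filter.1 hx).2)
  have c3 : (G.card : ℝ) = ∑ x ∈ B, ((G.filter fun e => e.1 = x).card : ℝ) := by
    rw [card_eq_sum_card_fiberwise (f := Prod.fst) (s := G) (t := B) fun e he =>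
      (mem_offDiag.1 (mem_filter.1 he).1).1, Nat.cast_sum]
  have c4 := sum_lt_sum_of_nonempty (card_pos.1 (Nat.cast_pos.1 m0)) c2
  rw [sum_const, nsmul_eq_mul, ← c3] at c4
  have c5 := pw_cmp (a := 1 / 2) m0 mn Λ1 hb.le a2 (by norm_num) (by norm_num) hε.le
  have c6 : (B.card : ℝ) ^ (3 / 2 - ε / 2) = B.card * (B.card : ℝ) ^ (1 / 2 - ε / 2) := by
    rw [show 3 / 2 - ε / 2 = 1 + (1 / 2 - ε / 2) by ring, Real.rpow_add m0, Real.rpow_one]
  rw [c6] at g2
  exact absurd (g2.trans_lt c4) (not_lt.2 (mul_le_mul_of_nonneg_left c5 m0.le))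

end Pool.Agent.MP_ddf486_co.KV.L
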