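import Pool.Agent.MP_ddf486_co.KL.A

/-! Project KL: blocks A and B. -/

set_option autoImplicit false
set_option linter.unusedSectionVars false

noncomputable section

namespace Pool.Agent.MP_ddf486_co.KV.L

open Finset Pool.Agent.MP_6c3157_co.PD Pool.Agent.MP_6c3157_co.PQ

section tri

variable {X : Type} [DecidableEq X]

open Classical in
theorem tl_le_ec (lab : X → X → ℝ) (Z Y : Finset X) (H : X → X → Prop) (k : ℝ)
    (h : ∀ y ∈ Y, ∀ z ∈ Y, y ≠ z → H y z →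
      ((Z.filter fun x => lab x y = lab x z).card : ℝ) ≤ k) :
    (tl lab Z Y H : ℝ) ≤ k * ed Y H := by
  unfold tl ed
  set T := (Z ×ˢ Y ×ˢ Y).filter fun t : X × X × X =>
    t.2.1 ≠ t.2.2 ∧ lab t.1 t.2.1 = lab t.1 t.2.2 ∧ H t.2.1 t.2.2 with hT
  set E := (Y ×ˢ Y).filter fun e : X × X => e.1 ≠ e.2 ∧ H e.1 e.2 with hE
  have hmap : ∀ t ∈ T, t.2 ∈ E := by
    intro t ht
    simp only [hT, hE, mem_filter, mem_product] at ht ⊢
    exact ⟨⟨ht.1.2.1, ht.1.2.2⟩, ht.2.1, ht.2.2.2⟩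
  rw [card_eq_sum_card_fiberwise (f := fun t : X × X × X => t.2) hmap]
  push_cast
  have : ∀ e ∈ E, (((T.filter fun t => t.2 = e).card : ℕ) : ℝ) ≤ k := by
    intro e he
    simp only [hE, mem_filter, mem_product] at he
    refine le_trans ?_ (h e.1 he.1.1 e.2 he.1.2 he.2.1 he.2.2)
    have : (T.filter fun t => t.2 = e).card ≤
        (Z.filter fun x => lab x e.1 = lab x e.2).card := by
      refine card_le_card_of_injOn (fun t => t.1) ?_ ?_
      · intro t ht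
        simp only [hT, coe_filter, mem_filter, mem_product, Set.mem_ofPred_eq] at ht ⊢
        obtain ⟨⟨h1, h2⟩, h3⟩ := ht
        rw [← h3]
        exact ⟨h1.1, h2.2.1⟩
      · intro t ht t' ht' htt
        simp only [coe_filter, Set.mem_ofPred_eq] at ht ht'
        exact Prod.ext htt (ht.2.trans ht'.2.symm)
    exact_mod_cast this
  calc ∑ e ∈ E, (((T.filter fun t => t.2 = e).card : ℕ) : ℝ) ≤ ∑ _e ∈ E, k := sum_le_sum this
    _ = k * E.card := by rw [sum_const, nsmul_eq_mul, mul_comm]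

open Classical in
theorem tl_split (lab : X → X → ℝ) (Z : Finset X) (C : Finset (Finset X)) (G : X → X → Prop) :
    tl lab Z Z G ≤ tl lab Z Z (fun y z => G y z ∧ ¬ ∃ P ∈ C, y ∈ P ∧ z ∈ P) +
      ∑ P ∈ C, tl lab Z (Z ∩ P) G := by
  unfold tl
  refine le_trans ?_ (Nat.add_le_add_left card_biUnion_le _)
  refine le_trans (card_le_card ?_) (card_union_le _ _)
  intro t ht
  simp only [mem_filter, mem_product, mem_union, mem_biUnion, mem_inter] at ht ⊢
  by_cases hP : ∃ P ∈ C, t.2.1 ∈ P ∧ t.2.2 ∈ P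
  · obtain ⟨P, hPC, h1, h2⟩ := hP
    exact Or.inr ⟨P, hPC, ⟨ht.1.1, ⟨ht.1.2.1, h1⟩, ht.1.2.2, h2⟩, ht.2⟩
  · exact Or.inl ⟨ht.1, ht.2.1, ht.2.2.1, ht.2.2.2, hP⟩

end tri

open At01 Classical in
theorem atl (X : Type) [DecidableEq X] (lab : X → X → ℝ) (Y : Finset X) (At : X → Finset X)
    (Lw : X → X → Prop) (k ν : ℝ) (k0 : 0 ≤ k) (hν : ∀ y ∈ Y, ((At y).card : ℝ) ≤ ν)
    (hk : ∀ y ∈ Y, ∀ z ∈ Y, y ≠ z → ¬ Lw y z →
      ((Y.filter fun x => lab x y = lab x z).card : ℝ) ≤ k) :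
    (tc lab Y fun _ z w => w ∈ At z ∧ ¬ Lw z w : ℝ) ≤ Y.card * ν * k := by
  rw [tc_eq, Nat.cast_sum, mul_assoc, ← nsmul_eq_mul]
  refine sum_le_card_nsmul _ _ _ fun z hz => ?_
  rw [sum_comm, Nat.cast_sum]
  refine le_trans (sum_le_sum (g := fun w => if w ∈ At z then k else 0) fun w hw => ?_) ?_
  · by_cases e : z ≠ w ∧ w ∈ At z ∧ ¬ Lw z w
    · rw [if_pos e.2.1]
      exact le_trans (Nat.cast_le.2 (le_card _ fun x a hx =>
        mem_filter.2 ⟨a, hx.2.2.2.1⟩)) (hk z hz w hw e.1 e.2.2)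
    · refine le_trans (Nat.cast_le.2 (le_card ∅ fun x _ hx =>
        absurd ⟨hx.2.2.1, hx.2.2.2.2⟩ e)) ?_
      rw [card_empty, Nat.cast_zero]
      split_ifs
      exacts [k0, le_rfl]
  · rw [sum_ite_mem, sum_const, nsmul_eq_mul]
    exact mul_le_mul_of_nonneg_right
      (le_trans (Nat.cast_le.2 (card_le_card inter_subset_right)) (hν z hz)) k0

open FpcAux in
theorem ft : FT := by
  intro X PL K _ _ A lab Z H k hk hl hp
  classical
  refine ⟨tl_le_ec lab Z Z H k fun y hy z hz h _ => hp y hy z hz h,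
    fun C β b ν k₁ M n D hC hZ hN hn hD => ?_⟩
  have : ∀ P y, ∃ e : X, P ∈ C → ∀ z, z ≠ y → z ≠ e →
      (P.filter fun x => A.bis x y z).card ≤ 2 * β P := fun P y => by
    by_cases h : P ∈ C
    · exact (hC.line P h y).imp fun _ he _ => he
    · exact ⟨y, fun h' => absurd h' h⟩
  choose e he using this
  have hk₁ : 0 < k₁ := one_pos.trans_le hN.k_lo
  have hM : 0 ≤ M := zero_le_one.trans hN.M_lo
  set B : ℝ := ∑ P ∈ C, (β P : ℝ) with hB
  have h0 : tl lab Z Z H ≤ tl lab Z Z (fun y z => ∃ P ∈ C, z = e P y) +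
      tl lab Z Z fun y z => H y z ∧ ¬∃ P ∈ C, z = e P y := by
    refine (card_le_card fun t ht => ?_).trans (card_union_le _ _)
    simp only [mem_filter, mem_union] at ht ⊢
    exact (em _).imp (fun c => ⟨ht.1, ht.2.1, ht.2.2.1, c⟩) fun c =>
      ⟨ht.1, ht.2.1, ht.2.2.1, ht.2.2.2, c⟩
  have h1 : (tl lab Z Z fun y z => ∃ P ∈ C, z = e P y : ℝ) ≤ k * C.card * Z.card := by
    refine (tl_le_ec lab Z Z _ k fun y hy z hz h _ => hp y hy z hz h).trans ?_
    rw [mul_assoc, ← Nat.cast_mul, ← card_product]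
    refine mul_le_mul_of_nonneg_left (Nat.cast_le.2 ((card_le_card fun t ht => ?_).trans
      (card_image_le (f := fun x : Finset X × X => (x.2, e x.1 x.2))))) hk
    simp only [mem_filter, mem_product] at ht
    obtain ⟨⟨a, -⟩, -, P, hP, h⟩ := ht
    exact mem_image.2 ⟨(P, t.1), mem_product.2 ⟨hP, a⟩, Prod.ext rfl h.symm⟩
  have h2 := tl_split lab Z C fun y z => H y z ∧ ¬∃ P ∈ C, z = e P y
  have h3 := (tl_le_ec lab Z Z (fun y z => (H y z ∧ ¬∃ P ∈ C, z = e P y) ∧ ¬∃ P ∈ C, y ∈ P ∧ z ∈ P)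
    k fun y hy z hz h _ => hp y hy z hz h).trans (mul_le_mul_of_nonneg_left
      ((Nat.cast_le.2 (ec_mono Z _ _ fun y z h => ⟨h.1.1, h.2⟩)).trans hN.gen) hk)
  have h4 : ∀ P ∈ C, (tl lab Z (Z ∩ P) fun y z => H y z ∧ ¬∃ P ∈ C, z = e P y : ℝ) ≤
      2 * M * B * ((P.card : ℝ) ^ 2 / β P) + 4 * k / k₁ * (P.card : ℝ) ^ 2 := fun P hP => by
    have hm : 0 ≤ min k (2 * B) := le_min hk (by positivity)
    refine (tl_le_ec lab Z _ _ (min k (2 * B)) fun y hy z hz h g => le_min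
      (hp y (mem_inter.1 hy).1 z (mem_inter.1 hz).1 h) ?_).trans ((mul_le_mul_of_nonneg_left
        ((Nat.cast_le.2 (ec_mono _ _ H fun y z h => h.1)).trans (hN.same P hP)) hm).trans ?_)
    · rw [hB, mul_sum]
      norm_cast
      refine (card_le_card (t := C.biUnion fun P => P.filter fun x => A.bis x y z)
        fun x hx => ?_).trans (card_biUnion_le.trans (sum_le_sum fun P hP =>
          he P y hP z h.symm fun c => g.2 ⟨P, hP, c⟩))
      obtain ⟨P, hP, h⟩ := mem_biUnion.1 (hZ (mem_filter.1 hx).1)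
      exact mem_biUnion.2 ⟨P, hP, mem_filter.2 ⟨h, hl _ _ _ (mem_filter.1 hx).2⟩⟩
    · have a := mul_le_mul_of_nonneg_right (min_le_right k (2 * B))
        (by positivity : 0 ≤ M / β P * (P.card : ℝ) ^ 2)
      have c := mul_le_mul_of_nonneg_right (min_le_left k (2 * B))
        (by positivity : 0 ≤ 4 / k₁ * (P.card : ℝ) ^ 2)
      linear_combination a + c
  have h5 := sum_le_sum h4
  rw [sum_add_distrib, ← mul_sum, ← mul_sum] at h5
  have h6 : 4 * k / k₁ * ∑ P ∈ C, (P.card : ℝ) ^ 2 ≤ 4 * k / k₁ * n ^ 2 :=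
    mul_le_mul_of_nonneg_left ((sum_sq_le_sq_sum_of_nonneg fun P _ => Nat.cast_nonneg _).trans
      (pow_le_pow_left₀ (sum_nonneg fun P _ => Nat.cast_nonneg _) hn 2)) (by positivity)
  have h7 := mul_le_mul_of_nonneg_left hD (by positivity : 0 ≤ 2 * M)
  have h0 := (Nat.cast_le (α := ℝ)).2 h0
  have h2 := (Nat.cast_le (α := ℝ)).2 h2
  rw [Nat.cast_add] at h0 h2
  rw [Nat.cast_sum] at h2
  linear_combination h0 + h1 + h2 + h3 + h5 + h6 + h7


section

theorem sml (hB : BLK) : SML := by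
  classical
  intro N X PL K _ _ _ s A η Q Z hv R L G cn W ns T hN H hZ hQ co htb V hV
  have nb := nb hN H.big
  have u0 := nb.u0
  have cen := co.cln.cen
  have W0 : 0 < W := by
    by_contra k
    nlinarith [cen.eW, mul_nonneg cen.e_pos.le (neg_nonneg.2 (not_lt.1 k))]
  have u1 : N.u ≤ 1 / 1000 := nb.u1.trans (by norm_num)
  have stp : ∀ a b : ℕ, a < b → N.u ^ b ≤ N.u ^ a / 1000 := fun a b k => by
    have e1 := nb.pw (a + 1) b k
    have e2 := mul_le_mul_of_nonneg_left u1 (pow_pos u0 a).le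
    rw [pow_succ] at e1
    linarith
  have stw : ∀ a b : ℕ, a < b → N.u ^ b * W ≤ N.u ^ a * W / 1000 := fun a b k => by
    have := mul_le_mul_of_nonneg_right (stp a b k) W0.le
    linarith
  have pw : ∀ a : ℕ, 0 < N.u ^ a * W := fun a => mul_pos (pow_pos u0 a) W0
  obtain ⟨c₁, c₂, hc, hj⟩ := clg cl2 gfb X PL s R Z (fun _ _ => False) (fun _ _ => False)
    (N.u ^ 20 * W) N.κ co.good.m_lo (pw 20) nb.k1 (by intros; assumption)
  obtain ⟨cl, h1, h2⟩ := MP_6c3157_co.PQ.col hc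
  obtain ⟨j, j1, j2⟩ := Sml.thin u0 nb.u1 (zero_lt_one.trans_le nb.q2) hN.q_u
  have e20 : (N.u ^ 10) ^ 2 = N.u ^ 20 := by ring
  have hb := hB X PL s hv Z V R L G W _ _ ns T (N.u ^ 10) (N.u ^ 8 * W / 10) ((N.q : ℝ) ^ 61) N.u N.κ
    j cl co.good co.cln (by rwa [e20, mul_assoc]) (pow_pos u0 _)
    (by linarith [stp 0 10 (by norm_num), pow_zero N.u]) (by rw [e20]; exact nb.pw _ _ (by norm_num))
    hV (by rw [e20]; linarith [stw 8 20 (by norm_num), pw 8])
    (by linarith [stw 8 470 (by norm_num)])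
    (by have := stw 0 8 (by norm_num); rw [pow_zero] at this; linarith) j1 (by positivity)
    (by rwa [show N.u ^ 8 * W / 10 / (8 * W) = N.u ^ 8 / 80 by field_simp; norm_num]) u0.le nb.k1
    fun S hS c => H.pl S (hS.trans (hV.trans hZ)) (c.trans (nb.qs 61 (by norm_num)))
  rw [h2, show 10 * (N.u ^ 8 * W / 10) = N.u ^ 8 * W by ring] at hb
  have t0 : ed Z (fun _ _ => False) = 0 := by simp [ed]
  have t1 : (tc s.lab Z fun x y z => N.u ^ 20 * W ≤ dis s R x y z ∧ ¬False) ≤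
      tl s.lab Z Z fun y z => N.u ^ 20 / 3 * W ≤ del s R y z := by
    refine card_le_card fun t ht => ?_
    simp only [mem_filter, mem_product] at ht ⊢
    obtain ⟨⟨m1, m2, m3⟩, a1, a2, a3, a4, a5, -⟩ := ht
    have e := (apex depS X PL K s A η Z R G W _ H.ari cen _ m1 _ m2 _ m3 a1 a2 a3 a4).2
    refine ⟨⟨m1, m2, m3⟩, a3, a4, le_trans ?_ e⟩
    unfold dis at a5
    linarith [stw 20 470 (by norm_num), pw 20]
  have z0 : (0 : ℝ) ≤ (Z.card : ℝ) ^ 2 := by positivity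
  have t2 : Phi s.lab N.κ Z ≤ N.u ^ 22 * (Z.card : ℝ) ^ 2 := by
    refine ((gfb.2.2.2 X s.lab N.κ Q nb.k1).2.1 Z hZ).trans (H.bad.trans ?_)
    calc _ ≤ N.u ^ 30 * (Q.card : ℝ) ^ 2 :=
        mul_le_mul_of_nonneg_right (nb.ps 30 (by norm_num)) (by positivity)
      _ = N.u ^ 22 * (N.u ^ 4 * Q.card) ^ 2 := by ring
      _ ≤ _ := mul_le_mul_of_nonneg_left (pow_le_pow_left₀ (by positivity) hQ 2) (by positivity)
  have t3 : ((tc s.lab Z fun x y z => N.u ^ 20 * W ≤ dis s R x y z ∧ ¬False : ℕ) : ℝ) / N.κ ^ 2 ≤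
      N.u ^ 22 * (Z.card : ℝ) ^ 2 := by
    have k0 : 0 < N.κ := zero_lt_one.trans_le nb.k1
    have e1 := one_le_pow₀ (n := 2) (nb.uk 31 (by norm_num))
    have e2 := (mul_le_mul_of_nonneg_left (Nat.cast_le.2 t1) (pow_pos u0 40).le).trans htb
    rw [div_le_iff₀ (by positivity)]
    refine le_of_mul_le_mul_left (e2.trans ?_) (pow_pos u0 40)
    exact (le_mul_of_one_le_left z0 e1).trans_eq (by ring)
  rw [t0, Nat.cast_zero, zero_add] at hj
  refine le_of_mul_le_mul_left (hb.trans ?_) u0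
  have t4 := mul_le_mul_of_nonneg_right (stp 21 22 (by norm_num)) z0
  have t5 : N.u * (N.u ^ 20 * (Z.card : ℝ) ^ 2) = N.u ^ 21 * (Z.card : ℝ) ^ 2 := by ring
  have t6 : 0 ≤ N.u ^ 21 * (Z.card : ℝ) ^ 2 := by positivity
  linarith

end

section

theorem coa (hB : BANDR) (hC : CLNX) : COA := by
  classical
  intro N X PL K _ _ _ s A η Q V hN hH hV hu
  have B := nb hN hH.big
  have u0 := B.u0
  have u1 := B.u1
  have k1 := B.k1
  have q3 := B.q2
  have q2 : (100 : ℝ) ≤ N.q := le_trans (by norm_num) B.q1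
  have q0 : (0 : ℝ) < N.q := by linarith
  have hs := hH.ari.good
  have kq : ∀ m : ℕ, m ≤ 124 → 1 ≤ (N.u ^ 470) ^ m * N.q := fun m hm => by
    rw [← pow_mul]; exact B.uq _ (by omega)
  have kk : 1 ≤ (N.u ^ 470) ^ 60 * N.κ := by rw [← pow_mul]; exact B.uk _ (by norm_num)
  have p1 : N.ψ ≤ (N.u ^ 470) ^ 124 * (N.u ^ 3) ^ 2 := by
    rw [← pow_mul, ← pow_mul, ← pow_add]; exact B.ps _ (by norm_num)
  have e0 : 0 < N.u ^ 470 := pow_pos u0 _
  have eu : N.u ^ 470 ≤ N.u ^ 2 := B.pw 2 470 (by norm_num)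
  generalize N.u ^ 470 = ε at kq kk p1 e0 eu ⊢
  have eu1 : ε ≤ N.u / 10 ^ 30 := by nlinarith
  have e2 : ε ≤ 1 / 10 ^ 30 := by linarith [B.u2]
  have e1 : ε ≤ 1 := e2.trans (by norm_num)
  have pe : ∀ a b : ℕ, a ≤ b → ε ^ b ≤ ε ^ a := fun a b h => pow_le_pow_of_le_one e0.le e1 h
  have n0 : (0 : ℝ) < Q.card := lt_of_lt_of_le one_pos (by simpa using B.qn 0 (by norm_num))
  have u3 := B.uq 3 (by norm_num)
  have nv : (Q.card : ℝ) ≤ N.q * V.card := by
    have := mul_le_mul_of_nonneg_left hu q0.le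
    nlinarith
  have qv : ∀ m : ℕ, m ≤ 300 → (N.q : ℝ) ^ m ≤ V.card := fun m hm => by
    have b1 := (B.qn (m + 1) (by omega)).trans nv
    rw [pow_succ'] at b1
    exact le_of_mul_le_mul_left b1 q0
  have v0 : (0 : ℝ) < V.card := lt_of_lt_of_le one_pos (by simpa using qv 0 (by norm_num))
  have hP := phi fibs X s.lab N.κ
  have fV : Phi s.lab N.κ V ≤ ε ^ 124 * (V.card : ℝ) ^ 2 := by
    refine ((hP Q k1).1 V hV).trans (hH.bad.trans ?_)
    have b1 : (N.u ^ 3 * Q.card) ^ 2 ≤ (V.card : ℝ) ^ 2 := pow_le_pow_left₀ (by positivity) hu 2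
    have b2 := mul_le_mul_of_nonneg_right p1 (sq_nonneg (Q.card : ℝ))
    have b3 := mul_le_mul_of_nonneg_left b1 (pow_pos e0 124).le
    rw [mul_pow] at b3
    linarith
  have uv : 16 ≤ N.u * V.card := by
    have b1 := qv 2 (by norm_num)
    have b2 := B.uq 1 (by norm_num)
    have b3 := mul_le_mul_of_nonneg_left b1 u0.le
    nlinarith
  set k : ℕ := ⌊N.u * V.card / 4⌋₊ with hk
  have k2 : (k : ℝ) ≤ N.u * V.card / 4 := Nat.floor_le (by positivity)
  have k3 : N.u * V.card / 4 < k + 1 := Nat.lt_floor_add_one _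
  have k4 : 1 ≤ k := by
    have : (1 : ℝ) ≤ k := by linarith
    exact_mod_cast this
  have uV : N.u * V.card ≤ 1 / 10 ^ 30 * V.card := mul_le_mul_of_nonneg_right u1 v0.le
  obtain ⟨Y, hY, cY, h, T, cx⟩ := hB X PL s V k hs k4
    (by
      have : (8 : ℝ) * k ≤ V.card := by linarith
      exact_mod_cast this)
    (by
      have b1 : ε ^ 124 ≤ N.u ^ 2 / 1000 := by
        have := pe 2 124 (by norm_num)
        nlinarith
      have b2 := Coa.cut uv k3 (((hP V k1).2.1.trans fV).trans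
        (mul_le_mul_of_nonneg_right b1 (sq_nonneg _)))
      have b3 : ((k * (k - 1) : ℕ) : ℝ) = (k : ℝ) * (k - 1) := by
        rw [Nat.cast_mul, Nat.cast_sub k4, Nat.cast_one]
      rw [← b3] at b2
      exact_mod_cast b2)
  have cY' : (Y.card : ℝ) + 2 * k = V.card := by exact_mod_cast cY
  have y2 : (V.card : ℝ) ≤ 2 * Y.card := by linarith
  have y0 : (0 : ℝ) < Y.card := by linarith
  have hYQ : Y ⊆ Q := hY.trans hV
  have y1 : (Y.card : ℝ) ≤ Q.card := Nat.cast_le.2 (card_le_card hYQ)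
  have ny : (Q.card : ℝ) ≤ (N.q : ℝ) ^ 2 * Y.card := by nlinarith
  have qy : ∀ m : ℕ, m ≤ 299 → 7 * (N.q : ℝ) ^ m ≤ Y.card := fun m hm => by
    have b1 := qv (m + 1) (by omega)
    have b2 : (0 : ℝ) < (N.q : ℝ) ^ m := by positivity
    rw [pow_succ] at b1
    nlinarith
  have y7 : 7 * (N.q : ℝ) ≤ Y.card := by simpa using qy 1 (by norm_num)
  have y3 : 3000 ≤ Y.card := by
    have b1 := qy 2 (by norm_num)
    have : (3000 : ℝ) ≤ Y.card := by nlinarith
    exact_mod_cast this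
  have fY : Phi s.lab N.κ Y ≤ 4 * ε ^ 124 * (Y.card : ℝ) ^ 2 := by
    refine ((hP V k1).1 Y hY).trans (fV.trans ?_)
    have b1 : (V.card : ℝ) ^ 2 ≤ (2 * Y.card) ^ 2 := pow_le_pow_left₀ v0.le y2 2
    have b3 := mul_le_mul_of_nonneg_left b1 (pow_pos e0 124).le
    linarith
  have hη : ∑ p, s.m p * (s.c p).eta ≤ 1 / (Q.card : ℝ) :=
    hH.ari.eta_sum.trans ((le_div_iff₀ n0).2 hH.eta)
  have hT := cx.Tlo
  have q100 : (N.q : ℝ) ≤ (N.q : ℝ) ^ 100 := le_self_pow₀ q3 (by norm_num)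
  have s0 : (N.q : ℝ) ^ 100 / Y.card ≤ ε ^ 124 := by
    rw [div_le_iff₀ y0]
    have b1 := qy 101 (by norm_num)
    have b2 : (0 : ℝ) < (N.q : ℝ) ^ 100 := by positivity
    have b3 := mul_le_mul_of_nonneg_left (kq 124 le_rfl) b2.le
    have b5 : (N.q : ℝ) ^ 101 = (N.q : ℝ) ^ 100 * N.q := pow_succ _ 100
    have b6 : 0 < (N.q : ℝ) ^ 100 * N.q := by positivity
    have b4 : ε ^ 124 * ((N.q : ℝ) ^ 100 * N.q) ≤ ε ^ 124 * Y.card :=
      mul_le_mul_of_nonneg_left (by linarith) (by positivity)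
    linarith
  have s1 := s0.trans (pe 29 124 (by norm_num))
  have th := all_th X PL s (heavy V) Y h T ((N.q : ℝ) ^ 100 / Y.card) N.κ N.u cx y3
    (by positivity) k1 fun S hS _ b => hH.pl S (hS.trans hYQ) (by
      rw [div_mul_cancel₀ _ y0.ne'] at b
      exact b.le.trans (B.qs 100 (by norm_num)))
  obtain ⟨m1, m2⟩ := all_eqm X PL s (heavy V) Y h T (1 / Q.card) ((N.q : ℝ) ^ 100 / Y.card)
    (ε ^ 61) cx hη (by omega) (by rw [div_mul_cancel₀ _ y0.ne']; linarith)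
    (s1.trans (pow_le_one₀ e0.le e1)) (by positivity)
  have m3 := m1 (Coa.thn e0 (e2.trans (by norm_num)) (by linarith) (by linarith)
    (sum_nonneg fun x _ => sum_nonneg fun y _ => hs.Osm_nonneg _ x y) s0 fY th)
  set Y₁ := Mk s (heavy V) Y ((N.q : ℝ) ^ 100 / Y.card) (ε ^ 61 * T) with hY₁
  have hsub : Y₁ ⊆ Y := filter_subset _ _
  have c1 : ((Y \ Y₁).card : ℝ) + Y₁.card = Y.card := by
    exact_mod_cast card_sdiff_add_card_eq_card hsub
  have c3 : ε ^ 61 * Y.card ≤ ε * Y.card :=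
    mul_le_mul_of_nonneg_right (pow_le_of_le_one e0.le e1 (by norm_num)) y0.le
  have c4 : ε * Y.card ≤ 1 / 10 ^ 30 * Y.card := mul_le_mul_of_nonneg_right e2 y0.le
  have ns0 : (0 : ℝ) < Q.card / (N.q : ℝ) ^ 90 := by positivity
  have nsq : (N.q : ℝ) ≤ Q.card / (N.q : ℝ) ^ 90 := by
    rw [le_div_iff₀ (by positivity), ← pow_succ']; exact B.qn 91 (by norm_num)
  have m4 := m2 Y₁ (ε ^ 60 * T) _ Subset.rfl ns0 (Lv1.eqn e0 (e2.trans (by norm_num)) q2
    (kq 60 (by norm_num)) (B.qn 92 (by norm_num)) y0 y1 hT)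
  obtain ⟨At, Lo, a1, a2, a3⟩ := hC X PL s (heavy V) Y Y₁ h T (1 / Q.card) ε _ _ cx hη e0
    (e2.trans (by norm_num))
    (by
      rw [div_le_iff₀ n0]
      refine (kq 10 (by norm_num)).trans (mul_le_mul_of_nonneg_left ?_ (by positivity))
      simpa using B.qn 1 (by norm_num))
    (by
      have b1 := kq 29 (by norm_num)
      have b2 : ε ^ 29 * (7 * (N.q : ℝ)) ≤ ε ^ 29 * Y.card :=
        mul_le_mul_of_nonneg_left y7 (by positivity)
      linarith)
    hsub (by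
      have : 3 * (Y.card : ℝ) ≤ 4 * Y₁.card := by linarith
      exact_mod_cast this)
    m4 s1 ((kq 62 (by norm_num)).trans (mul_le_mul_of_nonneg_left nsq (by positivity)))
  have z0 : 0 < ε ^ 15 := by positivity
  obtain ⟨ok, sf, hsf⟩ := all_subf X s.lab Y (Y₁ \ Lo) At (fun _ _ => False) (fun _ _ => False)
    (ε ^ 15) N.κ z0 ((pow_le_of_le_one e0.le e1 (by norm_num)).trans (e2.trans (by norm_num))) k1
    fun _ _ _ _ _ _ _ _ _ _ _ _ _ _ _ _ h _ _ => h
  have t1 := atl X s.lab Y At (fun _ _ => False) N.k _ (by linarith [hN.k_lo])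
    (fun y hy => (a1 y hy).le) fun y hy z hz hyz _ =>
      le_trans (Nat.cast_le.2 (card_le_card (filter_subset_filter _ hYQ)))
        (hH.pin y (hYQ hy) z (hYQ hz) hyz)
  have d1 := Coa.small (pow_pos e0 61) q3 (kq 61 (by norm_num)) y0 ny
  have d2 : (Q.card : ℝ) / (N.q : ℝ) ^ 90 ≤ Q.card / (N.q : ℝ) ^ 90 * N.q :=
    le_mul_of_one_le_right ns0.le q3
  have hd : ((Y \ (Y₁ \ Lo)).card : ℝ) ≤ 2 * (ε ^ 61 * Y.card) := by
    have b1 : (Y \ (Y₁ \ Lo)).card ≤ (Y \ Y₁).card + Lo.card :=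
      (card_le_card fun z hz => by
        simp only [mem_sdiff, mem_union] at hz ⊢
        tauto).trans (card_union_le _ _)
    have b2 : ((Y \ (Y₁ \ Lo)).card : ℝ) ≤ (Y \ Y₁).card + Lo.card := by exact_mod_cast b1
    linarith
  have hS := sbs X s.lab Y (Y₁ \ Lo) At ok sf _ N.κ _ _ (ε ^ 20) (3 * ε ^ 15) hsf
    (by
      rw [Subf01.ed_false, Nat.cast_zero, add_zero]
      exact Coa.badn e0 e2 y0 fY hd)
    (Coa.atn z0 k1 y0 ((mul_le_mul_of_nonneg_left B.kq ns0.le).trans (Coa.small (pow_pos z0 3) q3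
      (by rw [← pow_mul]; exact kq 45 (by norm_num)) y0 ny)) (t1.trans_eq (mul_assoc _ _ _)))
  obtain ⟨Z, z1, z2, z3⟩ := a3 ok sf (N.κ ^ 2) (kk.trans
    (mul_le_mul_of_nonneg_left (le_self_pow₀ k1 (by norm_num)) (by positivity))) hS
  obtain ⟨R, L, G, cn, W, z3⟩ := z3
  refine ⟨Z, z1.trans (hsub.trans hY), ?_, heavy V, R, L, G, cn, W, T, z3⟩
  have c2 : ((Y₁ \ Z).card : ℝ) + Z.card = Y₁.card := by
    exact_mod_cast card_sdiff_add_card_eq_card z1
  have c5 : ε * Y.card ≤ N.u / 10 ^ 30 * V.card :=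
    mul_le_mul eu1 (by linarith) y0.le (by positivity)
  have c6 : 0 ≤ N.u * V.card := by linarith
  linarith

end

section

open Case1 in
theorem case1 (h1 : BND) (h2 : COA) (h3 : FT) (h4 : SML) (h5 : CRV) : CASE1 := by
  classical
  intro N X PL K _ _ _ s A η Q C β hN hH hQ hv hC
  by_contra hc
  have B := nb hN hH.big
  have n0 := n_pos B
  have q0 := q_pos B
  have u0 := B.u0
  have c0 := hC C Subset.rfl
  have cd : ∀ C' ⊆ C, ((C'.biUnion id).card : ℝ) = ∑ P ∈ C', (P.card : ℝ) := fun C' k => by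
    rw [card_biUnion (t := id) fun P hP P' hP' e => c0.disj P (k hP) P' (k hP') e, Nat.cast_sum]
    rfl
  have bl : ∀ P ∈ C, (1 : ℝ) ≤ β P := fun P hP => Nat.one_le_cast.2 (c0.b_lo P hP)
  have bh : ∀ P ∈ C, (β P : ℝ) ≤ (N.q : ℝ) ^ 3 := fun P hP => by exact_mod_cast c0.b_hi P hP
  obtain ⟨C', hs, a1, a2⟩ := h1 _ C (fun P => (P.card : ℝ)) (fun P => (β P : ℝ))
    (Q.card / (N.q : ℝ) ^ 51) Q.card (by positivity) (div_le_self n0.le (one_le_pow₀ B.q2))
    fun P hP => ⟨lt_of_lt_of_le one_pos (bl P hP), ((mul_le_mul_of_nonneg_left (bh P hP)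
      (by positivity)).trans (le_of_eq (by field_simp))).trans (c0.big P hP).le,
      (Nat.cast_le.2 (card_le_card (hQ P hP))).trans (le_mul_of_one_le_right n0.le (bl P hP))⟩
  rw [← cd C Subset.rfl, ← cd C' hs] at a1
  have hV : C'.biUnion id ⊆ Q := biUnion_subset.2 fun P hP => hQ P (hs hP)
  have vn : ((C'.biUnion id).card : ℝ) ≤ Q.card := Nat.cast_le.2 (card_le_card hV)
  have v0 : (0 : ℝ) ≤ (C'.biUnion id).card := Nat.cast_nonneg _
  have a3 := band B hN.q_u v0 (not_le.1 hc) a1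
  obtain ⟨Z, hZ, a4, hw, R, L, G, cn, W, T, co⟩ := h2 N X PL K s A η Q _ hN hH hV a3
  have a5 := mul_le_mul_of_nonneg_right B.u1 v0
  have a6 : N.u ^ 4 * Q.card ≤ Z.card := by
    have := mul_le_mul_of_nonneg_left a3 u0.le
    linarith
  have c1 := hC C' hs
  have num : C'.card * (Q.card / (N.q : ℝ) ^ 48) ≤ (C'.biUnion id).card := by
    rw [cd C' hs, ← nsmul_eq_mul]
    exact card_nsmul_le_sum _ _ _ fun P hP => (c1.big P hP).le
  have hm : (C'.card : ℝ) ≤ (N.q : ℝ) ^ 48 := by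
    have := num.trans vn
    rw [← mul_div_assoc, div_le_iff₀ (by positivity), mul_comm] at this
    exact le_of_mul_le_mul_left this n0
  have tot : ∑ P ∈ C', (P.card : ℝ) ≤ Q.card := (cd C' hs).ge.trans vn
  have u20 := up B (a := 20) (by norm_num)
  have ct := cnq (gen all_rare all_same) X PL K s A η Q _ Z N.q C' β R G W (N.u ^ 470)
    (Q.card / (N.q : ℝ) ^ 90) (N.u ^ 20 / 3) (N.u ^ 11) hH.ari hZ hV ⟨c1, num, (cd C' hs).ge⟩
    co.cln.cen co.cln.conc (by positivity) (by linarith) (by positivity)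
    (by linarith [mul_le_mul_of_nonneg_right (up B (a := 2) (by norm_num)) (pow_pos u0 20).le,
      pow_pos u0 20])
    (by linarith [mul_le_mul_of_nonneg_right (up B (a := 10) (by norm_num)) (pow_pos u0 460).le,
      pow_pos u0 460])
    B.q1 (B.qn 400 (by norm_num)) (div_mul_cancel₀ _ (by positivity)).le
    (by linarith [mul_le_mul_of_nonneg_right B.u1 (mul_pos (pow_pos u0 20) q0).le,
      B.uq 21 (by norm_num)])
    (by rw [← pow_mul]; exact B.uq _ (by norm_num))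
  have k0 : 0 ≤ N.k := by linarith [hN.k_lo]
  have hZQ := hZ.trans hV
  rw [← cd C' hs] at a2
  have tb := (h3 X PL K A s.lab Z _ N.k k0 hH.ari.lab fun y hy z hz e => le_trans (Nat.cast_le.2 (card_le_card
    (filter_subset_filter _ hZQ))) (hH.pin y (hZQ hy) z (hZQ hz) e)).2 C' β _ _ _ _ _ _ c1 hZ ct
    tot a2
  have sm := h4 N X PL K s A η Q Z hw R L G cn W _ T hN hH hZQ a6 co
    (tbn B k0 a6 v0 (by linarith) (Nat.cast_nonneg _) hm tb) Z Subset.rfl
  have ho := hotn B a6 (((gfb.2.2.2 X s.lab N.κ Q B.k1).2.1 Z hZQ).trans hH.bad)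
    (unitE gfb fibs X PL K A s.lab hH.ari.lab _ Z _ _ C' β _ _ _ _ N.κ B.k1 tot c1 ct)
  have u470 := up B (a := 470) (by norm_num)
  have sq6 : ∀ P ∈ C', (β P : ℝ) ^ 2 ≤ (N.q : ℝ) ^ 6 := fun P hP =>
    (pow_le_pow_left₀ (Nat.cast_nonneg _) (bh P (hs hP)) 2).trans (le_of_eq (by ring))
  have cv := (h5 X PL K s A η Z R G W _ _ _ (N.u ^ 8 * W) ((N.q : ℝ) ^ 61) C' β hH.ari hH.sym
    co.cln.cen co.cln.conc (by rw [le_div_iff₀ (pow_pos u0 _)]; linarith) (by positivity) hZ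
    (fun P hP => hv P (hs hP)) (fun P hP => ⟨c1.b_lo P hP, by
      have b1 : 2 * (N.q : ℝ) ^ 6 ≤ Q.card / (N.q : ℝ) ^ 48 := by
        rw [le_div_iff₀ (by positivity), mul_assoc, ← pow_add]
        exact (gap B (by norm_num) (le_refl 55)).trans (B.qn 55 (by norm_num))
      have b2 : 2 * (β P : ℝ) ^ 2 < P.card := by linarith [sq6 P hP, c1.big P hP]
      exact_mod_cast b2⟩) (by
      have b1 := sum_le_card_nsmul C' (fun P => 8 * (β P : ℝ) ^ 2) (8 * (N.q : ℝ) ^ 6)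
        fun P hP => by linarith [sq6 P hP]
      rw [nsmul_eq_mul] at b1
      have b2 := mul_le_mul_of_nonneg_right hm (show 0 ≤ 8 * (N.q : ℝ) ^ 6 by positivity)
      linarith [gap B (c := 8) (a := 54) (b := 61) (by norm_num) (by norm_num)])).trans
    (crvn B a6 hm)
  have W0 : 0 < W := (mul_pos_iff_of_pos_left (pow_pos u0 470)).1
    (lt_of_lt_of_le (by norm_num) co.cln.cen.eW)
  have e1 := Case1.ed_or (Y := Z) (H := fun _ _ => True)
    (H₁ := fun x y => ((hb s Z (N.u ^ 8 * W) x y).card : ℝ) ≤ (N.q : ℝ) ^ 61)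
    (H₂ := fun x y => (N.q : ℝ) ^ 61 < (hb s Z (N.u ^ 8 * W) x y).card) fun x y _ => le_or_gt _ _
  have e2 := Case1.ed_or (Y := Z) (H := fun x y => (N.q : ℝ) ^ 61 < (hb s Z (N.u ^ 8 * W) x y).card)
    (H₁ := fun x y => N.u ^ 20 / 3 * W ≤ del s R x y)
    (H₂ := fun x y => (N.q : ℝ) ^ 61 < (hb s Z (N.u ^ 8 * W) x y).card ∧
      del s R x y + 48 * (N.u ^ 8 * W) + 27 * N.u ^ 470 * W < W) fun x y k =>
    (le_or_gt _ _).imp_right fun d => ⟨k, by
      linarith [mul_le_mul_of_nonneg_right u20 W0.le, mul_le_mul_of_nonneg_right u470 W0.le,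
        mul_le_mul_of_nonneg_right (up B (a := 8) (by norm_num)) W0.le]⟩
  have e3 := mul_le_mul_of_nonneg_right u20 (sq_nonneg (Z.card : ℝ))
  have e4 : (2 : ℝ) ≤ Z.card := by
    have b1 := mul_le_mul_of_nonneg_left (B.qn 2 (by norm_num)) (pow_pos u0 4).le
    have b2 := mul_le_mul_of_nonneg_right (B.uq 4 (by norm_num)) q0.le
    linarith [B.q1]
  nlinarith [ed_all Z]

end

open Case1 in
theorem case0 (h2 : COA) (h3 : FT) (h4 : SML) : CASE0 := by
  classical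
  intro N X PL K _ _ _ s A η Q V β hN hH hV hv c1
  have B := nb hN hH.big
  have n0 := n_pos B
  have q0 := q_pos B
  have u0 := B.u0
  have u1 := B.u1
  have a0 := mul_le_mul_of_nonneg_right u1 n0.le
  have vn : (V.card : ℝ) ≤ Q.card := Nat.cast_le.2 (card_le_card hV)
  have a3 := mul_le_mul_of_nonneg_right (up B (a := 3) (by norm_num)) n0.le
  obtain ⟨Z, hZ, a4, hw, R, L, G, cn, W, T, co⟩ := h2 N X PL K s A η Q _ hN hH hV (by linarith)
  have a5 : (1 - 2 * N.u) * Q.card ≤ Z.card := by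
    have := mul_le_mul_of_nonneg_left vn u0.le
    linarith
  have a7 : (Q.card : ℝ) ≤ 2 * Z.card := by linarith
  have a6 : N.u ^ 4 * Q.card ≤ Z.card := by
    linarith [mul_le_mul_of_nonneg_right (up B (a := 4) (by norm_num)) n0.le]
  have hZQ := hZ.trans hV
  have zn : (Z.card : ℝ) ≤ Q.card := Nat.cast_le.2 (card_le_card hZQ)
  have z0 : (0 : ℝ) < Z.card := by linarith
  have qz : ∀ m ≤ 3999, (N.q : ℝ) ^ m < Z.card := fun m hm => by
    have := (gap B (c := 4) (by norm_num) (le_refl (m + 1))).trans (B.qn (m + 1) (by omega))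
    linarith [pow_pos q0 m]
  have u20 := up B (a := 20) (by norm_num)
  have ct := cnq (gen all_rare all_same) X PL K s A η Q _ Z N.q ∅ β R G W (N.u ^ 470)
    (Q.card / (N.q : ℝ) ^ 90) (N.u ^ 20 / 3) (N.u ^ 11) hH.ari hZ hV ⟨c1, by simp, by simp⟩
    co.cln.cen co.cln.conc (by positivity) (by linarith) (by positivity)
    (by linarith [mul_le_mul_of_nonneg_right (up B (a := 2) (by norm_num)) (pow_pos u0 20).le,
      pow_pos u0 20])
    (by linarith [mul_le_mul_of_nonneg_right (up B (a := 10) (by norm_num)) (pow_pos u0 460).le,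
      pow_pos u0 460])
    B.q1 (B.qn 400 (by norm_num)) (div_mul_cancel₀ _ (by positivity)).le
    (by linarith [mul_le_mul_of_nonneg_right B.u1 (mul_pos (pow_pos u0 20) q0).le,
      B.uq 21 (by norm_num)])
    (by rw [← pow_mul]; exact B.uq _ (by norm_num))
  have k0 : 0 ≤ N.k := by linarith [hN.k_lo]
  have pin : ∀ y ∈ Z, ∀ z ∈ Z, y ≠ z → ((Z.filter fun x => s.lab x y = s.lab x z).card : ℝ) ≤ N.k :=
    fun y hy z hz e => le_trans (Nat.cast_le.2 (card_le_card (filter_subset_filter _ hZQ)))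
      (hH.pin y (hZQ hy) z (hZQ hz) e)
  have tb := (h3 X PL K A s.lab Z (fun y z => N.u ^ 20 / 3 * W ≤ del s R y z) N.k k0 hH.ari.lab pin).1
  have g := ct.gen
  simp only [notMem_empty, false_and, exists_false, not_false_iff, and_true] at g
  have sm := h4 N X PL K s A η Q Z hw R L G cn W _ T hN hH hZQ a6 co
    (tbn B (v := 0) (m := 0) k0 a6 le_rfl (by linarith) le_rfl (by positivity)
      ((tb.trans (mul_le_mul_of_nonneg_left g k0)).trans (by
        have : 0 ≤ N.k * (Q.card : ℝ) ^ 2 / (N.q : ℝ) ^ 2 := by positivity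
        rw [← mul_div_assoc]
        ring_nf at this ⊢
        linarith)))
  have ns : Q.card / (N.q : ℝ) ^ 90 ≤ Z.card := by
    rw [div_le_iff₀ (by positivity)]
    have : (2 : ℝ) ≤ (N.q : ℝ) ^ 90 := by simpa using gap B (c := 2) (a := 0) (by norm_num) (by norm_num)
    nlinarith
  obtain ⟨rq, hr⟩ := rq_ex co.good Z (one_le_pow₀ B.q2) (qz 50 (by norm_num))
  refine ⟨Z, hZQ, by linarith [mul_pos u0 n0], R, L, G, rq, cn, W, _, hH.ari, hH.eta_lo,
    (mul_le_mul_of_nonneg_left zn hH.eta_lo).trans hH.eta, hH.big.trans a7, co.cln.cen,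
    B.pw _ _ (by norm_num), co.cln.L_lo, co.cln.L_sum, co.R_lo, co.R_hi, co.G_eq, co.cn_in, co.mass,
    hr.mem, hr.inn, hr.min, fun b hb u v f hf => ?_, pin,
    alS X PL s hw Z R L G rq cn W _ T N.u N.q co u0 u1 (B.uq _ (by norm_num))
      (qz 100 (by norm_num)).le ns hr sm,
    bigS X PL s hw Z R L G cn W _ T N.u co u0 u1 ((B.uq 1000 (by norm_num)).trans
      (mul_le_mul_of_nonneg_left (by simpa using (qz 1 (by norm_num)).le) (pow_pos u0 _).le)) ns⟩
  refine le_trans (Nat.cast_le.2 (card_le_card (filter_subset_filter _ ?_)))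
    ((c1.free0 b hb u v f hf).trans ?_)
  · simpa using hZ
  · have e : 2 * ((N.q ^ 3 : ℕ) : ℝ) * (Q.card / (N.q : ℝ) ^ 48) = 2 * Q.card / (N.q : ℝ) ^ 45 := by
      push_cast
      field_simp
    rw [e]
    exact div_le_div_of_nonneg_right (by linarith) (by positivity)

theorem crs (h1 : CLS3) (h2 : CASE1) (h3 : CASE0) : CRS := by
  intro N X PL K _ _ _ s A η Q hN hH
  have B := nb hN hH.big
  have q2 : (2 : ℝ) ≤ N.q := le_trans (by norm_num) B.q1
  obtain ⟨C, β, c1, c2, c3, c4⟩ := h1 X PL K A hH.ari.U_inj hH.ari.V_inj Q (N.q ^ 3)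
    (Q.card / (N.q : ℝ) ^ 48) (by
      rw [le_div_iff₀ (by positivity)]
      refine le_trans ?_ (B.qn 49 (by norm_num))
      rw [pow_succ' _ 48]
      exact mul_le_mul_of_nonneg_right q2 (by positivity))
  have a1 := h2 N X PL K s A η Q C β hN hH c1.sub c2 c4
  refine h3 N X PL K s A η Q _ β hN hH sdiff_subset ?_ c3
  have a2 : ((Q \ C.biUnion id).card : ℝ) + (C.biUnion id).card = Q.card := by
    exact_mod_cast card_sdiff_add_card_eq_card (biUnion_subset.2 c1.sub)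
  linarith

theorem stepg (hP : PHI) (hC : CRS) (hM : MOD) (h0 : ST0) (hL : LEV) (hJ : JMP) (hO : LOS) :
    STEP := by
  intro N X PL K _ _ _ s A η Q hN hQ
  obtain ⟨Z, hZ, hc, R, L, G, rq, cn, W, ε, hF⟩ := hC N X PL K s A η Q hN hQ
  obtain ⟨ι, _, F, Kt, Om, Cl, Gh, hA⟩ := hM N X PL K s A η Z R L G rq cn W ε hN hF
  have u0 := hN.u_pos
  have u1 := hN.u_le_one
  have u2 : N.u ≤ 1 / 100 := hN.u_le.trans (by norm_num)
  have zq : Z.card ≤ Q.card := card_le_card hZ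
  have z0 : (0 : ℝ) ≤ Z.card := Nat.cast_nonneg _
  have q0 : (0 : ℝ) ≤ Q.card := Nat.cast_nonneg _
  have hpot : Pot N s.lab Z := by
    refine ⟨hF.big, (Nat.cast_le.2 zq).trans hQ.small, ?_, fun S hS => hQ.pl S (hS.trans hZ),
      fun S hS h => hQ.ih S (hS.trans hZ) (h.trans (Nat.pow_le_pow_left zq _))⟩
    refine (((hP X s.lab N.κ Q hN.one_le_ka).1 Z hZ).trans hQ.bad).trans ?_
    have h1 : ((1 - 3 * N.u) * Q.card) ^ 2 ≤ (Z.card : ℝ) ^ 2 :=
      pow_le_pow_left₀ (mul_nonneg (by linarith) q0) hc 2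
    have h2 : 1 ≤ (1 + 8 * N.u) * (1 - 3 * N.u) ^ 2 := by nlinarith [mul_pos u0 u0]
    have h3 : (Q.card : ℝ) ^ 2 ≤ (1 + 8 * N.u) * (Z.card : ℝ) ^ 2 :=
      calc (Q.card : ℝ) ^ 2 ≤ (1 + 8 * N.u) * (1 - 3 * N.u) ^ 2 * (Q.card : ℝ) ^ 2 :=
            le_mul_of_one_le_left (sq_nonneg _) h2
        _ = (1 + 8 * N.u) * ((1 - 3 * N.u) * Q.card) ^ 2 := by ring
        _ ≤ _ := mul_le_mul_of_nonneg_left h1 (by linarith)
    calc N.ψ * (Q.card : ℝ) ^ 2 ≤ N.ψ * ((1 + 8 * N.u) * (Z.card : ℝ) ^ 2) :=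
          mul_le_mul_of_nonneg_left h3 hN.psi_pos.le
      _ = _ := by ring
  have W0 : 0 < W := lt_of_lt_of_le one_pos hA.W_lo
  have L0 : 0 ≤ N.L := by
    by_contra k
    have := mul_neg_of_pos_of_neg (pow_pos u0 100000) (not_le.1 k)
    linarith [hN.uL]
  have key : ∀ i ≤ N.I, ∃ Y Wb, (Z.card : ℝ) ≤ Y.card + i * (N.u ^ 50 * Z.card) ∧
      St N F Z Y W Kt Om Gh (N.u ^ (8 * i) * (100 * W)) (N.es i) Wb := by
    intro i
    induction i with
    | zero =>
      intro _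
      refine ⟨Z, 0, by simp, ?_⟩
      rw [hN.es_zero, mul_zero, pow_zero, one_mul]
      exact h0 N X ι F s.lab Z W Kt η Om Cl Gh hN hA hpot
    | succ i ih =>
      intro hi
      obtain ⟨Y, Wb, hY, hS⟩ := ih (by omega)
      have i1 : ((i : ℝ) + 1) * N.u ≤ 1 :=
        (mul_le_mul_of_nonneg_right (by exact_mod_cast hi) u0.le).trans hN.I_u
      have i2 : ((i : ℝ) + 1) * N.u ^ 50 ≤ N.u := by
        have a1 : N.u ^ 49 ≤ N.u := pow_le_of_le_one u0.le u1 (by norm_num)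
        calc ((i : ℝ) + 1) * N.u ^ 50 = ((i : ℝ) + 1) * N.u * N.u ^ 49 := by ring
          _ ≤ 1 * N.u ^ 49 := mul_le_mul_of_nonneg_right i1 (by positivity)
          _ ≤ N.u := by rw [one_mul]; exact a1
      have e : N.u ^ 8 * (N.u ^ (8 * i) * (100 * W)) = N.u ^ (8 * (i + 1)) * (100 * W) := by ring
      obtain ⟨Y', _, hY', Wb', hS'⟩ := hL N X ι F s.lab Z Y W Kt η Om Cl Gh _ _ (N.es (i + 1)) Wb
        hN hA hpot hS (by nlinarith [mul_le_mul_of_nonneg_right i2 z0]) (by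
          rw [e]
          have a1 : N.u ^ (8 * N.I) ≤ N.u ^ (8 * (i + 1)) :=
            pow_le_pow_of_le_one u0.le u1 (by omega)
          have a2 : 1 ≤ 100 * N.u ^ (8 * (i + 1)) * N.L ^ 5 := hN.I_lo.trans (by gcongr)
          calc W = 1 * W := (one_mul _).symm
            _ ≤ 100 * N.u ^ (8 * (i + 1)) * N.L ^ 5 * W := mul_le_mul_of_nonneg_right a2 W0.le
            _ = _ := by ring)
        (hN.es_pos i hi) (hN.es_k _ hi) (hN.es_q i hi) (hN.es_step i hi)
        (hJ N X ι F s.lab Z Y W Kt η Om Cl Gh _ _ Wb hN hA hpot hS)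
      rw [e] at hS'
      exact ⟨Y', Wb', by push_cast; linarith, hS'⟩
  obtain ⟨Y, Wb, _, hS⟩ := key N.I le_rfl
  refine hO N X ι F s.lab Z Y W Kt η Om Cl Gh _ _ Wb hN hA hpot hS ?_
    (hJ N X ι F s.lab Z Y W Kt η Om Cl Gh _ _ Wb hN hA hpot hS)
  calc N.u ^ (8 * N.I) * (100 * W) * N.L ^ 4 = 100 * N.u ^ (8 * N.I) * N.L ^ 4 * W := by ring
    _ ≤ 1 * W := mul_le_mul_of_nonneg_right hN.I_hi W0.le
    _ = W := one_mul _

theorem ind (hM : PHM) (hI : MP_6c3157_co.PQ.IND) (hS : STEP) : IND := by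
  classical
  obtain ⟨a, b, c, a0, b0, c1, hI⟩ := hI
  refine ⟨a, b, c, a0, b0, c1, fun N i X PL K _ _ _ s A η Q hR hA η0 ηL hy hQ hk => ?_⟩
  have hN := hR.good N.ψ (by linarith [hR.pos]) le_rfl
  have u0 : 0 < N.u := hN.u_pos
  have p0 : 0 < N.ψ := hN.psi_pos
  have pu : N.ψ ≤ N.u := hN.psi_le.trans (pow_le_of_le_one u0.le hN.u_le_one (by norm_num))
  have s2 : 2 ≤ N.s := hN.two_le_s
  have s4 : 4 ≤ N.s ^ 2 := by nlinarith
  have pl : ∀ S : Finset X, (S.card : ℝ) ≤ N.s ^ 2 → N.u * Pr S ≤ Phi s.lab N.κ S := by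
    intro S hs
    have h := hI X PL K s A η N.κ (N.s ^ 2) hA η0
      ((mul_le_mul_of_nonneg_left hR.sL η0).trans ηL) (by linarith) hR.ka S hs
    rcases Nat.eq_zero_or_pos S.card with h0 | h0
    · rw [card_eq_zero.1 h0]
      simp [Pr, Phi]
    · refine le_trans (mul_le_mul_of_nonneg_right (hR.u_ph.trans ?_) (pr_nonneg S)) h
      exact (hM.1 a _ _ a0 (by exact_mod_cast h0) hs).2.1
  have g1 : 1 ≤ 1 + 100 * N.u := by linarith
  have key : ∀ l ≤ i, ∀ S ⊆ Q, Real.log S.card ≤ (20 / 19) ^ l * Real.log (N.s ^ 2) →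
      N.ψ / (1 + 100 * N.u) ^ l * Pr S ≤ Phi s.lab N.κ S := by
    have small : ∀ l, ∀ S : Finset X, (S.card : ℝ) ≤ N.s ^ 2 →
        N.ψ / (1 + 100 * N.u) ^ l * Pr S ≤ Phi s.lab N.κ S := fun l S hs =>
      le_trans (mul_le_mul_of_nonneg_right
        ((div_le_self p0.le (one_le_pow₀ g1)).trans pu) (pr_nonneg S)) (pl S hs)
    intro l
    induction l with
    | zero =>
      intro _ S _ hs
      refine small 0 S ?_
      by_contra k
      rw [not_le] at k
      have := Real.log_lt_log (by linarith) k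
      rw [pow_zero, one_mul] at hs
      linarith
    | succ l ih =>
      intro hl S hSQ hs
      by_cases k : (S.card : ℝ) ≤ N.s ^ 2
      · exact small _ S k
      rw [not_le] at k
      by_contra hb
      rw [not_le] at hb
      have sq : (S.card : ℝ) ≤ Real.exp N.L := (Nat.cast_le.2 (card_le_card hSQ)).trans hQ
      have w0 : 0 < (1 + 100 * N.u) ^ (l + 1) := by positivity
      have hψ := hR.good (N.ψ / (1 + 100 * N.u) ^ (l + 1))
        (div_le_div_of_nonneg_left p0.le w0 ((pow_le_pow_right₀ g1 hl).trans hR.loss))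
        (div_le_self p0.le (one_le_pow₀ g1))
      refine hS _ X PL K s A η S hψ ⟨hA, η0, (mul_le_mul_of_nonneg_left sq η0).trans ηL, hy,
        fun y h1 z h2 h3 => le_trans ?_ (hk y (hSQ h1) z (hSQ h2) h3), k.le, sq, hb.le.trans ?_,
        fun T _ hT => pl T hT, fun T hT hc => ?_⟩
      · exact Nat.cast_le.2 (card_le_card (filter_subset_filter _ hSQ))
      · refine mul_le_mul_of_nonneg_left ?_ (by positivity)
        unfold Pr
        nlinarith
      · have e : (1 + 100 * N.u) * (N.ψ / (1 + 100 * N.u) ^ (l + 1)) =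
            N.ψ / (1 + 100 * N.u) ^ l := by
          rw [pow_succ]
          field_simp
        show (1 + 100 * N.u) * (N.ψ / (1 + 100 * N.u) ^ (l + 1)) * Pr T ≤ Phi s.lab N.κ T
        rw [e]
        rcases Nat.eq_zero_or_pos T.card with h0 | h0
        · exact small l T (by rw [h0]; push_cast; linarith)
        refine ih (by omega) T (hT.trans hSQ) ?_
        have c1 : (T.card : ℝ) ^ 20 ≤ (S.card : ℝ) ^ 19 := by exact_mod_cast hc
        have c2 := Real.log_le_log (pow_pos (by exact_mod_cast h0) 20) c1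
        rw [Real.log_pow, Real.log_pow] at c2
        rw [pow_succ] at hs
        push_cast at c2
        linarith
  refine le_trans (mul_le_mul_of_nonneg_right ?_ (pr_nonneg Q)) (key i le_rfl Q Subset.rfl ?_)
  · exact div_le_div_of_nonneg_left p0.le (by positivity) hR.loss
  · refine le_trans ?_ hR.steps
    rcases Nat.eq_zero_or_pos Q.card with h0 | h0
    · rw [h0, Nat.cast_zero, Real.log_zero]
      by_contra k
      have := Real.exp_lt_one_iff.2 (not_le.1 k)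
      linarith [hR.sL]
    · exact (Real.log_le_iff_le_exp (by exact_mod_cast h0)).2 hQ

end Pool.Agent.MP_ddf486_co.KV.L
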