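import Mathlib.FieldTheory.IsSepClosed
import Mathlib.Algebra.Ring.IsFormallyReal
import Mathlib.Analysis.Complex.Polynomial.Basic
import Mathlib.Analysis.CStarAlgebra.Classes
import Mathlib.Data.Finset.Functor
import Pool.Agent.MP_6c3157_co.GK

-- ======== part 0: formerly Pool.Agent.MP_6c3157_co.Rudnev
section MrgPart0

/-!
Point-plane incidences away from rich lines, up to a factor `m^ε`.
-/

set_option maxSynthPendingDepth 3

namespace Pool.Agent.MP_6c3157_co.KB

open Finset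
open scoped Classical

/-- The bilinear graph with coefficients `β` lies in the zero set of `f`. -/
def SubB (β : Fin 4 → ℝ) (f : MvPolynomial (Fin 3) ℝ) : Prop :=
  ∀ a b : ℝ, MvPolynomial.eval ![a, β 0 + β 1 * a + β 2 * b + β 3 * (a * b), a + b] f = 0

open MvPolynomial in
lemma subB_card {f : MvPolynomial (Fin 3) ℝ} (hf : f ≠ 0) (T : Finset (Fin 4 → ℝ))
    (hT : ∀ β ∈ T, SubB β f) : T.card ≤ f.totalDegree := by
  let g : Option ((Fin 4 → ℝ) × (Fin 4 → ℝ)) → MvPolynomial (Fin 3) ℝ := fun o =>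
    match o with
    | none => f
    | some p => C (p.1 0 - p.2 0) + C (p.1 1 - p.2 1) * X 0 + C (p.1 2 - p.2 2) * (X 2 - X 0) +
        C (p.1 3 - p.2 3) * (X 0 * (X 2 - X 0))
  obtain ⟨y, hy⟩ := exists_avoid (insertNone T.offDiag) g (by
    intro o ho
    cases o with
    | none => exact exists_eval_ne hf
    | some p =>
      have hne : p.1 ≠ p.2 := (Finset.mem_offDiag.1 (by simpa using ho)).2.2
      by_contra hcon
      push Not at hcon
      have h0 := hcon ![0, 0, 0]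
      have h1 := hcon ![1, 0, 1]
      have h2 := hcon ![0, 0, 1]
      have h3 := hcon ![1, 0, 2]
      simp [g] at h0 h1 h2 h3
      apply hne
      funext k
      fin_cases k <;> simp <;> linarith)
  obtain ⟨H, hHd, hH⟩ := exists_line_poly ![y 0, 0, y 2] ![0, 1, 0] f le_rfl
  have hH' : ∀ t, H.eval t = MvPolynomial.eval ![y 0, t, y 2] f := by
    intro t
    rw [hH]
    congr 2
    funext i; fin_cases i <;> simp
  have hH0 : H ≠ 0 := by
    rintro rfl
    have h1 := hy none (by simp)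
    have h2 := hH' (y 1)
    have : ![y 0, y 1, y 2] = y := by funext i; fin_cases i <;> simp
    rw [this] at h2
    exact h1 (by simpa [g] using h2.symm)
  have hinj : Set.InjOn (fun β : Fin 4 → ℝ =>
      β 0 + β 1 * y 0 + β 2 * (y 2 - y 0) + β 3 * (y 0 * (y 2 - y 0))) T := by
    intro p hp q hq h
    by_contra hne
    have := hy (some (p, q)) (by simpa using ⟨hp, hq, hne⟩)
    apply this
    simp only [g, map_add, map_mul, map_sub, MvPolynomial.eval_C, MvPolynomial.eval_X]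
    dsimp only at h
    linarith
  rw [← Finset.card_image_of_injOn hinj]
  refine (card_le_of_roots hH0 _ fun t ht => ?_).trans hHd
  obtain ⟨p, hp, rfl⟩ := Finset.mem_image.1 ht
  rw [hH']
  have := hT p hp (y 0) (y 2 - y 0)
  rwa [add_sub_cancel] at this

/-- Lines of the first kind. -/
def lnA (b u v : ℝ) : Ln := ![-b, u - v * b, 1, v]

/-- Lines of the second kind. -/
def lnB (a w z : ℝ) : Ln := ![a, w - z * a, 0, z]

section
variable {α β : Type*} (A : Finset α) (B : Finset β) (b u v : α → ℝ) (a w z : β → ℝ)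

lemma surface_part (hb : ∀ i ∈ A, ∀ i' ∈ A, b i = b i' → i = i')
    (ha : ∀ j ∈ B, ∀ j' ∈ B, a j = a j' → j = j') (G : Finset (α × β)) (hG : G ⊆ A ×ˢ B)
    (hinc : ∀ g ∈ G, u g.1 + v g.1 * a g.2 = w g.2 + z g.2 * b g.1) (K : ℝ) (hK : 0 ≤ K)
    (hnf : ∀ g ∈ G, ∀ γ : Fin 4 → ℝ, w g.2 = γ 0 + γ 1 * a g.2 → z g.2 = γ 2 + γ 3 * a g.2 →
      u g.1 = γ 0 + γ 2 * b g.1 → v g.1 = γ 1 + γ 3 * b g.1 →
      ∀ W ⊆ A, (∀ i ∈ W, u i = γ 0 + γ 2 * b i ∧ v i = γ 1 + γ 3 * b i) → (W.card : ℝ) ≤ K)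
    {f : MvPolynomial (Fin 3) ℝ} (hf : f ≠ 0) {D : ℕ} (hD : f.totalDegree ≤ D)
    (hB : ∀ j ∈ B, Sub (lnB (a j) (w j) (z j)) f) :
    (G.card : ℝ) ≤ D * (K * B.card) + (B.card + A.card * Real.sqrt (D * B.card)) := by
  let In : α × β → (Fin 4 → ℝ) → Prop := fun g γ => SubB γ f ∧
    w g.2 = γ 0 + γ 1 * a g.2 ∧ z g.2 = γ 2 + γ 3 * a g.2 ∧
      u g.1 = γ 0 + γ 2 * b g.1 ∧ v g.1 = γ 1 + γ 3 * b g.1
  have h1 : ((G.filter fun g => ∃ γ, In g γ).card : ℝ) ≤ D * (K * B.card) := by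
    set G1 := G.filter fun g => ∃ γ, In g γ with hG1
    have : ∀ g ∈ G1, ∃ γ, In g γ := fun g hg => (Finset.mem_filter.1 hg).2
    choose! γ hγ using this
    have hc : ((G1.image γ).card : ℝ) ≤ D := by
      refine Nat.cast_le.2 ((subB_card hf _ fun x hx => ?_).trans hD)
      obtain ⟨g, hg, rfl⟩ := Finset.mem_image.1 hx
      exact (hγ g hg).1
    refine (card_le_fib G1 γ (G1.image γ) (fun g hg => Finset.mem_image_of_mem _ hg)
      (K * B.card) fun x _ W hW hx => ?_).trans (by gcongr)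
    rcases W.eq_empty_or_nonempty with rfl | ⟨g0, hg0⟩
    · simp only [Finset.card_empty, Nat.cast_zero]; positivity
    rw [mul_comm]
    have hWG : W ⊆ G := hW.trans (Finset.filter_subset _ _)
    refine card_le_fib W Prod.snd B (fun g hg => (Finset.mem_product.1 (hG (hWG hg))).2) K
      fun j _ V hV hj => ?_
    obtain ⟨-, e1, e2, e3, e4⟩ := hγ g0 (hW hg0)
    have := hnf g0 (hWG hg0) (γ g0) e1 e2 e3 e4 (V.image Prod.fst) (fun i hi => by
      obtain ⟨g, hg, rfl⟩ := Finset.mem_image.1 hi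
      exact (Finset.mem_product.1 (hG (hWG (hV hg)))).1) (fun i hi => by
      obtain ⟨g, hg, rfl⟩ := Finset.mem_image.1 hi
      rw [hx g0 hg0, ← hx g (hV hg)]
      exact (hγ g (hW (hV hg))).2.2.2)
    rwa [Finset.card_image_of_injOn] at this
    intro g hg g' hg' h
    exact Prod.ext h ((hj g hg).trans (hj g' hg').symm)
  have h2 : ((G.filter fun g => ¬ ∃ γ, In g γ).card : ℝ) ≤
      B.card + A.card * Real.sqrt (D * B.card) := by
    refine kst A B _ ((Finset.filter_subset _ _).trans hG) D (by positivity)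
      fun i hi i' hi' hne W hW => ?_
    by_contra hcon
    have hlt : D < W.card := by exact_mod_cast not_le.1 hcon
    have hbb : b i - b i' ≠ 0 := fun h => hne (hb i hi i' hi' (sub_eq_zero.1 h))
    let γ : Fin 4 → ℝ := ![u i - (u i - u i') / (b i - b i') * b i,
      v i - (v i - v i') / (b i - b i') * b i, (u i - u i') / (b i - b i'),
      (v i - v i') / (b i - b i')]
    have hj : ∀ j ∈ W, w j = γ 0 + γ 1 * a j ∧ z j = γ 2 + γ 3 * a j := by
      intro j hj
      have e1 := hinc _ (Finset.mem_filter.1 (hW j hj).1).1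
      have e2 := hinc _ (Finset.mem_filter.1 (hW j hj).2).1
      dsimp only at e1 e2
      have e3 : z j = γ 2 + γ 3 * a j := by
        simp only [γ, Matrix.cons_val]
        field_simp
        linear_combination e2 - e1
      refine ⟨?_, e3⟩
      simp only [γ, Matrix.cons_val] at e3 ⊢
      linear_combination -e1 - b i * e3
    have hWB : ∀ j ∈ W, j ∈ B := fun j hj =>
      (Finset.mem_product.1 (hG (Finset.mem_filter.1 (hW j hj).1).1)).2
    have hs : SubB γ f := by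
      intro a0 b0
      obtain ⟨H, hHd, hH⟩ := exists_line_poly ![0, γ 0 + γ 2 * b0, b0] ![1, γ 1 + γ 3 * b0, 1] f hD
      have hH' : ∀ t, H.eval t =
          MvPolynomial.eval ![t, γ 0 + γ 1 * t + γ 2 * b0 + γ 3 * (t * b0), t + b0] f := by
        intro t
        rw [hH]
        congr 2
        funext k; fin_cases k <;> simp <;> ring
      have hH0 : H = 0 := by
        by_contra h0
        have := card_le_of_roots h0 (W.image a) fun t ht => by
          obtain ⟨j, hjW, rfl⟩ := Finset.mem_image.1 ht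
          rw [hH', ← hB j (hWB j hjW) (a j + b0)]
          congr 2
          funext k
          fin_cases k
          · simp [pt, lnB]
          · simp [pt, lnB, (hj j hjW).1, (hj j hjW).2]; ring
          · simp [pt]
        rw [Finset.card_image_of_injOn fun j hj j' hj' h => ha j (hWB j hj) j' (hWB j' hj') h]
          at this
        omega
      rw [← hH', hH0]; simp
    obtain ⟨j, hjW⟩ : W.Nonempty := Finset.card_pos.1 (by omega)
    refine (Finset.mem_filter.1 (hW j hjW).1).2 ⟨γ, hs, (hj j hjW).1, (hj j hjW).2, ?_, ?_⟩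
    · simp [γ]
    · simp [γ]
  have h4 := card_le_two' G (G.filter fun g => ∃ γ, In g γ) (G.filter fun g => ¬ ∃ γ, In g γ)
    fun x hx => by simp only [Finset.mem_filter.trans (and_iff_right hx)]; tauto
  linarith

end

theorem rudnev_normal {ε : ℝ} (hε : 0 < ε) : ∃ C : ℝ, 0 < C ∧ ∀ {α β : Type} (A : Finset α)
    (B : Finset β) (b u v : α → ℝ) (a w z : β → ℝ),
    (∀ i ∈ A, ∀ i' ∈ A, b i = b i' → i = i') → (∀ j ∈ B, ∀ j' ∈ B, a j = a j' → j = j') →
    ∀ G ⊆ A ×ˢ B, (∀ g ∈ G, u g.1 + v g.1 * a g.2 = w g.2 + z g.2 * b g.1) → ∀ K : ℝ, 0 ≤ K →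
    (∀ g ∈ G, ∀ γ : Fin 4 → ℝ, w g.2 = γ 0 + γ 1 * a g.2 → z g.2 = γ 2 + γ 3 * a g.2 →
      u g.1 = γ 0 + γ 2 * b g.1 → v g.1 = γ 1 + γ 3 * b g.1 →
      ∀ W ⊆ A, (∀ i ∈ W, u i = γ 0 + γ 2 * b i ∧ v i = γ 1 + γ 3 * b i) → (W.card : ℝ) ≤ K) →
    (G.card : ℝ) ≤ C * ((A.card + B.card : ℝ) ^ (3 / 2 + ε) + K * (A.card + B.card)) := by
  obtain ⟨D, hD⟩ := light_bound hε
  set R : ℝ := 2 * (bz D + 1) + 5 with hR
  obtain ⟨K₀, hK₀, hKb⟩ := hD R (by rw [hR]; linarith)
  refine ⟨K₀ + 2 * D + 2 + 2 * Real.sqrt D, by positivity, ?_⟩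
  intro α β A B b u v a w z hb ha G hG hinc K hK hnf
  set m : ℝ := A.card + B.card with hm
  rcases G.eq_empty_or_nonempty with rfl | ⟨g0, hg0⟩
  · simp only [Finset.card_empty, Nat.cast_zero]; positivity
  let φ : α → Ln := fun i => lnA (b i) (u i) (v i)
  let ψ : β → Ln := fun j => lnB (a j) (w j) (z j)
  have hφ : ∀ i ∈ A, ∀ i' ∈ A, ∀ t, pt (φ i) t = pt (φ i') t → i = i' := by
    intro i hi i' hi' t h
    have := (pt_eq_iff.1 h).2.1
    exact hb i hi i' hi' (by simpa [φ, lnA] using this)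
  have hψ : ∀ j ∈ B, ∀ j' ∈ B, ∀ t, pt (ψ j) t = pt (ψ j') t → j = j' := by
    intro j hj j' hj' t h
    have := (pt_eq_iff.1 h).2.1
    exact ha j hj j' hj' (by simpa [ψ, lnB] using this)
  set L := A.image φ ∪ B.image ψ with hL
  have hLm : (L.card : ℝ) ≤ m := by
    rw [hm]
    exact_mod_cast (Finset.card_union_le _ _).trans
      (add_le_add Finset.card_image_le Finset.card_image_le)
  have hmemA : ∀ g ∈ G, g.1 ∈ A := fun g hg => (Finset.mem_product.1 (hG hg)).1
  have hmemB : ∀ g ∈ G, g.2 ∈ B := fun g hg => (Finset.mem_product.1 (hG hg)).2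
  have hφL : ∀ i ∈ A, φ i ∈ L := fun i hi =>
    Finset.mem_union_left _ (Finset.mem_image_of_mem _ hi)
  have hψL : ∀ j ∈ B, ψ j ∈ L := fun j hj =>
    Finset.mem_union_right _ (Finset.mem_image_of_mem _ hj)
  have hL1 : (1 : ℝ) ≤ L.card := by
    exact_mod_cast Finset.card_pos.2 ⟨_, hφL _ (hmemA g0 hg0)⟩
  have hm1 : 1 ≤ m := hL1.trans hLm
  have hb0 : (0 : ℝ) ≤ bz D := by positivity
  let F := L.powerset.filter fun S => R * L.card ≤ (S.card : ℝ) ^ 2 ∧
    ∃ f : MvPolynomial (Fin 3) ℝ, Irreducible f ∧ f.totalDegree ≤ D ∧ S = inS L f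
  have hF : ∑ S ∈ F, (S.card : ℝ) ≤ 2 * L.card := heavy_sum L F (bz D) hb0
    (fun S hS => Finset.mem_powerset.1 (Finset.mem_filter.1 hS).1)
    (fun S hS => le_trans (by nlinarith) (Finset.mem_filter.1 hS).2.1)
    (fun S hS T hT hne W hW => by
      obtain ⟨f, hf, hfD, rfl⟩ := (Finset.mem_filter.1 hS).2.2
      obtain ⟨g, hg, hgD, rfl⟩ := (Finset.mem_filter.1 hT).2.2
      exact_mod_cast inS_inter L hf hg hfD hgD hne W hW)
  have h1 : ((G.filter fun g => Light D R L (φ g.1, ψ g.2)).card : ℝ) ≤ (light D R L).card := by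
    refine Nat.cast_le.2 (Finset.card_le_card_of_injOn (fun g => (φ g.1, ψ g.2))
      (fun g hg => ?_) ?_)
    · obtain ⟨hg, hl⟩ := Finset.mem_filter.1 hg
      exact Finset.mem_coe.2 (Finset.mem_filter.2 ⟨Finset.mem_product.2
        ⟨hφL _ (hmemA g hg), hψL _ (hmemB g hg)⟩, hl⟩)
    · intro g hg g' hg' h
      have hg := (Finset.mem_filter.1 hg).1
      have hg' := (Finset.mem_filter.1 hg').1
      simp only [Prod.mk.injEq] at h
      exact Prod.ext (hφ _ (hmemA g hg) _ (hmemA g' hg') 0 (by rw [h.1]))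
        (hψ _ (hmemB g hg) _ (hmemB g' hg') 0 (by rw [h.2]))
  have h2 : ∀ g ∈ G.filter fun g => ¬ Light D R L (φ g.1, ψ g.2),
      ∃ S ∈ F, g ∈ G.filter fun g => φ g.1 ∈ S ∧ ψ g.2 ∈ S := by
    intro g hg
    obtain ⟨hg, hl⟩ := Finset.mem_filter.1 hg
    by_contra hcon
    apply hl
    refine ⟨fun h => ?_, ⟨a g.2 + b g.1, ?_, ?_⟩, fun f hf hfD s1 s2 => ?_⟩
    · have := congrFun h 2
      simp [φ, ψ, lnA, lnB] at this
    · have := hinc g hg
      simp only [pt_eq_iff, φ, ψ, lnA, lnB, Matrix.cons_val, true_and]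
      constructor
      · ring
      · linear_combination this
    · have : (thru L (pt (φ g.1) (a g.2 + b g.1))).card ≤ 2 := by
        refine le_trans (Finset.card_le_card (t := {φ g.1, ψ g.2}) fun l hl => ?_)
          Finset.card_le_two
        obtain ⟨hl, e⟩ := mem_thru.1 hl
        rcases Finset.mem_union.1 hl with hl | hl
        · obtain ⟨i, hi, rfl⟩ := Finset.mem_image.1 hl
          rw [hφ i hi _ (hmemA g hg) _ e]; simp
        · obtain ⟨j, hj, rfl⟩ := Finset.mem_image.1 hl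
          have := (pt_eq_iff.1 e).2.1
          rw [ha j hj _ (hmemB g hg) (by simpa [φ, ψ, lnA, lnB] using this)]; simp
      have : ((thru L (pt (φ g.1) (a g.2 + b g.1))).card : ℝ) ≤ 2 := by exact_mod_cast this
      refine lt_of_le_of_lt (pow_le_pow_left₀ (by positivity) this 2) ?_
      nlinarith
    · by_contra hh
      exact hcon ⟨inS L f, Finset.mem_filter.2 ⟨Finset.mem_powerset.2 (Finset.filter_subset _ _),
        not_lt.1 hh, f, hf, hfD, rfl⟩, Finset.mem_filter.2 ⟨hg,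
          Finset.mem_filter.2 ⟨hφL _ (hmemA g hg), s1⟩,
          Finset.mem_filter.2 ⟨hψL _ (hmemB g hg), s2⟩⟩⟩
  have h3 : ∀ S ∈ F, ((G.filter fun g => φ g.1 ∈ S ∧ ψ g.2 ∈ S).card : ℝ) ≤
      S.card * (D * K + 1 + Real.sqrt D * Real.sqrt m) := by
    intro S hS
    obtain ⟨hSL, -, f, hf, hfD, hSf⟩ := Finset.mem_filter.1 hS
    have hSm : (S.card : ℝ) ≤ m :=
      le_trans (Nat.cast_le.2 (Finset.card_le_card (Finset.mem_powerset.1 hSL))) hLm
    have := surface_part (A.filter fun i => φ i ∈ S) (B.filter fun j => ψ j ∈ S) b u v a w z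
      (fun i hi i' hi' => hb i (Finset.mem_filter.1 hi).1 i' (Finset.mem_filter.1 hi').1)
      (fun i hi i' hi' => ha i (Finset.mem_filter.1 hi).1 i' (Finset.mem_filter.1 hi').1)
      (G.filter fun g => φ g.1 ∈ S ∧ ψ g.2 ∈ S) (fun g hg => by
        obtain ⟨hg, h1, h2⟩ := Finset.mem_filter.1 hg
        exact Finset.mem_product.2 ⟨Finset.mem_filter.2 ⟨hmemA g hg, h1⟩,
          Finset.mem_filter.2 ⟨hmemB g hg, h2⟩⟩)
      (fun g hg => hinc g (Finset.mem_filter.1 hg).1) K hK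
      (fun g hg γ e1 e2 e3 e4 W hW => hnf g (Finset.mem_filter.1 hg).1 γ e1 e2 e3 e4 W
        (hW.trans (Finset.filter_subset _ _))) hf.ne_zero hfD (fun j hj => by
        have := (Finset.mem_filter.1 hj).2
        rw [hSf] at this
        exact (Finset.mem_filter.1 this).2)
    have hA : ((A.filter fun i => φ i ∈ S).card : ℝ) ≤ S.card :=
      Nat.cast_le.2 (Finset.card_le_card_of_injOn φ (fun i hi => (Finset.mem_filter.1 hi).2)
        fun i hi i' hi' h => hφ i (Finset.mem_filter.1 hi).1 i' (Finset.mem_filter.1 hi').1 0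
          (by rw [h]))
    have hB : ((B.filter fun j => ψ j ∈ S).card : ℝ) ≤ S.card :=
      Nat.cast_le.2 (Finset.card_le_card_of_injOn ψ (fun i hi => (Finset.mem_filter.1 hi).2)
        fun i hi i' hi' h => hψ i (Finset.mem_filter.1 hi).1 i' (Finset.mem_filter.1 hi').1 0
          (by rw [h]))
    have hB' := hB.trans hSm
    calc _ ≤ _ := this
      _ ≤ D * (K * S.card) + (S.card + S.card * Real.sqrt (D * m)) := by gcongr
      _ = _ := by rw [Real.sqrt_mul (by positivity)]; ring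
  have h4 := card_le_two' G (G.filter fun g => Light D R L (φ g.1, ψ g.2))
    (G.filter fun g => ¬ Light D R L (φ g.1, ψ g.2))
    fun x hx => by simp only [Finset.mem_filter.trans (and_iff_right hx)]; tauto
  have h5 := (card_le_sum _ F _ h2).trans (Finset.sum_le_sum h3)
  rw [← Finset.sum_mul] at h5
  set P : ℝ := m ^ (3 / 2 + ε) with hP
  have hP1 : m * Real.sqrt m ≤ P := by
    rw [Real.sqrt_eq_rpow, ← Real.rpow_one_add' (by positivity) (by norm_num)]
    exact Real.rpow_le_rpow_of_exponent_le hm1 (by linarith)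
  have hs1 : 1 ≤ Real.sqrt m := Real.one_le_sqrt.2 hm1
  have hP2 : m ≤ P := le_trans (by nlinarith) hP1
  have h6 : ((light D R L).card : ℝ) ≤ K₀ * P := (hKb L).trans (by
    rw [hP]; gcongr)
  have h7 : (∑ S ∈ F, (S.card : ℝ)) * (D * K + 1 + Real.sqrt D * Real.sqrt m) ≤
      2 * D * (K * m) + 2 * P + 2 * Real.sqrt D * P := by
    calc _ ≤ (2 * m) * (D * K + 1 + Real.sqrt D * Real.sqrt m) := by gcongr; linarith
      _ = 2 * D * (K * m) + 2 * m + 2 * Real.sqrt D * (m * Real.sqrt m) := by ring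
      _ ≤ _ := by gcongr
  have hKm : 0 ≤ K * m := by positivity
  have hP0 : 0 ≤ P := by positivity
  have hsD : 0 ≤ Real.sqrt D := Real.sqrt_nonneg _
  have hD0 : (0 : ℝ) ≤ D := by positivity
  nlinarith [mul_nonneg hK₀.le hKm, mul_nonneg hsD hKm, mul_nonneg hD0 hP0]

open MvPolynomial in
lemma exists_frame {α β : Type*} (A : Finset α) (B : Finset β) (x : α → Fin 4 → ℝ)
    (y : β → Fin 4 → ℝ) (hx0 : ∀ i ∈ A, x i 0 = 0 → x i 1 ≠ 0)
    (hy0 : ∀ j ∈ B, y j 2 = 0 → y j 3 ≠ 0)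
    (hx : ∀ i ∈ A, ∀ i' ∈ A, (∀ k l, x i k * x i' l = x i l * x i' k) → i = i')
    (hy : ∀ j ∈ B, ∀ j' ∈ B, (∀ k l, y j k * y j' l = y j l * y j' k) → j = j') :
    ∃ m : Fin 4 → ℝ, ((∀ i ∈ A, x i 2 + m 0 * x i 0 + m 1 * x i 1 ≠ 0) ∧
      (∀ j ∈ B, y j 0 - m 0 * y j 2 - m 2 * y j 3 ≠ 0)) ∧
      (∀ i ∈ A, ∀ i' ∈ A,
        (x i 3 + m 2 * x i 0 + m 3 * x i 1) * (x i' 2 + m 0 * x i' 0 + m 1 * x i' 1) =
        (x i 2 + m 0 * x i 0 + m 1 * x i 1) * (x i' 3 + m 2 * x i' 0 + m 3 * x i' 1) → i = i') ∧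
      (∀ j ∈ B, ∀ j' ∈ B,
        (y j 1 - m 1 * y j 2 - m 3 * y j 3) * (y j' 0 - m 0 * y j' 2 - m 2 * y j' 3) =
        (y j 0 - m 0 * y j 2 - m 2 * y j 3) * (y j' 1 - m 1 * y j' 2 - m 3 * y j' 3) → j = j') := by
  refine Gen.ex (Gen.and (Gen.and (Gen.all A fun i hi => ?_) (Gen.all B fun j hj => ?_))
    (Gen.and (Gen.all A fun i hi => Gen.all A fun i' hi' => ?_)
      (Gen.all B fun j hj => Gen.all B fun j' hj' => ?_)))
  · refine Gen.of_poly (C (x i 2) + X 0 * C (x i 0) + X 1 * C (x i 1)) (fun h => ?_)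
      fun m hm => by simpa using hm
    have h0 := h ![0, 0, 0, 0]
    have h1 := h ![1, 0, 0, 0]
    have h2 := h ![0, 1, 0, 0]
    simp at h0 h1 h2
    exact hx0 i hi (by linarith) (by linarith)
  · refine Gen.of_poly (C (y j 0) - X 0 * C (y j 2) - X 2 * C (y j 3)) (fun h => ?_)
      fun m hm => by simpa using hm
    have h0 := h ![0, 0, 0, 0]
    have h1 := h ![1, 0, 0, 0]
    have h2 := h ![0, 0, 1, 0]
    simp at h0 h1 h2
    exact hy0 j hj (by linarith) (by linarith)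
  · by_cases e : i = i'
    · exact Gen.of_all fun _ _ => e
    refine Gen.of_poly ((C (x i 3) + X 2 * C (x i 0) + X 3 * C (x i 1)) *
      (C (x i' 2) + X 0 * C (x i' 0) + X 1 * C (x i' 1)) -
      (C (x i 2) + X 0 * C (x i 0) + X 1 * C (x i 1)) *
      (C (x i' 3) + X 2 * C (x i' 0) + X 3 * C (x i' 1))) (fun h => e (hx i hi i' hi' ?_))
      fun m hm h => absurd (by simpa [sub_eq_zero] using h) hm
    have h0 := h ![0, 0, 0, 0]
    have h1 := h ![1, 0, 0, 0]
    have h2 := h ![0, 1, 0, 0]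
    have h3 := h ![0, 0, 1, 0]
    have h4 := h ![0, 0, 0, 1]
    have h5 := h ![1, 0, 0, 1]
    simp at h0 h1 h2 h3 h4 h5
    intro k l
    fin_cases k <;> fin_cases l <;> simp only [Fin.zero_eta, Fin.mk_one, Fin.reduceFinMk] <;>
      linarith
  · by_cases e : j = j'
    · exact Gen.of_all fun _ _ => e
    refine Gen.of_poly ((C (y j 1) - X 1 * C (y j 2) - X 3 * C (y j 3)) *
      (C (y j' 0) - X 0 * C (y j' 2) - X 2 * C (y j' 3)) -
      (C (y j 0) - X 0 * C (y j 2) - X 2 * C (y j 3)) *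
      (C (y j' 1) - X 1 * C (y j' 2) - X 3 * C (y j' 3))) (fun h => e (hy j hj j' hj' ?_))
      fun m hm h => absurd (by simpa [sub_eq_zero] using h) hm
    have h0 := h ![0, 0, 0, 0]
    have h1 := h ![1, 0, 0, 0]
    have h2 := h ![0, 1, 0, 0]
    have h3 := h ![0, 0, 1, 0]
    have h4 := h ![0, 0, 0, 1]
    have h5 := h ![1, 0, 0, 1]
    simp at h0 h1 h2 h3 h4 h5
    intro k l
    fin_cases k <;> fin_cases l <;> simp only [Fin.zero_eta, Fin.mk_one, Fin.reduceFinMk] <;>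
      linarith

/-- The standard pairing on four-space. -/
def dot4 (x y : Fin 4 → ℝ) : ℝ := x 0 * y 0 + x 1 * y 1 + x 2 * y 2 + x 3 * y 3

theorem rudnev {ε : ℝ} (hε : 0 < ε) : ∃ C : ℝ, 0 < C ∧ ∀ {α β : Type} (A : Finset α)
    (B : Finset β) (x : α → Fin 4 → ℝ) (y : β → Fin 4 → ℝ),
    (∀ i ∈ A, x i 0 = 0 → x i 1 ≠ 0) → (∀ j ∈ B, y j 2 = 0 → y j 3 ≠ 0) →
    (∀ i ∈ A, ∀ i' ∈ A, (∀ k l, x i k * x i' l = x i l * x i' k) → i = i') →
    (∀ j ∈ B, ∀ j' ∈ B, (∀ k l, y j k * y j' l = y j l * y j' k) → j = j') →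
    ∀ G ⊆ A ×ˢ B, (∀ g ∈ G, dot4 (x g.1) (y g.2) = 0) → ∀ K : ℝ, 1 ≤ K →
    (∀ g ∈ G, ∀ i' ∈ A, i' ≠ g.1 → dot4 (x i') (y g.2) = 0 → ∀ W ⊆ A,
      (∀ i ∈ W, ∃ s t : ℝ, ∀ k, x i k = s * x g.1 k + t * x i' k) → (W.card : ℝ) ≤ K) →
    (G.card : ℝ) ≤ C * ((A.card + B.card : ℝ) ^ (3 / 2 + ε) + K * (A.card + B.card)) := by
  obtain ⟨C, hC, h⟩ := rudnev_normal hε
  refine ⟨C, hC, ?_⟩
  intro α β A B x y hx0 hy0 hx hy G hG hinc K hK hnf
  obtain ⟨m, ⟨hP, hS⟩, hA, hB⟩ := exists_frame A B x y hx0 hy0 hx hy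
  set P : α → ℝ := fun i => x i 2 + m 0 * x i 0 + m 1 * x i 1 with hPd
  set R : α → ℝ := fun i => x i 3 + m 2 * x i 0 + m 3 * x i 1 with hRd
  set S : β → ℝ := fun j => y j 0 - m 0 * y j 2 - m 2 * y j 3 with hSd
  set T : β → ℝ := fun j => y j 1 - m 1 * y j 2 - m 3 * y j 3 with hTd
  replace hP : ∀ i ∈ A, P i ≠ 0 := hP
  replace hS : ∀ j ∈ B, S j ≠ 0 := hS
  have hdot : ∀ i j, dot4 (x i) (y j) = x i 0 * S j + x i 1 * T j + P i * y j 2 + R i * y j 3 := by
    intro i j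
    simp only [dot4, hPd, hRd, hSd, hTd]
    ring
  have hmemA : ∀ g ∈ G, g.1 ∈ A := fun g hg => (Finset.mem_product.1 (hG hg)).1
  have hmemB : ∀ g ∈ G, g.2 ∈ B := fun g hg => (Finset.mem_product.1 (hG hg)).2
  have hb : ∀ i ∈ A, ∀ i' ∈ A, R i / P i = R i' / P i' → i = i' := by
    intro i hi i' hi' e
    rw [div_eq_div_iff (hP i hi) (hP i' hi')] at e
    exact hA i hi i' hi' (e.trans (mul_comm _ _))
  refine h A B (fun i => R i / P i) (fun i => x i 0 / P i) (fun i => x i 1 / P i)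
    (fun j => T j / S j) (fun j => -y j 2 / S j) (fun j => -y j 3 / S j) hb ?_ G hG ?_ K
    (by linarith) ?_
  · intro j hj j' hj' e
    rw [div_eq_div_iff (hS j hj) (hS j' hj')] at e
    exact hB j hj j' hj' (e.trans (mul_comm _ _))
  · intro g hg
    have e := hinc g hg
    have h1 := hP _ (hmemA g hg)
    have h2 := hS _ (hmemB g hg)
    rw [hdot] at e
    field_simp
    linear_combination e
  · intro g hg γ e1 e2 e3 e4 W hW hWγ
    have h1 := hP _ (hmemA g hg)
    have h2 := hS _ (hmemB g hg)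
    by_cases hW1 : ∀ i ∈ W, i = g.1
    · refine le_trans ?_ hK
      exact_mod_cast Finset.card_le_one.2 fun a ha b hb => (hW1 a ha).trans (hW1 b hb).symm
    push Not at hW1
    obtain ⟨i', hi', hne⟩ := hW1
    have h3 := hP _ (hW hi')
    obtain ⟨e5, e6⟩ := hWγ i' hi'
    have hbb : R i' / P i' - R g.1 / P g.1 ≠ 0 := fun e =>
      hne (hb _ (hW hi') _ (hmemA g hg) (sub_eq_zero.1 e))
    refine hnf g hg i' (hW hi') hne ?_ W hW fun i hi => ?_
    · have : dot4 (x i') (y g.2) = P i' * S g.2 * (x i' 0 / P i' + x i' 1 / P i' * (T g.2 / S g.2)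
          - -y g.2 2 / S g.2 - -y g.2 3 / S g.2 * (R i' / P i')) := by
        rw [hdot]; field_simp; ring
      rw [this, e1, e2, e5, e6]
      ring
    · obtain ⟨e7, e8⟩ := hWγ i hi
      have h4 := hP _ (hW hi)
      set τ := (R i / P i - R g.1 / P g.1) / (R i' / P i' - R g.1 / P g.1) with hτ
      have k3 : R i / P i = (1 - τ) * (R g.1 / P g.1) + τ * (R i' / P i') := by
        have : τ * (R i' / P i' - R g.1 / P g.1) = R i / P i - R g.1 / P g.1 :=
          div_mul_cancel₀ _ hbb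
        linear_combination -this
      have k0 : x i 0 / P i = (1 - τ) * (x g.1 0 / P g.1) + τ * (x i' 0 / P i') := by
        rw [e3, e5, e7, k3]; ring
      have k1 : x i 1 / P i = (1 - τ) * (x g.1 1 / P g.1) + τ * (x i' 1 / P i') := by
        rw [e4, e6, e8, k3]; ring
      set s := P i * (1 - τ) / P g.1 with hs
      set t := P i * τ / P i' with ht
      have q0 : x i 0 = s * x g.1 0 + t * x i' 0 := by
        rw [div_eq_iff h4] at k0
        rw [k0, hs, ht]; field_simp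
      have q1 : x i 1 = s * x g.1 1 + t * x i' 1 := by
        rw [div_eq_iff h4] at k1
        rw [k1, hs, ht]; field_simp
      have q2 : P i = s * P g.1 + t * P i' := by
        rw [hs, ht]; field_simp; ring
      have q3 : R i = s * R g.1 + t * R i' := by
        rw [div_eq_iff h4] at k3
        rw [k3, hs, ht]; field_simp
      refine ⟨s, t, fun k => ?_⟩
      simp only [hPd, hRd] at q2 q3
      fin_cases k <;> simp only [Fin.zero_eta, Fin.mk_one, Fin.reduceFinMk]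
      · exact q0
      · exact q1
      · linear_combination q2 - m 0 * q0 - m 1 * q1
      · linear_combination q3 - m 2 * q0 - m 3 * q1

end Pool.Agent.MP_6c3157_co.KB

end MrgPart0

-- ======== part 1: formerly Pool.Agent.MP_6c3157_co.Bisect
section MrgPart1

/-!
The bisector energy of pairs that lie on no rich circle or line.
-/

set_option maxSynthPendingDepth 3

namespace Pool.Agent.MP_6c3157_co.KB

open Finset Complex ComplexConjugate
open scoped Classical

/-- The point lies on the circle or line with coefficients `γ`. -/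
def OnC (γ : Fin 4 → ℝ) (z : ℂ) : Prop := γ 0 * normSq z + γ 1 * z.re + γ 2 * z.im + γ 3 = 0

/-- The coefficients describe a circle or a line. -/
def Nd (γ : Fin 4 → ℝ) : Prop := ¬ (γ 0 = 0 ∧ γ 1 = 0 ∧ γ 2 = 0)

/-- Distinct points on no circle or line with more than `K` points of `Q`. -/
def Good (Q : Finset ℂ) (K : ℝ) (a b : ℂ) : Prop :=
  a ≠ b ∧ ∀ γ, Nd γ → OnC γ a → OnC γ b → ∀ W ⊆ Q, (∀ z ∈ W, OnC γ z) → (W.card : ℝ) ≤ K

/-- The perpendicular bisector. -/
def bis (a b : ℂ) : Set ℂ := {p | normSq (p - a) = normSq (p - b)}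

lemma normSq_pos' {a b : ℂ} (h : a ≠ b) : 0 < (b.re - a.re) ^ 2 + (b.im - a.im) ^ 2 := by
  have := normSq_pos.2 (sub_ne_zero.2 h.symm)
  rwa [normSq_apply, ← sq, ← sq] at this

lemma bis_rel {a b c d : ℂ} (hcd : c ≠ d) (h : bis a b = bis c d) :
    (d - b) * normSq (b - a) = -(b - a) ^ 2 * conj (c - a) ∧ normSq (a - c) = normSq (b - d) := by
  have h1 : (a + b) / 2 ∈ bis c d := by
    rw [← h]; simp [bis, normSq_apply]; ring
  have h2 : (a + b) / 2 + I * (b - a) ∈ bis c d := by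
    rw [← h]; simp [bis, normSq_apply]; ring
  simp [bis, normSq_apply] at h1 h2
  have hf := normSq_pos' hcd
  have H1 : (b.re - a.re) * (d.im - c.im) - (b.im - a.im) * (d.re - c.re) = 0 := by
    linear_combination (h2 - h1) / 2
  have H2 : (d.re - c.re) * (c.re + d.re - a.re - b.re) +
      (d.im - c.im) * (c.im + d.im - a.im - b.im) = 0 := by linear_combination -h1
  have H3 : (b.re - a.re) * (c.re + d.re - a.re - b.re) +
      (b.im - a.im) * (c.im + d.im - a.im - b.im) = 0 := by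
    apply mul_left_cancel₀ hf.ne'
    linear_combination ((b.re - a.re) * (d.re - c.re) + (b.im - a.im) * (d.im - c.im)) * H2 +
      ((c.re + d.re - a.re - b.re) * (d.im - c.im) -
        (c.im + d.im - a.im - b.im) * (d.re - c.re)) * H1
  refine ⟨Complex.ext ?_ ?_, ?_⟩
  · simp [normSq_apply, sq]
    linear_combination (b.re - a.re) * H3 - (b.im - a.im) * H1
  · simp [normSq_apply, sq]
    linear_combination (b.im - a.im) * H3 + (b.re - a.re) * H1
  · simp [normSq_apply]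
    linear_combination H3 - H2

/-- A square root. -/
noncomputable def rt (x : ℂ) : ℂ := (IsSepClosed.exists_pow_nat_eq x 2).choose

lemma rt_sq (x : ℂ) : rt x ^ 2 = x := (IsSepClosed.exists_pow_nat_eq x 2).choose_spec

lemma normSq_rt (x : ℂ) : normSq (rt x) = Real.sqrt (normSq x) := by
  conv_rhs => rw [← rt_sq x, map_pow, Real.sqrt_sq (normSq_nonneg _)]

lemma bis_dot {a b c d : ℂ} (hab : a ≠ b) (hcd : c ≠ d) (h : bis a b = bis c d) :
    (conj (rt (c - a)) * conj (rt (d - b)) * (b - a)).re = 0 := by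
  obtain ⟨h1, -⟩ := bis_rel hcd h
  set ω := conj (rt (c - a)) * conj (rt (d - b)) * (b - a) with hω
  have hn : (normSq (b - a) : ℂ) ≠ 0 := by
    exact_mod_cast (normSq_pos.2 (sub_ne_zero.2 hab.symm)).ne'
  have h2 : ω ^ 2 = -((normSq (b - a) * normSq (c - a) : ℝ) : ℂ) := by
    apply mul_left_cancel₀ hn
    have h3 := congrArg conj h1
    simp only [map_mul, map_neg, map_pow, conj_ofReal, conj_conj] at h3
    rw [hω, mul_pow, mul_pow, ← map_pow, ← map_pow, rt_sq, rt_sq]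
    push_cast
    rw [normSq_eq_conj_mul_self, normSq_eq_conj_mul_self] at *
    linear_combination (conj (c - a) * (b - a) ^ 2) * h3
  have h3 := congrArg re h2
  have h4 := congrArg im h2
  simp only [sq, mul_re, mul_im, neg_re, neg_im, ofReal_re, ofReal_im, neg_zero] at h3 h4
  have h5 : 0 ≤ normSq (b - a) * normSq (c - a) := mul_nonneg (normSq_nonneg _) (normSq_nonneg _)
  by_contra hne
  have : ω.im = 0 := by
    have : ω.re * ω.im = 0 := by linarith
    exact (mul_eq_zero.1 this).resolve_left hne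
  have := mul_self_pos.2 hne
  nlinarith

/-- The point of projective three-space attached to a segment. -/
noncomputable def xv (s : ℂ × ℂ) : Fin 4 → ℝ :=
  ![(rt (s.2 - s.1)).re, (rt (s.2 - s.1)).im, (conj (rt (s.2 - s.1)) * s.1).re,
    (conj (rt (s.2 - s.1)) * s.1).im]

/-- The plane of projective three-space attached to a segment. -/
noncomputable def yv (s : ℂ × ℂ) : Fin 4 → ℝ :=
  ![(conj (rt (s.2 - s.1)) * s.1).re, (conj (rt (s.2 - s.1)) * s.1).im, -(rt (s.2 - s.1)).re,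
    -(rt (s.2 - s.1)).im]

lemma dot_xy (s t : ℂ × ℂ) : dot4 (xv s) (yv t) =
    (conj (rt (s.2 - s.1)) * conj (rt (t.2 - t.1)) * (t.1 - s.1)).re := by
  simp [dot4, xv, yv]
  ring

lemma seg_eq {s t : ℂ × ℂ} (h0 : rt (s.2 - s.1) ≠ 0)
    (hn : normSq (rt (s.2 - s.1)) = normSq (rt (t.2 - t.1))) (r : ℝ)
    (h1 : rt (t.2 - t.1) = r * rt (s.2 - s.1))
    (h2 : conj (rt (t.2 - t.1)) * t.1 = r * (conj (rt (s.2 - s.1)) * s.1)) : s = t := by
  have hr : (r : ℂ) ^ 2 = 1 := by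
    rw [h1, map_mul, normSq_ofReal] at hn
    have : r * r = 1 := by
      apply mul_right_cancel₀ (normSq_pos.2 h0).ne'
      linarith
    rw [sq]; exact_mod_cast this
  have hr0 : (r : ℂ) ≠ 0 := by rintro h; simp [h] at hr
  have e1 : s.1 = t.1 := by
    rw [h1, map_mul, conj_ofReal, mul_assoc] at h2
    exact (mul_left_cancel₀ (by simpa using h0) (mul_left_cancel₀ hr0 h2)).symm
  have e2 : t.2 - t.1 = s.2 - s.1 := by
    rw [← rt_sq (t.2 - t.1), h1, mul_pow, hr, one_mul, rt_sq]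
  exact Prod.ext e1 (by linear_combination e1 - e2)

lemma par_of_minors {x y : Fin 4 → ℝ} {k l : Fin 4} (h0 : x k = 0 → x l ≠ 0)
    (h : ∀ k l, x k * y l = x l * y k) : ∃ r : ℝ, ∀ i, y i = r * x i := by
  by_cases hk : x k = 0
  · exact ⟨y l / x l, fun i => by have := h0 hk; field_simp; linear_combination h l i⟩
  · exact ⟨y k / x k, fun i => by field_simp; linear_combination h k i⟩

lemma rich_curve {Q : Finset ℂ} {K δ : ℝ} (hδ : 0 < δ) {s s' t : ℂ × ℂ}
    (hs : normSq (rt (s.2 - s.1)) = δ) (hs' : normSq (rt (s'.2 - s'.1)) = δ)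
    (ht : normSq (rt (t.2 - t.1)) = δ) (hg : Good Q K s.1 t.1)
    (d1 : dot4 (xv s) (yv t) = 0) (d2 : dot4 (xv s') (yv t) = 0) (W : Finset (ℂ × ℂ))
    (hW : ∀ i ∈ W, i.1 ∈ Q ∧ normSq (rt (i.2 - i.1)) = δ ∧
      ∃ p q : ℝ, ∀ k, xv i k = p * xv s k + q * xv s' k) : (W.card : ℝ) ≤ K := by
  rw [dot_xy] at d1 d2
  have hW' : ∀ i ∈ W, ∃ p q : ℝ, rt (i.2 - i.1) = p * rt (s.2 - s.1) + q * rt (s'.2 - s'.1) ∧
      conj (rt (i.2 - i.1)) * i.1 =
        p * (conj (rt (s.2 - s.1)) * s.1) + q * (conj (rt (s'.2 - s'.1)) * s'.1) := by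
    intro i hi
    obtain ⟨p, q, h⟩ := (hW i hi).2.2
    have h0 := h 0
    have h1 := h 1
    have h2 := h 2
    have h3 := h 3
    simp only [xv, Matrix.cons_val] at h0 h1 h2 h3
    exact ⟨p, q, Complex.ext (by simpa using h0) (by simpa using h1),
      Complex.ext (by rw [h2]; simp) (by rw [h3]; simp)⟩
  have hsq : ∀ i : ℂ × ℂ, i.2 = i.1 + rt (i.2 - i.1) ^ 2 := fun i => by rw [rt_sq]; ring
  have hnz : ∀ {x : ℂ}, normSq x = δ → x ≠ 0 := fun h h0 => by simp [h0] at h; linarith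
  suffices h : ∃ γ, Nd γ ∧ OnC γ s.1 ∧ OnC γ t.1 ∧ (∀ i ∈ W, OnC γ i.1) ∧
      ∀ i ∈ W, ∀ j ∈ W, i.1 = j.1 → rt (i.2 - i.1) ^ 2 = rt (j.2 - j.1) ^ 2 by
    obtain ⟨γ, hγ, g1, g2, g3, g4⟩ := h
    have := hg.2 γ hγ g1 g2 (W.image Prod.fst) (fun z hz => by
      obtain ⟨i, hi, rfl⟩ := Finset.mem_image.1 hz
      exact (hW i hi).1) (fun z hz => by
      obtain ⟨i, hi, rfl⟩ := Finset.mem_image.1 hz
      exact g3 i hi)
    rwa [Finset.card_image_of_injOn] at this
    intro i hi j hj e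
    exact Prod.ext e (by rw [hsq i, hsq j, g4 i hi j hj e, e])
  set μ := rt (s.2 - s.1) with hμ
  set μ' := rt (s'.2 - s'.1) with hμ'
  set ν := rt (t.2 - t.1) with hν
  have hμ0 : μ ≠ 0 := hnz hs
  have hν0 : ν ≠ 0 := hnz ht
  by_cases hΔ : μ.re * μ'.im - μ.im * μ'.re = 0
  · obtain ⟨κ, hκ⟩ : ∃ κ : ℝ, μ' = κ * μ := by
      refine ⟨(μ.re * μ'.re + μ.im * μ'.im) / δ, ?_⟩
      rw [normSq_apply] at hs
      apply Complex.ext
      · simp only [mul_re, ofReal_re, ofReal_im, zero_mul, sub_zero]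
        field_simp
        linear_combination -μ'.re * hs - μ.im * hΔ
      · simp only [mul_im, ofReal_re, ofReal_im, zero_mul, add_zero]
        field_simp
        linear_combination -μ'.im * hs + μ.re * hΔ
    have hκ0 : κ ≠ 0 := by rintro rfl; exact hnz hs' (by simpa using hκ)
    have d3 : (conj μ * conj ν * (t.1 - s'.1)).re = 0 := by
      rw [hκ, map_mul, conj_ofReal, mul_assoc, mul_assoc, re_ofReal_mul, ← mul_assoc] at d2
      exact (mul_eq_zero.1 d2).resolve_left hκ0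
    have hi : ∀ i ∈ W, (conj μ * conj ν * (i.1 - s.1)).re = 0 ∧ rt (i.2 - i.1) ^ 2 = μ ^ 2 := by
      intro i hi
      obtain ⟨p, q, e1, e2⟩ := hW' i hi
      have hn := (hW i hi).2.1
      have e3 : rt (i.2 - i.1) = ((p + q * κ : ℝ) : ℂ) * μ := by rw [e1, hκ]; push_cast; ring
      have e4 : (p + q * κ) * (p + q * κ) = 1 := by
        rw [e3, map_mul, normSq_ofReal, hs] at hn
        exact mul_right_cancel₀ hδ.ne' (by linarith)
      have e5 : p + q * κ ≠ 0 := by intro h; simp [h] at e4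
      constructor
      · have : ((p + q * κ : ℝ) : ℂ) * (conj μ * conj ν * (i.1 - s.1)) = ((q * κ : ℝ) : ℂ) *
            (conj μ * conj ν * (t.1 - s.1) - conj μ * conj ν * (t.1 - s'.1)) := by
          rw [e3, hκ, map_mul, map_mul, conj_ofReal, conj_ofReal] at e2
          push_cast at e2 ⊢
          linear_combination conj ν * e2
        have h2 := congrArg re this
        rw [re_ofReal_mul, re_ofReal_mul, sub_re, d1, d3, sub_zero, mul_zero] at h2
        exact (mul_eq_zero.1 h2).resolve_left e5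
      · rw [e3, mul_pow, sq ((p + q * κ : ℝ) : ℂ), ← ofReal_mul, e4]; simp
    have hon : ∀ z, (conj μ * conj ν * (z - s.1)).re = 0 →
        OnC ![0, (μ * ν).re, (μ * ν).im, -(conj μ * conj ν * s.1).re] z := by
      intro z hz
      simp [OnC] at hz ⊢
      linear_combination hz
    refine ⟨_, ?_, hon _ (by simp), hon _ d1, fun i h => hon _ (hi i h).1,
      fun i h j h' _ => (hi i h).2.trans (hi j h').2.symm⟩
    rintro ⟨-, h1, h2⟩
    exact mul_ne_zero hμ0 hν0 (Complex.ext h1 h2)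
  · have hden : μ * conj μ' - conj μ * μ' ≠ 0 := by
      intro h
      have := congrArg im h
      simp at this
      exact hΔ (by linarith)
    set A := conj μ * conj μ' * (s.1 - s'.1) / (μ * conj μ' - conj μ * μ') with hA
    set B := (μ * conj μ' * s'.1 - μ' * conj μ * s.1) / (μ * conj μ' - conj μ * μ') with hB
    have a1 : conj μ * (s.1 - B) = A * μ := by rw [hA, hB]; field_simp; ring
    have a2 : conj μ' * (s'.1 - B) = A * μ' := by
      have hA' := div_mul_cancel₀ (conj μ * conj μ' * (s.1 - s'.1)) hden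
      have hB' := div_mul_cancel₀ (μ * conj μ' * s'.1 - μ' * conj μ * s.1) hden
      rw [← hA] at hA'
      rw [← hB] at hB'
      apply mul_left_cancel₀ hden
      linear_combination -conj μ' * hB' - μ' * hA'
    have a3 : conj ν * (t.1 - B) = ν * conj A := by
      set ζ := conj ν * (t.1 - B) - ν * conj A with hζ
      have key : ∀ m x : ℂ, conj m * (x - B) = A * m →
          (conj m * conj ν * (t.1 - x)).re = 0 → m.re * ζ.re + m.im * ζ.im = 0 := by
        intro m x e1 e2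
        have : conj m * conj ν * (t.1 - x) = conj m * ζ + conj (conj ν * A * m) -
            conj ν * A * m := by
          rw [hζ]; simp only [map_mul, conj_conj]; linear_combination -conj ν * e1
        rw [this, sub_re, add_re, conj_re] at e2
        simp at e2
        linarith
      have k1 := key _ _ a1 d1
      have k2 := key _ _ a2 d2
      have z1 : ζ.re = 0 := by
        apply mul_left_cancel₀ hΔ
        linear_combination μ'.im * k1 - μ.im * k2
      have z2 : ζ.im = 0 := by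
        apply mul_left_cancel₀ hΔ
        linear_combination μ.re * k2 - μ'.re * k1
      exact sub_eq_zero.1 (Complex.ext z1 z2 : ζ = 0)
    have a4 : ∀ i ∈ W, conj (rt (i.2 - i.1)) * (i.1 - B) = A * rt (i.2 - i.1) := by
      intro i hi
      obtain ⟨p, q, e1, e2⟩ := hW' i hi
      rw [mul_sub, e2, e1]
      simp only [map_add, map_mul, conj_ofReal]
      linear_combination p * a1 + q * a2
    have hon : ∀ z m A' : ℂ, m ≠ 0 → normSq A' = normSq A → conj m * (z - B) = A' * m →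
        OnC ![1, -2 * B.re, -2 * B.im, normSq B - normSq A] z := by
      intro z m A' hm hA' e
      have := congrArg normSq e
      rw [map_mul, map_mul, normSq_conj, mul_comm, hA'] at this
      have := mul_right_cancel₀ (normSq_pos.2 hm).ne' this
      simp only [OnC, Matrix.cons_val]
      rw [← this]
      simp [normSq_apply]
      ring
    have hA0 : A ≠ 0 := by
      intro h
      rw [h] at a1 a3
      apply hg.1
      have b1 : s.1 - B = 0 := by simpa [hμ0] using a1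
      have b2 : t.1 - B = 0 := by simpa [hν0] using a3
      linear_combination b1 - b2
    refine ⟨_, by simp [Nd], hon _ μ A hμ0 rfl a1,
      hon _ ν (conj A) hν0 (normSq_conj _) (a3.trans (mul_comm _ _)),
      fun i hi => hon _ _ A (hnz (hW i hi).2.1) rfl (a4 i hi), fun i hi j hj e => ?_⟩
    have b1 := a4 i hi
    have b2 := a4 j hj
    have n1 := (hW i hi).2.1
    have n2 := (hW j hj).2.1
    generalize rt (i.2 - i.1) = x at *
    generalize rt (j.2 - j.1) = y at *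
    rw [← e] at b2
    have b3 : x * conj y = y * conj x := by
      apply mul_left_cancel₀ hA0
      linear_combination conj x * b2 - conj y * b1
    have c1 : conj x * x = δ := by rw [← normSq_eq_conj_mul_self, n1]
    have c2 : conj y * y = δ := by rw [← normSq_eq_conj_mul_self, n2]
    have hδ' : (δ : ℂ) ≠ 0 := by exact_mod_cast hδ.ne'
    apply mul_left_cancel₀ hδ'
    linear_combination x * y * b3 - x ^ 2 * c2 + y ^ 2 * c1

/-- Pairs of good pairs with the same bisector. -/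
noncomputable def bQuad (Q : Finset ℂ) (K : ℝ) : Finset ((ℂ × ℂ) × (ℂ × ℂ)) :=
  ((Q ×ˢ Q) ×ˢ (Q ×ˢ Q)).filter fun x =>
    Good Q K x.1.1 x.1.2 ∧ Good Q K x.2.1 x.2.2 ∧ bis x.1.1 x.1.2 = bis x.2.1 x.2.2

theorem bisector_energy {ε : ℝ} (hε : 0 < ε) : ∃ C : ℝ, 0 < C ∧ ∀ (Q : Finset ℂ) (K : ℝ), 1 ≤ K →
    ((bQuad Q K).card : ℝ) ≤ C * ((Q.card : ℝ) ^ (5 / 2 + ε) + K * (Q.card : ℝ) ^ 2) := by
  obtain ⟨C, hC, hR⟩ := rudnev (ε := ε / 3) (by positivity)
  obtain ⟨K₀, hK₀, hG⟩ := distance_energy (ε := 2 * ε / 3) (by positivity)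
  refine ⟨1 + 2 * C + C * (2 ^ (3 / 2 + ε / 3) * Real.sqrt K₀), by positivity, fun Q K hK => ?_⟩
  rcases Q.eq_empty_or_nonempty with rfl | hQ
  · simp only [bQuad, Finset.empty_product, Finset.filter_empty, Finset.card_empty, Nat.cast_zero]
    positivity
  set q : ℝ := (Q.card : ℝ) with hq
  have hq1 : 1 ≤ q := by rw [hq]; exact_mod_cast hQ.card_pos
  have hmem : ∀ x ∈ bQuad Q K, ((x.1.1 ∈ Q ∧ x.1.2 ∈ Q) ∧ x.2.1 ∈ Q ∧ x.2.2 ∈ Q) ∧
      Good Q K x.1.1 x.1.2 ∧ Good Q K x.2.1 x.2.2 ∧ bis x.1.1 x.1.2 = bis x.2.1 x.2.2 :=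
    fun x hx => by simpa [bQuad] using hx
  let Δ := (Q ×ˢ Q).image fun s => normSq (s.1 - s.2)
  let S : ℝ → Finset (ℂ × ℂ) := fun δ => (Q ×ˢ Q).filter fun s => normSq (s.1 - s.2) = δ
  let E : ℝ → Finset ((ℂ × ℂ) × (ℂ × ℂ)) := fun δ =>
    (bQuad Q K).filter fun x => x.1.1 ≠ x.2.1 ∧ normSq (x.1.1 - x.2.1) = δ
  have h1 : (((bQuad Q K).filter fun x => x.1.1 = x.2.1).card : ℝ) ≤ q ^ 2 := by
    rw [hq, sq, ← Nat.cast_mul, ← Finset.card_product]
    refine Nat.cast_le.2 (Finset.card_le_card_of_injOn Prod.fst (fun x hx => ?_) ?_)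
    · exact Finset.mem_product.2 (hmem x (Finset.mem_filter.1 hx).1).1.1
    · have key : ∀ x ∈ (bQuad Q K).filter fun x => x.1.1 = x.2.1, x.2 = x.1 := by
        intro x hx
        obtain ⟨hx, e⟩ := Finset.mem_filter.1 hx
        obtain ⟨-, -, g2, g3⟩ := hmem x hx
        have := (bis_rel g2.1 g3).2
        rw [e, sub_self, map_zero, eq_comm, normSq_eq_zero, sub_eq_zero] at this
        exact Prod.ext e.symm this.symm
      intro x hx y hy e
      exact Prod.ext e (by rw [key x hx, key y hy, e])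
  have h2 : ∀ δ, ((E δ).card : ℝ) ≤ C * ((2 * (S δ).card : ℝ) ^ (3 / 2 + ε / 3) +
      K * (2 * (S δ).card)) := by
    intro δ
    rcases (E δ).eq_empty_or_nonempty with h0 | ⟨x0, hx0⟩
    · rw [h0]; simp only [Finset.card_empty, Nat.cast_zero]; positivity
    have hδ : 0 < δ := by
      obtain ⟨-, e1, e2⟩ := Finset.mem_filter.1 hx0
      rw [← e2]; exact normSq_pos.2 (sub_ne_zero.2 e1)
    have hδ' : 0 < Real.sqrt δ := Real.sqrt_pos.2 hδ
    have hS : ∀ s ∈ S δ, normSq (rt (s.2 - s.1)) = Real.sqrt δ := by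
      intro s hs
      rw [normSq_rt, ← (Finset.mem_filter.1 hs).2, ← normSq_neg, neg_sub]
    have hS0 : ∀ s ∈ S δ, rt (s.2 - s.1) ≠ 0 := fun s hs h0 => by
      have := hS s hs
      rw [h0, map_zero] at this
      linarith
    have := hR (S δ) (S δ) xv yv ?_ ?_ ?_ ?_
      ((E δ).image fun x => ((x.1.1, x.2.1), (x.1.2, x.2.2))) ?_ ?_ K hK ?_
    · rw [Finset.card_image_of_injective, ← two_mul] at this
      · exact this
      · intro x y h
        simp only [Prod.mk.injEq] at h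
        exact Prod.ext (Prod.ext h.1.1 h.2.1) (Prod.ext h.1.2 h.2.2)
    · exact fun s hs e1 e2 => hS0 s hs (Complex.ext e1 e2)
    · exact fun s hs e1 e2 => hS0 s hs (Complex.ext (neg_eq_zero.1 e1) (neg_eq_zero.1 e2))
    · intro s hs t ht h
      obtain ⟨r, hr⟩ := par_of_minors (k := 0) (l := 1)
        (fun e1 e2 => hS0 s hs (Complex.ext e1 e2)) h
      have h0 := hr 0
      have h1 := hr 1
      have h2 := hr 2
      have h3 := hr 3
      simp only [xv, Matrix.cons_val] at h0 h1 h2 h3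
      exact seg_eq (hS0 s hs) ((hS s hs).trans (hS t ht).symm) r
        (Complex.ext (by simpa using h0) (by simpa using h1))
        (Complex.ext (by rw [h2, re_ofReal_mul]) (by rw [h3, im_ofReal_mul]))
    · intro s hs t ht h
      obtain ⟨r, hr⟩ := par_of_minors (k := 2) (l := 3)
        (fun e1 e2 => hS0 s hs (Complex.ext (neg_eq_zero.1 e1) (neg_eq_zero.1 e2))) h
      have h0 := hr 0
      have h1 := hr 1
      have h2 := hr 2
      have h3 := hr 3
      simp only [yv, Matrix.cons_val] at h0 h1 h2 h3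
      exact seg_eq (hS0 s hs) ((hS s hs).trans (hS t ht).symm) r
        (Complex.ext (by simpa using h2) (by simpa using h3))
        (Complex.ext (by rw [h0, re_ofReal_mul]) (by rw [h1, im_ofReal_mul]))
    · intro g hg
      obtain ⟨x, hx, rfl⟩ := Finset.mem_image.1 hg
      obtain ⟨hx, -, e⟩ := Finset.mem_filter.1 hx
      obtain ⟨⟨⟨m1, m2⟩, m3, m4⟩, -, g2, g3⟩ := hmem x hx
      exact Finset.mem_product.2 ⟨Finset.mem_filter.2 ⟨Finset.mem_product.2 ⟨m1, m3⟩, e⟩,
        Finset.mem_filter.2 ⟨Finset.mem_product.2 ⟨m2, m4⟩, (bis_rel g2.1 g3).2.symm.trans e⟩⟩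
    · intro g hg
      obtain ⟨x, hx, rfl⟩ := Finset.mem_image.1 hg
      obtain ⟨-, g1, g2, g3⟩ := hmem x (Finset.mem_filter.1 hx).1
      rw [dot_xy]
      exact bis_dot g1.1 g2.1 g3
    · intro g hg s' hs' _ hd W hW hW'
      obtain ⟨x, hx, rfl⟩ := Finset.mem_image.1 hg
      obtain ⟨hx, -, e⟩ := Finset.mem_filter.1 hx
      obtain ⟨⟨⟨m1, m2⟩, m3, m4⟩, g1, g2, g3⟩ := hmem x hx
      refine rich_curve hδ' (s := (x.1.1, x.2.1)) (t := (x.1.2, x.2.2))
        (hS _ (Finset.mem_filter.2 ⟨Finset.mem_product.2 ⟨m1, m3⟩, e⟩)) (hS s' hs')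
        (hS _ (Finset.mem_filter.2 ⟨Finset.mem_product.2 ⟨m2, m4⟩,
          (bis_rel g2.1 g3).2.symm.trans e⟩)) g1 ?_ hd W fun i hi => ⟨?_, hS i (hW hi), hW' i hi⟩
      · rw [dot_xy]
        exact bis_dot g1.1 g2.1 g3
      · exact (Finset.mem_product.1 (Finset.mem_filter.1 (hW hi)).1).1
  have h3 : ∑ δ ∈ Δ, ((S δ).card : ℝ) = q ^ 2 := by
    rw [hq, sq, ← Nat.cast_mul, ← Finset.card_product,
      Finset.card_eq_sum_card_image (fun s : ℂ × ℂ => normSq (s.1 - s.2))]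
    push_cast
    rfl
  have h4 : ∑ δ ∈ Δ, ((S δ).card : ℝ) ^ 2 ≤ (dQuad Q).card := by
    have : (Δ.sigma fun δ => S δ ×ˢ S δ).card ≤ (dQuad Q).card := by
      refine Finset.card_le_card_of_injOn (fun x => x.2) (fun x hx => ?_) ?_
      · obtain ⟨e1, e2⟩ := Finset.mem_product.1 (Finset.mem_sigma.1 hx).2
        obtain ⟨e1, e3⟩ := Finset.mem_filter.1 e1
        obtain ⟨e2, e4⟩ := Finset.mem_filter.1 e2
        exact Finset.mem_coe.2 (Finset.mem_filter.2 ⟨Finset.mem_product.2 ⟨e1, e2⟩,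
          e3.trans e4.symm⟩)
      · rintro ⟨δ, x⟩ hx ⟨δ', y⟩ hy e
        dsimp only at e
        subst e
        have e1 := (Finset.mem_filter.1 (Finset.mem_product.1 (Finset.mem_sigma.1 hx).2).1).2
        have e2 := (Finset.mem_filter.1 (Finset.mem_product.1 (Finset.mem_sigma.1 hy).2).1).2
        dsimp only at e1 e2
        rw [← e1, ← e2]
    rw [Finset.card_sigma] at this
    simp only [Finset.card_product, ← sq] at this
    exact_mod_cast this
  have h5 : ∑ δ ∈ Δ, Real.sqrt (S δ).card * (S δ).card ≤ q * (Real.sqrt K₀ * q ^ (3 / 2 + ε / 3)) := by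
    refine le_of_sq_le_sq ((Finset.sum_mul_sq_le_sq_mul_sq _ _ _).trans ?_) (by positivity)
    rw [Finset.sum_congr rfl fun δ _ => Real.sq_sqrt (by positivity), h3, mul_pow, mul_pow,
      Real.sq_sqrt hK₀.le, ← Real.rpow_natCast (q ^ (3 / 2 + ε / 3)),
      ← Real.rpow_mul (by positivity),
      show (3 / 2 + ε / 3) * ((2 : ℕ) : ℝ) = 3 + 2 * ε / 3 by push_cast; ring]
    gcongr
    exact h4.trans (hG Q)
  have h6 : ∀ δ ∈ Δ, (2 * (S δ).card : ℝ) ^ (3 / 2 + ε / 3) ≤
      2 ^ (3 / 2 + ε / 3) * q ^ (2 * ε / 3) * (Real.sqrt (S δ).card * (S δ).card) := by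
    intro δ hδ
    have hm : ((S δ).card : ℝ) ≤ q ^ 2 := by
      rw [← h3]
      exact Finset.single_le_sum (f := fun δ => ((S δ).card : ℝ)) (fun _ _ => by positivity) hδ
    rw [Real.mul_rpow (by norm_num) (by positivity), mul_assoc]
    gcongr
    rw [Real.rpow_add' (by positivity) (by positivity), mul_comm]
    refine mul_le_mul ?_ (le_of_eq ?_) (by positivity) (by positivity)
    · calc _ ≤ (q ^ 2) ^ (ε / 3) := Real.rpow_le_rpow (by positivity) hm (by positivity)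
        _ = _ := by
          rw [← Real.rpow_natCast, ← Real.rpow_mul (by positivity)]
          congr 1; push_cast; ring
    · rw [Real.sqrt_eq_rpow, ← Real.rpow_add_one' (by positivity) (by norm_num)]
      norm_num
  have h7 := card_le_sum ((bQuad Q K).filter fun x => ¬ x.1.1 = x.2.1) Δ E fun x hx => by
    obtain ⟨hx, e⟩ := Finset.mem_filter.1 hx
    obtain ⟨⟨⟨m1, -⟩, m3, -⟩, -⟩ := hmem x hx
    exact ⟨_, Finset.mem_image.2 ⟨(x.1.1, x.2.1), Finset.mem_product.2 ⟨m1, m3⟩, rfl⟩,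
      Finset.mem_filter.2 ⟨hx, e, rfl⟩⟩
  have h8 := card_le_two' (bQuad Q K) ((bQuad Q K).filter fun x => x.1.1 = x.2.1)
    ((bQuad Q K).filter fun x => ¬ x.1.1 = x.2.1)
    fun x hx => by simp only [Finset.mem_filter.trans (and_iff_right hx)]; tauto
  set P : ℝ := q ^ (5 / 2 + ε) with hP
  have h9 : ∑ δ ∈ Δ, ((E δ).card : ℝ) ≤
      C * (2 ^ (3 / 2 + ε / 3) * Real.sqrt K₀) * P + 2 * C * (K * q ^ 2) := by
    calc _ ≤ ∑ δ ∈ Δ, C * (2 ^ (3 / 2 + ε / 3) * q ^ (2 * ε / 3) *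
          (Real.sqrt (S δ).card * (S δ).card) + K * (2 * (S δ).card)) :=
          Finset.sum_le_sum fun δ hδ => (h2 δ).trans (by gcongr; exact h6 δ hδ)
      _ = C * (2 ^ (3 / 2 + ε / 3) * q ^ (2 * ε / 3) *
          (∑ δ ∈ Δ, Real.sqrt (S δ).card * (S δ).card) + K * (2 * q ^ 2)) := by
          rw [← h3, ← Finset.mul_sum, Finset.sum_add_distrib, ← Finset.mul_sum, ← Finset.mul_sum,
            ← Finset.mul_sum]
      _ ≤ C * (2 ^ (3 / 2 + ε / 3) * q ^ (2 * ε / 3) *
          (q * (Real.sqrt K₀ * q ^ (3 / 2 + ε / 3))) + K * (2 * q ^ 2)) := by gcongr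
      _ = _ := by
          have : P = q ^ (2 * ε / 3) * q * q ^ (3 / 2 + ε / 3) := by
            rw [hP, ← Real.rpow_add_one (by positivity), ← Real.rpow_add (by positivity)]
            congr 1; ring
          rw [this]; ring
  have hP0 : 0 ≤ P := by positivity
  have hKq : q ^ 2 ≤ K * q ^ 2 := le_mul_of_one_le_left (by positivity) hK
  have hKq0 : 0 ≤ K * q ^ 2 := by positivity
  have hc : 0 ≤ C * (2 ^ (3 / 2 + ε / 3) * Real.sqrt K₀) := by positivity
  nlinarith [mul_nonneg hc hKq0, mul_nonneg hC.le hP0]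

end Pool.Agent.MP_6c3157_co.KB

end MrgPart1

-- ======== part 2: formerly Pool.Agent.MP_6c3157_co.Plane
section MrgPart2

/-!
Circles, lines and arcs in a partitioned plane.
-/

set_option maxSynthPendingDepth 3

namespace Pool.Agent.MP_6c3157_co.KB

open Finset Complex
open scoped Classical

lemma par3 {g0 g1 g2 n0 n1 n2 : ℝ} (hn : ¬ (n0 = 0 ∧ n1 = 0 ∧ n2 = 0))
    (h1 : g0 * n1 = g1 * n0) (h2 : g0 * n2 = g2 * n0) (h3 : g1 * n2 = g2 * n1) :
    ∃ s, g0 = s * n0 ∧ g1 = s * n1 ∧ g2 = s * n2 := by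
  have hN : 0 < n0 ^ 2 + n1 ^ 2 + n2 ^ 2 := by
    by_contra h
    apply hn
    refine ⟨?_, ?_, ?_⟩ <;> nlinarith [sq_nonneg n0, sq_nonneg n1, sq_nonneg n2]
  refine ⟨(g0 * n0 + g1 * n1 + g2 * n2) / (n0 ^ 2 + n1 ^ 2 + n2 ^ 2), ?_, ?_, ?_⟩
  · field_simp; linear_combination n1 * h1 + n2 * h2
  · field_simp; linear_combination -n0 * h1 + n2 * h3
  · field_simp; linear_combination -n0 * h2 - n1 * h3

/-- Three points determine a circle or line. -/
lemma curve_three {γ η : Fin 4 → ℝ} (hγ : Nd γ) (hη : Nd η) {a b c : ℂ} (hab : a ≠ b)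
    (hac : a ≠ c) (hbc : b ≠ c) (ga : OnC γ a) (gb : OnC γ b) (gc : OnC γ c) (ea : OnC η a)
    (eb : OnC η b) (ec : OnC η c) : ∃ r : ℝ, r ≠ 0 ∧ ∀ k, η k = r * γ k := by
  obtain ⟨u, hu⟩ : ∃ u, b = a + u := ⟨b - a, by ring⟩
  obtain ⟨v, hv⟩ : ∃ v, c = a + v := ⟨c - a, by ring⟩
  subst hu hv
  have hu : 0 < u.re ^ 2 + u.im ^ 2 := by simpa using normSq_pos' hab
  have hv : 0 < v.re ^ 2 + v.im ^ 2 := by simpa using normSq_pos' hac
  have huv : 0 < (v.re - u.re) ^ 2 + (v.im - u.im) ^ 2 := by simpa using normSq_pos' hbc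
  have hn : ¬ (u.re * v.im - u.im * v.re = 0 ∧
      u.im * (v.re ^ 2 + v.im ^ 2) - (u.re ^ 2 + u.im ^ 2) * v.im = 0 ∧
      (u.re ^ 2 + u.im ^ 2) * v.re - u.re * (v.re ^ 2 + v.im ^ 2) = 0) := by
    rintro ⟨-, h1, h2⟩
    have e : (u.re ^ 2 + u.im ^ 2) * (v.re ^ 2 + v.im ^ 2) *
        ((u.re ^ 2 + u.im ^ 2) - (v.re ^ 2 + v.im ^ 2)) = 0 := by
      linear_combination ((u.re ^ 2 + u.im ^ 2) * v.re + u.re * (v.re ^ 2 + v.im ^ 2)) * h2 -
        ((u.re ^ 2 + u.im ^ 2) * v.im + u.im * (v.re ^ 2 + v.im ^ 2)) * h1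
    have e2 : v.re ^ 2 + v.im ^ 2 = u.re ^ 2 + u.im ^ 2 := by
      have := (mul_eq_zero.1 e).resolve_left (mul_pos hu hv).ne'
      linarith
    rw [e2] at h1 h2
    have a1 : v.re - u.re = 0 := by
      apply mul_left_cancel₀ hu.ne'; linear_combination h2
    have a2 : v.im - u.im = 0 := by
      apply mul_left_cancel₀ hu.ne'; linear_combination -h1
    rw [a1, a2] at huv
    simp at huv
  have key : ∀ γ : Fin 4 → ℝ, Nd γ → OnC γ a → OnC γ (a + u) → OnC γ (a + v) →
      ∃ s, s ≠ 0 ∧ γ 0 = s * (u.re * v.im - u.im * v.re) ∧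
        γ 1 + 2 * γ 0 * a.re =
          s * (u.im * (v.re ^ 2 + v.im ^ 2) - (u.re ^ 2 + u.im ^ 2) * v.im) ∧
        γ 2 + 2 * γ 0 * a.im =
          s * ((u.re ^ 2 + u.im ^ 2) * v.re - u.re * (v.re ^ 2 + v.im ^ 2)) := by
    intro γ hγ ga gb gc
    simp only [OnC, normSq_apply, add_re, add_im] at ga gb gc
    have b1 : γ 0 * (u.re ^ 2 + u.im ^ 2) + (γ 1 + 2 * γ 0 * a.re) * u.re +
        (γ 2 + 2 * γ 0 * a.im) * u.im = 0 := by linear_combination gb - ga
    have b2 : γ 0 * (v.re ^ 2 + v.im ^ 2) + (γ 1 + 2 * γ 0 * a.re) * v.re +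
        (γ 2 + 2 * γ 0 * a.im) * v.im = 0 := by linear_combination gc - ga
    obtain ⟨s, s0, s1, s2⟩ := par3 (g0 := γ 0) (g1 := γ 1 + 2 * γ 0 * a.re)
      (g2 := γ 2 + 2 * γ 0 * a.im) hn (by linear_combination u.im * b2 - v.im * b1)
      (by linear_combination v.re * b1 - u.re * b2)
      (by linear_combination (u.re ^ 2 + u.im ^ 2) * b2 - (v.re ^ 2 + v.im ^ 2) * b1)
    refine ⟨s, ?_, s0, s1, s2⟩
    rintro rfl
    rw [zero_mul] at s0 s1 s2
    rw [s0] at s1 s2
    exact hγ ⟨s0, by linarith, by linarith⟩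
  obtain ⟨s, hs, s0, s1, s2⟩ := key γ hγ ga gb gc
  obtain ⟨s', hs', t0, t1, t2⟩ := key η hη ea eb ec
  have r0 : η 0 = s' / s * γ 0 := by rw [s0, t0]; field_simp
  have r1 : η 1 = s' / s * γ 1 := by
    have : η 1 + 2 * η 0 * a.re = s' / s * (γ 1 + 2 * γ 0 * a.re) := by rw [s1, t1]; field_simp
    linear_combination this - 2 * a.re * r0
  have r2 : η 2 = s' / s * γ 2 := by
    have : η 2 + 2 * η 0 * a.im = s' / s * (γ 2 + 2 * γ 0 * a.im) := by rw [s2, t2]; field_simp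
    linear_combination this - 2 * a.im * r0
  refine ⟨s' / s, div_ne_zero hs' hs, fun k => ?_⟩
  fin_cases k <;> simp only [Fin.zero_eta, Fin.mk_one, Fin.reduceFinMk]
  · exact r0
  · exact r1
  · exact r2
  · unfold OnC at ga ea
    linear_combination ea - s' / s * ga - normSq a * r0 - a.re * r1 - a.im * r2

lemma onC_of_prop {γ η : Fin 4 → ℝ} {r : ℝ} (hr : r ≠ 0) (h : ∀ k, η k = r * γ k) (z : ℂ) :
    OnC η z ↔ OnC γ z := by
  unfold OnC
  rw [h, h, h, h, show r * γ 0 * normSq z + r * γ 1 * z.re + r * γ 2 * z.im + r * γ 3 =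
    r * (γ 0 * normSq z + γ 1 * z.re + γ 2 * z.im + γ 3) by ring, mul_eq_zero]
  simp [hr]

lemma curve_card {γ η : Fin 4 → ℝ} (hγ : Nd γ) (hη : Nd η)
    (h : ¬ ∃ r : ℝ, r ≠ 0 ∧ ∀ k, η k = r * γ k) (W : Finset ℂ)
    (hW : ∀ z ∈ W, OnC γ z ∧ OnC η z) : W.card ≤ 2 := by
  by_contra hc
  obtain ⟨a, b, c, ha, hb, hc, hab, hac, hbc⟩ := Finset.two_lt_card_iff.1 (not_le.1 hc)
  exact h (curve_three hγ hη hab hac hbc (hW a ha).1 (hW b hb).1 (hW c hc).1 (hW a ha).2
    (hW b hb).2 (hW c hc).2)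

end Pool.Agent.MP_6c3157_co.KB

end MrgPart2
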