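import Pool.Agent.MP_ddf486_co.KL.A

/-! Project KL: block C, first half. -/

set_option autoImplicit false
set_option linter.unusedSectionVars false

noncomputable section

namespace Pool.Agent.MP_ddf486_co.KV.L

open Finset Pool.Agent.MP_6c3157_co.PD Pool.Agent.MP_6c3157_co.PQ

section

namespace Crad

variable {N : Nb} {X PL K : Type} [DecidableEq X] [Fintype PL] [Field K] {s : Sys X PL}
  {A : Ari X PL K} {η : ℝ} {Z : Finset X} {R L : PL → ℝ} {G rq : PL → X → ℝ} {cn : PL → X}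
  {W ε : ℝ}

theorem place (h : Fm N s A η Z R L G rq cn W ε) (T : Finset X) (x : X) (p : PL) (r a : ℝ)
    (ha : a ≤ (((s.c p).ball T x r).erase x).card) :
    a * max 0 (Real.log (R p / r)) ≤ ∑ z ∈ T.erase x, max 0 (dep s R p x z) := by
  classical
  have hR := h.cen.R_pos p
  have k1 : ∀ z ∈ ((s.c p).ball T x r).erase x,
      max 0 (Real.log (R p / r)) ≤ max 0 (dep s R p x z) := by
    intro z hz
    rw [mem_erase] at hz
    have hd := (h.good.good p).d_pos hz.1.symm
    have hr : (s.c p).d x z ≤ r := (mem_filter.1 hz.2).2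
    refine max_le_max le_rfl (Real.log_le_log (div_pos hR (hd.trans_le hr)) ?_)
    exact div_le_div_of_nonneg_left hR.le hd hr
  have k2 := card_nsmul_le_sum _ _ _ k1
  rw [nsmul_eq_mul] at k2
  refine ((mul_le_mul_of_nonneg_right ha (le_max_left _ _)).trans k2).trans ?_
  exact sum_le_sum_of_subset_of_nonneg (erase_subset_erase _ (filter_subset _ _))
    fun _ _ _ => le_max_left _ _

theorem one (h : Fm N s A η Z R L G rq cn W ε) {x : X} (hx : x ∈ Z) {T : Finset X} (hT : T ⊆ Z)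
    (r : PL → ℝ) (a : ℝ) (ha : ∀ p, a ≤ (((s.c p).ball T x (r p)).erase x).card) :
    a * ∑ p, s.m p * max 0 (Real.log (R p / r p)) ≤ 2 * W * T.card := by
  have hW := h.W_big
  have he := h.eW_le
  calc a * ∑ p, s.m p * max 0 (Real.log (R p / r p))
      = ∑ p, s.m p * (a * max 0 (Real.log (R p / r p))) := by
        rw [mul_sum]; exact sum_congr rfl fun p _ => mul_left_comm _ _ _
    _ ≤ ∑ p, s.m p * ∑ z ∈ T.erase x, max 0 (dep s R p x z) :=
        sum_le_sum fun p _ => mul_le_mul_of_nonneg_left (place h T x p _ a (ha p)) (h.good.m_lo p)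
    _ = ∑ z ∈ T.erase x, ∑ p, s.m p * max 0 (dep s R p x z) := by
        rw [sum_comm]; exact sum_congr rfl fun p _ => mul_sum _ _ _
    _ ≤ ∑ _z ∈ T.erase x, 2 * W := by
        refine sum_le_sum fun z hz => ?_
        rw [mem_erase] at hz
        have := (depS X PL s Z R G W ε h.good h.cen x hx z (hT hz.2) hz.1.symm).2.2.1
        linarith
    _ ≤ 2 * W * T.card := by
        rw [sum_const, nsmul_eq_mul, mul_comm]
        have : ((T.erase x).card : ℝ) ≤ T.card := by exact_mod_cast card_erase_le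
        gcongr

end Crad

theorem crad : CRAD := by
  intro N X PL K _ _ _ s A η Z R L G rq cn W ε hN h x hx
  refine ⟨fun T hT r a ha _ => Crad.one h hx hT r a (fun p => by convert ha p), ?_⟩
  have q1 : (2 : ℝ) ≤ N.q := le_trans (by norm_num) hN.q_big
  have q2 : (2 : ℝ) ≤ (N.q : ℝ) ^ 50 := q1.trans (le_self_pow₀ (by linarith) (by norm_num))
  have q3 : ((N.q : ℝ) ^ 50) ^ 2 ≤ Z.card := by
    rw [← pow_mul]
    exact (pow_le_pow_right₀ (by linarith) (by norm_num)).trans (h.card_big hN)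
  have k := Crad.one h hx subset_rfl (fun p => rq p x) (Z.card / (2 * (N.q : ℝ) ^ 50)) (by
    intro p
    have h1 := h.rq_in p x hx
    have h2 : (((s.c p).ball Z x (rq p x)).card : ℝ) ≤
        (((s.c p).ball Z x (rq p x)).erase x).card + 1 := by
      exact_mod_cast (pred_card_le_card_erase (s := (s.c p).ball Z x (rq p x)) (a := x) |>
        Nat.sub_le_iff_le_add.1)
    generalize (N.q : ℝ) ^ 50 = v at q2 q3 h1 ⊢
    rw [div_le_iff₀ (by linarith)]
    nlinarith)
  unfold lq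
  generalize (N.q : ℝ) ^ 50 = v at q2 q3 k ⊢
  have z0 : (0 : ℝ) < Z.card := by nlinarith
  rw [div_mul_eq_mul_div, div_le_iff₀ (by linarith)] at k
  refine le_of_mul_le_mul_left (k.trans_eq (by ring)) z0

end

section

theorem ctot : CTOT := by
  classical
  intro N X PL K _ _ _ s A η Z R L G rq cn W ε _ h
  have hs := h.good
  have e1 := h.eW_le
  have e2 := h.cen.eW
  refine ⟨fun y _ z _ hyz => ?_, fun y hy z hz hyz => ?_, fun y => ?_, fun y hy => ?_,
    fun y hy z hz hyz => ?_⟩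
  · rw [fam_OA, fam_OB, ← sum_add_distrib, ← sub_zero (∑ p, s.m p * (s.c p).K), ← hs.pf y z hyz,
      ← sum_sub_distrib, ← sum_sub_distrib]
    refine (abs_sum_le_sum_abs _ _).trans (le_trans (sum_le_sum fun p _ => ?_) h.ari.eta_sum)
    rw [← mul_add, ← mul_sub, ← mul_sub, abs_mul, abs_of_nonneg (hs.m_lo p)]
    refine mul_le_mul_of_nonneg_left ?_ (hs.m_lo p)
    have := (hs.good p).c4 y z hyz
    rw [Cells.W_split (bc s Z R L rq p), add_comm] at this
    simpa only [and_comm (b := bc s Z R L rq p _), and_comm (b := ¬bc s Z R L rq p _)] using this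
  · have k : ∀ p, ((s.c p).W fun i => bc s Z R L rq p i ∧ y ∈ i.2 ∧ z ∈ i.2) ≤
        max 0 (dep s R p y z) + 2 * (s.c p).xi := fun p => by
      have hc := hs.good p
      refine ((Cells.W_mono hc fun i hi u => ⟨u.2.1, u.2.2, h.bc_lt hi u.1⟩).trans
        (hc.pair_below hyz (R p))).trans ?_
      rw [mul_div_assoc, Real.log_mul hc.lam_pos.ne'
        (div_pos (h.cen.R_pos p) (hc.d_pos hyz)).ne']
      have a := le_max_left 0 (dep s R p y z)
      have b : Real.log (R p / (s.c p).d y z) ≤ _ := le_max_right 0 (dep s R p y z)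
      have c : max 0 (Real.log (s.c p).lam + Real.log (R p / (s.c p).d y z)) ≤
          max 0 (dep s R p y z) + (s.c p).xi :=
        max_le (by linarith [hc.xi_nonneg]) (by linarith [hc.log_lam])
      linarith [hc.eta_hi]
    have a := hs.sum_le k
    have b := (depS X PL s Z R G W ε hs h.cen y hy z hz hyz).2.2.1
    have c := hs.xi_sum
    simp only [mul_add, sum_add_distrib, mul_left_comm _ (2 : ℝ), ← mul_sum] at a
    rw [fam_OB]
    linarith
  · exact mul_nonneg zero_le_two (hs.sum_nonneg fun p => h.ghp_lo p y)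
  · have a : ∑ p, s.m p * ghp s L G p y ≤ _ := (hs.sum_le fun p => by
      unfold ghp
      split_ifs
      exacts [le_rfl, h.cen.G_lo p y]).trans (h.cen.G_sum y hy)
    unfold Ghf
    linarith
  · exact h.pin y hy z hz hyz

end

section

theorem dga (h : CRAD) : DGA := by
  intro N X PL K _ _ _ s A η Z R L G rq cn W ε hN hF y hy z hz
  have key : ∀ p, ((s.c p).W fun i => ¬ bc s Z R L rq p i ∧ y ∈ i.2 ∧ z ∉ i.2) ≤
      lq R rq p y + ga s L p + G p y + G p z + 6 * (s.c p).xi := fun p => by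
    have hc := hF.good.good p
    have a1 := lq_nonneg R rq p y
    have a2 := hF.ga_pos p
    have a3 := hF.cen.G_lo p y
    have a4 := hF.cen.G_lo p z
    have a5 := hc.xi_nonneg
    by_cases e : y = z
    · rw [Cells.W_zero fun i _ k => k.2.2 (e ▸ k.2.1)]
      positivity
    have d0 := hc.d_pos e
    have r0 := hF.rB_pos p hy
    have b1 := Cells.W_le_add hc
      (φ := fun i => ¬ bc s Z R L rq p i ∧ y ∈ i.2 ∧ z ∉ i.2)
      (ψ := fun i => y ∈ i.2 ∧ rB s R L rq p y ≤ (s.c p).ρ i ∧ (s.c p).ρ i < (s.c p).d y z)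
      (χ := fun i => (s.c p).d y z ≤ (s.c p).ρ i ∧ (∃ a ∈ i.2, (s.c p).d y a ≤ (s.c p).d y z) ∧
        ∃ b, b ∉ i.2 ∧ (s.c p).d y b ≤ (s.c p).d y z) fun i hi k =>
      (lt_or_ge _ _).imp (fun u => ⟨k.2.1, not_lt.1 fun v => k.1 (hF.bc_of_lt hi hy k.2.1 v), u⟩)
        fun u => ⟨u, ⟨y, k.2.1, (hc.d_self y).trans_le d0.le⟩, z, k.2.2, le_rfl⟩
    have b2 := hc.c5 y _ d0
    rcases le_or_gt (rB s R L rq p y) ((s.c p).d y z) with u | u
    · have b3 := hc.c2 y _ _ r0 u
      have b4 := hF.dep_ge p hy hz e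
      rw [Real.log_div d0.ne' r0.ne', hF.log_rB p hy] at b3
      rw [dep, Real.log_div (hF.cen.R_pos p).ne' d0.ne'] at b4
      linarith [hc.log_lam, hc.eta_hi, max_le (le_add_of_nonneg_right a4) (le_add_of_nonneg_left a3)]
    · rw [Cells.W_zero (φ := fun i => y ∈ i.2 ∧ _) fun i _ k => (k.2.1.trans_lt k.2.2).not_gt u] at b1
      linarith
  refine ((fam_W s Z R L rq fun p i => ¬ bc s Z R L rq p i ∧ y ∈ i.2 ∧ z ∉ i.2).trans_le
    (hF.good.sum_le key)).trans ?_
  have c1 := (h N X PL K s A η Z R L G rq cn W ε hN hF y hy).2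
  have c2 := hF.sum_ga
  have c3 := hF.cen.G_sum y hy
  have c4 := hF.cen.G_sum z hz
  have c5 := hF.good.xi_sum
  have c6 := hF.eW_le
  have c7 := hF.W_big
  have c8 : (10 : ℝ) ≤ N.q := le_trans (by norm_num) hN.q_big
  have c9 : W ≤ (N.q : ℝ) ^ 50 * W := le_mul_of_one_le_left (by linarith) (one_le_pow₀ (by linarith))
  have c10 := mul_le_mul_of_nonneg_right c8 (le_trans (by linarith) c9 : 0 ≤ (N.q : ℝ) ^ 50 * W)
  simp only [mul_add, sum_add_distrib, mul_left_comm _ (6 : ℝ), ← mul_sum]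
  rw [pow_succ' _ 50, mul_assoc]
  linarith

end

section

namespace Cclo

variable {N : Nb} {X PL K : Type} [DecidableEq X] [Fintype PL] [Field K] {s : Sys X PL}
  {A : Ari X PL K} {η : ℝ} {Z : Finset X} {R L : PL → ℝ} {G rq : PL → X → ℝ} {cn : PL → X}
  {W ε : ℝ}

theorem small (h : Fm N s A η Z R L G rq cn W ε) (p : PL) (S : Finset X) {y : X} (hy : y ∈ Z)
    {t : ℝ} (ht : t < rq p y) (hS : S ⊆ (s.c p).ball Z y t) :
    (N.q : ℝ) ^ 50 * S.card ≤ Z.card :=
  (mul_le_mul_of_nonneg_left (Nat.cast_le.2 (card_le_card hS))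
    (pow_nonneg (Nat.cast_nonneg _) 50)).trans (h.rq_min p y hy t ht).le

open Classical in
theorem cnt1 (h : Fm N s A η Z R L G rq cn W ε) (p : PL) {x : X} (hx : x ∈ Z) :
    (N.q : ℝ) ^ 50 * (Z.filter fun y => (s.c p).lam * (s.c p).d x y < rq p x).card ≤ Z.card := by
  have hc := h.good.good p
  rcases (Z.filter fun y => (s.c p).lam * (s.c p).d x y < rq p x).eq_empty_or_nonempty with e | e
  · rw [e]; simp
  obtain ⟨y0, h0, hm⟩ := exists_max_image _ (fun y => (s.c p).d x y) e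
  refine small h p _ hx (mem_filter.1 h0).2 fun y hy => Cells.mem_ball.2 ⟨(mem_filter.1 hy).1, ?_⟩
  exact (hm y hy).trans (le_mul_of_one_le_left (hc.d_nonneg _ _) hc.lam_lo)

open Classical in
theorem cnt2 (h : Fm N s A η Z R L G rq cn W ε) (p : PL) (x : X) :
    (N.q : ℝ) ^ 50 * (Z.filter fun y => (s.c p).lam * (s.c p).d x y < rq p y).card ≤ Z.card := by
  have hc := h.good.good p
  rcases (Z.filter fun y => (s.c p).lam * (s.c p).d x y < rq p y).eq_empty_or_nonempty with e | e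
  · rw [e]; simp
  obtain ⟨y0, h0, hm⟩ := exists_max_image _ (fun y => (s.c p).d x y) e
  refine small h p _ (mem_filter.1 h0).1 (mem_filter.1 h0).2 fun y hy =>
    Cells.mem_ball.2 ⟨(mem_filter.1 hy).1, (hc.d_tri y0 x y).trans ?_⟩
  refine mul_le_mul_of_nonneg_left (max_le ?_ (hm y hy)) hc.lam_pos.le
  rw [hc.d_symm]

open Classical in
theorem cnt (h : Fm N s A η Z R L G rq cn W ε) (p : PL) {x : X} (hx : x ∈ Z) :
    (N.q : ℝ) ^ 50 * (Z.filter fun y => near s rq p x y).card ≤ 2 * Z.card := by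
  have h1 := cnt1 h p hx
  have h2 := cnt2 h p x
  have h3 : (Z.filter fun y => near s rq p x y).card ≤
      (Z.filter fun y => (s.c p).lam * (s.c p).d x y < rq p x).card +
      (Z.filter fun y => (s.c p).lam * (s.c p).d x y < rq p y).card := by
    refine le_trans (card_le_card fun y hy => ?_) (card_union_le _ _)
    obtain ⟨y1, y2⟩ := mem_filter.1 hy
    rcases y2 with y2 | y2
    · exact mem_union_left _ (mem_filter.2 ⟨y1, y2⟩)
    · exact mem_union_right _ (mem_filter.2 ⟨y1, y2⟩)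
  have h4 : ((Z.filter fun y => near s rq p x y).card : ℝ) ≤
      (Z.filter fun y => (s.c p).lam * (s.c p).d x y < rq p x).card +
      (Z.filter fun y => (s.c p).lam * (s.c p).d x y < rq p y).card := by exact_mod_cast h3
  have h5 := mul_le_mul_of_nonneg_left h4 (pow_nonneg (Nat.cast_nonneg (α := ℝ) N.q) 50)
  linarith

theorem near_symm (h : Fm N s A η Z R L G rq cn W ε) (p : PL) (x y : X) :
    near s rq p x y ↔ near s rq p y x := by
  unfold near
  rw [(h.good.good p).d_symm y x, or_comm]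

open Classical in
theorem row (h : Fm N s A η Z R L G rq cn W ε) (p : PL) (f : X → ℝ) (hf : ∀ x, 0 ≤ f x) :
    (N.q : ℝ) ^ 50 * ∑ x ∈ Z, ∑ y ∈ Z, (if near s rq p x y then f x else 0) ≤
      2 * Z.card * ∑ x ∈ Z, f x := by
  rw [mul_sum, mul_sum]
  refine sum_le_sum fun x hx => ?_
  rw [← sum_filter, sum_const, nsmul_eq_mul, ← mul_assoc]
  exact mul_le_mul_of_nonneg_right (cnt h p hx) (hf x)

open Classical in
theorem place (h : Fm N s A η Z R L G rq cn W ε) (p : PL) :
    (N.q : ℝ) ^ 50 * ∑ x ∈ Z, ∑ y ∈ Z.erase x, clp s L G rq p x y ≤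
      2 * Z.card * (Z.card * ga s L p + 2 * ∑ x ∈ Z, G (s.bar p) x) := by
  have h1 := row h p (fun x => ga s L p + G (s.bar p) x) fun x =>
    add_nonneg (h.ga_pos p).le (h.cen.G_lo _ _)
  have h2 := row h p (fun x => G (s.bar p) x) fun x => h.cen.G_lo _ _
  have h3 : ∑ x ∈ Z, ∑ y ∈ Z.erase x, clp s L G rq p x y ≤ ∑ x ∈ Z, ∑ y ∈ Z, clp s L G rq p x y :=
    sum_le_sum fun x _ => sum_le_sum_of_subset_of_nonneg (erase_subset _ _)
      fun y _ _ => h.clp_lo p x y
  have h4 : ∑ x ∈ Z, ∑ y ∈ Z, clp s L G rq p x y =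
      ∑ x ∈ Z, ∑ y ∈ Z, (if near s rq p x y then ga s L p + G (s.bar p) x else 0) +
      ∑ x ∈ Z, ∑ y ∈ Z, (if near s rq p x y then G (s.bar p) x else 0) := by
    rw [sum_comm (s := Z) (t := Z) (f := fun x y => if near s rq p x y then G (s.bar p) x else 0),
      ← sum_add_distrib]
    refine sum_congr rfl fun x _ => ?_
    rw [← sum_add_distrib]
    refine sum_congr rfl fun y _ => ?_
    unfold clp
    by_cases k : near s rq p x y
    · rw [if_pos k, if_pos k, if_pos ((near_symm h p x y).1 k)]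
    · rw [if_neg k, if_neg k, if_neg fun k' => k ((near_symm h p x y).2 k'), add_zero]
  have h5 := mul_le_mul_of_nonneg_left (h3.trans_eq h4)
    (pow_nonneg (Nat.cast_nonneg (α := ℝ) N.q) 50)
  rw [sum_add_distrib, sum_const, nsmul_eq_mul] at h1
  rw [mul_add] at h5
  linarith

end Cclo

open L.Cclo in
theorem clo : CLO := by
  intro N X PL K _ _ _ s A η Z R L G rq cn W ε hN h
  have lo : ∀ x y, 0 ≤ Clf s L G rq x y := fun x y =>
    mul_nonneg (by norm_num) (h.good.sum_nonneg fun p => h.clp_lo p x y)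
  refine ⟨lo, ?_⟩
  have e1 : (N.q : ℝ) ^ 50 * ∑ x ∈ Z, ∑ y ∈ Z.erase x, Clf s L G rq x y =
      2 * ∑ p, s.m p * ((N.q : ℝ) ^ 50 * ∑ x ∈ Z, ∑ y ∈ Z.erase x, clp s L G rq p x y) := by
    unfold Clf
    simp only [mul_sum]
    rw [sum_comm (s := univ) (t := Z)]
    refine sum_congr rfl fun x _ => ?_
    rw [sum_comm (s := univ) (t := Z.erase x)]
    exact sum_congr rfl fun y _ => sum_congr rfl fun p _ => by ring
  have e2 := h.good.sum_le fun p => place h p
  have e3 : ∑ p, s.m p * (2 * Z.card * (Z.card * ga s L p + 2 * ∑ x ∈ Z, G (s.bar p) x)) =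
      2 * (Z.card : ℝ) ^ 2 * ∑ p, s.m p * ga s L p +
        4 * Z.card * ∑ x ∈ Z, ∑ p, s.m p * G (s.bar p) x := by
    rw [sum_comm (s := Z) (t := univ), mul_sum, mul_sum, ← sum_add_distrib]
    refine sum_congr rfl fun p _ => ?_
    rw [← mul_sum]
    ring
  have e4 : ∑ x ∈ Z, ∑ p, s.m p * G (s.bar p) x ≤ Z.card * (ε * W) := by
    rw [← nsmul_eq_mul, ← sum_const]
    refine sum_le_sum fun x hx => ?_
    rw [h.good.sum_bar fun p => G p x]
    exact h.cen.G_sum x hx
  have e5 := h.sum_ga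
  have e6 := h.eW_le
  have z0 : (0 : ℝ) ≤ Z.card := Nat.cast_nonneg _
  have e7 := mul_le_mul_of_nonneg_left e5 (show (0 : ℝ) ≤ 2 * (Z.card : ℝ) ^ 2 by positivity)
  have e8 := mul_le_mul_of_nonneg_left e4 (show (0 : ℝ) ≤ 4 * (Z.card : ℝ) by positivity)
  have e9 := mul_le_mul_of_nonneg_left e6 (sq_nonneg (Z.card : ℝ))
  have w0 : 0 ≤ W * (Z.card : ℝ) ^ 2 := mul_nonneg (le_trans (by norm_num) h.W_big) (sq_nonneg _)
  have f1 : (N.q : ℝ) ^ 50 * ∑ x ∈ Z, ∑ y ∈ Z.erase x, Clf s L G rq x y ≤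
      17 * (W * (Z.card : ℝ) ^ 2) := by
    rw [e1]
    nlinarith
  have q1 : (17 : ℝ) ≤ N.q := le_trans (by norm_num) hN.q_big
  have q2 : (17 : ℝ) ≤ (N.q : ℝ) ^ 10 := q1.trans (le_self_pow₀ (by linarith) (by norm_num))
  have s0 : 0 ≤ (N.q : ℝ) ^ 40 * ∑ x ∈ Z, ∑ y ∈ Z.erase x, Clf s L G rq x y :=
    mul_nonneg (by positivity) (sum_nonneg fun x _ => sum_nonneg fun y _ => lo x y)
  rw [show 50 = 10 + 40 from rfl, pow_add, mul_assoc] at f1
  have f2 := mul_le_mul_of_nonneg_right q2 s0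
  linarith

end

section

namespace Ctrip

variable {N : Nb} {X PL K : Type} [DecidableEq X] [Fintype PL] [Field K] {s : Sys X PL}
  {A : Ari X PL K} {η : ℝ} {Z : Finset X} {R L : PL → ℝ} {G rq : PL → X → ℝ} {cn : PL → X}
  {W ε : ℝ}

theorem dep_eq (h : Fm N s A η Z R L G rq cn W ε) (p : PL) {x y : X} (hxy : x ≠ y) :
    dep s R p x y = Real.log (R p) - Real.log ((s.c p).d x y) :=
  Real.log_div (h.cen.R_pos p).ne' ((h.good.good p).d_pos hxy).ne'

theorem G_le (h : Fm N s A η Z R L G rq cn W ε) (p : PL) (y : X) :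
    G (s.bar p) y ≤ gth s L p + ghp s L G (s.bar p) y := by
  have h1 := h.gth_ge p
  have h2 := h.xs_pos p
  unfold ghp
  rw [h.gth_bar]
  split_ifs <;> linarith

/-- the estimate at one place -/
theorem place (h : Fm N s A η Z R L G rq cn W ε) (p : PL) {x y z : X} (hx : x ∈ Z) (hy : y ∈ Z)
    (hz : z ∈ Z) (hyx : y ≠ x) (hzx : z ≠ x) (hyz : y ≠ z) (hl : s.lab x y = s.lab x z) {w g : ℝ}
    (hw : w = (s.c p).W fun i => bc s Z R L rq p i ∧ y ∈ i.2 ∧ z ∈ i.2 ∧ x ∉ i.2)
    (hg : g = ghp s L G (s.bar p) x + ghp s L G (s.bar p) y + clp s L G rq p x y) :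
    w ≤ g ∨ (|lq R rq p y - lq R rq p z| ≤ xs s p ∧
      w ≤ min (dep s R p y z - lq R rq p y - ga s L p / 4) (dep s R (s.bar p) y z) -
        5 * xs s p + g) := by
  have hc := h.good.good p
  have hcb := h.good.good (s.bar p)
  have g1 := h.ghp_lo (s.bar p) x
  have g2 := h.ghp_lo (s.bar p) y
  have g3 := h.clp_lo p x y
  by_cases hex : ∃ i ∈ (s.c p).I, bc s Z R L rq p i ∧ y ∈ i.2 ∧ z ∈ i.2
  swap
  · left
    rw [hw, Cells.W_zero fun i hi hj => hex ⟨i, hi, hj.1, hj.2.1, hj.2.2.1⟩]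
    linarith
  obtain ⟨i₀, hi₀, hb₀, hy₀, hz₀⟩ := hex
  have dxy := hc.d_pos hyx.symm
  have dxz := hc.d_pos hzx.symm
  have dyz := hc.d_pos hyz
  have hlam := hc.lam_pos
  have hR := h.cen.R_pos p
  have hxi := h.xi_pos p
  have x1 := h.xi_le p
  have x2 := h.xib_le p
  have ll := hc.log_lam
  have et := hc.eta_hi
  have ga1 := h.ga_ge p
  have lip : |lq R rq p y - lq R rq p z| ≤ xs s p := by
    refine (h.lq_lip p hy hz ?_ ?_).trans x1
    · exact (le_mul_of_one_le_left dyz.le hc.lam_lo).trans (h.bc_d hi₀ hb₀ hy hy₀ hz₀).le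
    · have := h.bc_d hi₀ hb₀ hz hz₀ hy₀
      rw [hc.d_symm z y] at this
      exact (le_mul_of_one_le_left dyz.le hc.lam_lo).trans this.le
  have e1 := dep_eq h p hyx.symm
  have e3 := dep_eq h p hyz
  have e4 := dep_eq h (s.bar p) hyx.symm
  have e5 := dep_eq h (s.bar p) hyz
  have e6 := congrArg Real.log (h.good.f2 p x y z hyx hzx hl)
  rw [Real.log_mul (hcb.d_pos hyz).ne' dxz.ne', Real.log_mul (hcb.d_pos hyx.symm).ne' dyz.ne'] at e6
  have e7 := h.dep_ge (s.bar p) hx hy hyx.symm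
  have tri : Real.log ((s.c p).d x y) ≤ Real.log ((s.c p).d x z) + (s.c p).xi ∨
      Real.log ((s.c p).d x y) ≤ Real.log ((s.c p).d y z) + (s.c p).xi := by
    have t := hc.d_tri x z y
    rw [hc.d_symm z y] at t
    rcases le_total ((s.c p).d x z) ((s.c p).d y z) with k | k
    · rw [max_eq_right k] at t
      have := Real.log_le_log dxy t
      rw [Real.log_mul hlam.ne' dyz.ne'] at this
      right; linarith
    · rw [max_eq_left k] at t
      have := Real.log_le_log dxy t
      rw [Real.log_mul hlam.ne' dxz.ne'] at this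
      left; linarith
  set β := R p * Real.exp (-(lq R rq p y + ga s L p)) with hβ
  have β0 : 0 < β := mul_pos hR (Real.exp_pos _)
  have lβ : Real.log β = Real.log (R p) - (lq R rq p y + ga s L p) := by
    rw [hβ, Real.log_mul hR.ne' (Real.exp_pos _).ne', Real.log_exp]; ring
  have a0 : Real.log ((s.c p).d y z) ≤ Real.log (s.c p).lam + Real.log β := by
    rw [← Real.log_mul hlam.ne' β0.ne']
    exact Real.log_le_log dyz ((hc.c1 i₀ hi₀ y hy₀ z hz₀).trans
      (mul_le_mul_of_nonneg_left (h.bc_le hi₀ hb₀ hy hy₀) hlam.le))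
  have bA : w ≤ Real.log β - Real.log ((s.c p).d y z) + 3 * (s.c p).xi := by
    have t := hc.pair_below hyz (β * Real.exp (s.c p).xi)
    rw [Real.log_div (by positivity) dyz.ne', Real.log_mul hlam.ne' (by positivity),
      Real.log_mul β0.ne' (Real.exp_pos _).ne', Real.log_exp, max_eq_right (by linarith)] at t
    have t2 : w ≤ (s.c p).W fun i => y ∈ i.2 ∧ z ∈ i.2 ∧ (s.c p).ρ i < β * Real.exp (s.c p).xi := by
      rw [hw]
      exact Cells.W_mono hc fun i hi hj => ⟨hj.2.1, hj.2.2.1, (h.bc_le hi hj.1 hy hj.2.1).trans_lt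
        (lt_mul_of_one_lt_right β0 (Real.one_lt_exp_iff.2 hxi))⟩
    linarith
  have m1 := h.cen.G_lo (s.bar p) x
  have m2 := h.cen.G_lo (s.bar p) y
  have fin : w ≤ dep s R (s.bar p) y z - 5 * xs s p + g → w ≤ min (dep s R p y z - lq R rq p y -
      ga s L p / 4) (dep s R (s.bar p) y z) - 5 * xs s p + g := fun k => by
    rcases min_choice (dep s R p y z - lq R rq p y - ga s L p / 4) (dep s R (s.bar p) y z) with
      k' | k' <;> rw [k'] <;> linarith
  by_cases hn : near s rq p x y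
  · have c1 : clp s L G rq p x y = ga s L p + G (s.bar p) x + G (s.bar p) y := if_pos hn
    have m3 : max (G (s.bar p) x) (G (s.bar p) y) ≤ G (s.bar p) x + G (s.bar p) y :=
      max_le (by linarith) (by linarith)
    have t1 := hc.c5 y _ dxy
    have t2 := hc.pair_below hyz ((s.c p).d x y)
    rw [Real.log_div (by positivity) dyz.ne', Real.log_mul hlam.ne' dxy.ne'] at t2
    have t3 : w ≤ ((s.c p).W fun i => (s.c p).d x y ≤ (s.c p).ρ i ∧
        (∃ a ∈ i.2, (s.c p).d y a ≤ (s.c p).d x y) ∧ ∃ b, b ∉ i.2 ∧ (s.c p).d y b ≤ (s.c p).d x y) +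
        (s.c p).W fun i => y ∈ i.2 ∧ z ∈ i.2 ∧ (s.c p).ρ i < (s.c p).d x y := by
      rw [hw]
      refine Cells.W_le_add hc fun i _ hj => ?_
      rcases le_or_gt ((s.c p).d x y) ((s.c p).ρ i) with k | k
      · exact Or.inl ⟨k, ⟨y, hj.2.1, by rw [hc.d_self]; exact dxy.le⟩, x, hj.2.2.2,
          (hc.d_symm y x).le⟩
      · exact Or.inr ⟨hj.2.1, hj.2.2.1, k⟩
    rcases max_choice 0 (Real.log (s.c p).lam + Real.log ((s.c p).d x y) -
      Real.log ((s.c p).d y z)) with k | k <;> rw [k] at t2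
    · left; linarith
    · rcases tri with k' | k'
      · exact Or.inr ⟨lip, fin (by linarith)⟩
      · left; linarith
  · have n1 : rq p y ≤ (s.c p).lam * (s.c p).d x y := not_lt.1 fun k => hn (Or.inr k)
    have n2 := Real.log_le_log (h.rq_pos p hy) n1
    rw [Real.log_mul hlam.ne' dxy.ne'] at n2
    have n3 : Real.log (R p / rq p y) ≤ lq R rq p y := le_max_right _ _
    rw [Real.log_div hR.ne' (h.rq_pos p hy).ne'] at n3
    have m3 : max (G (s.bar p) x) (G (s.bar p) y) ≤
        gth s L p + ghp s L G (s.bar p) x + ghp s L G (s.bar p) y :=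
      max_le (by linarith [G_le h p x]) (by linarith [G_le h p y])
    have m4 : ga s L p = 4 * gth s L p + 100 * xs s p := rfl
    have m5 := h.gth_ge p
    rcases tri with k' | k'
    · exact Or.inr ⟨lip, fin (by linarith)⟩
    · exfalso; linarith

end Ctrip

theorem trip : TRIP := by
  intro N X PL K _ _ _ s A η Z R L G rq cn W ε _ h D hD x hx y hy z hz hyx hzx hyz hl
  classical
  have key : ∀ p, s.m p * (s.c p).W (fun i => bc s Z R L rq p i ∧ y ∈ i.2 ∧ z ∈ i.2 ∧ x ∉ i.2) ≤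
      2 * (∑ i, if D.pl i = p ∧ D.cl i y = D.cl i z then D.om i else 0) +
        s.m p * (ghp s L G (s.bar p) x + ghp s L G (s.bar p) y + clp s L G rq p x y) := fun p => by
    have hm := h.good.m_lo p
    rcases Ctrip.place h p hx hy hz hyx hzx hyz hl rfl rfl with k | ⟨k1, k2⟩
    · have := mul_le_mul_of_nonneg_left k hm
      have h0 : 0 ≤ ∑ i, if D.pl i = p ∧ D.cl i y = D.cl i z then D.om i else 0 :=
        sum_nonneg fun i _ => by split_ifs; exacts [hD.good.om_lo i, le_rfl]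
      linarith
    · have h1 := hD.low p y z hyz k1
      have h2 := mul_le_mul_of_nonneg_left k2 hm
      rw [mul_add] at h2
      refine h2.trans (add_le_add (h1.trans_eq ?_) le_rfl)
      congr
  have e : ∑ p, (∑ i, if D.pl i = p ∧ D.cl i y = D.cl i z then D.om i else 0) = om2 D y z := by
    rw [sum_comm]
    refine sum_congr rfl fun i _ => ?_
    simp only [ite_and]
    rw [sum_ite_eq]
    simp
  have o0 : 0 ≤ om2 D y z := sum_nonneg fun i _ => by split_ifs; exacts [hD.good.om_lo i, le_rfl]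
  have b1 := h.good.sum_bar fun p => ghp s L G p x
  have b2 := h.good.sum_bar fun p => ghp s L G p y
  have p1 := h.good.sum_nonneg fun p => h.ghp_lo p x
  have p2 := h.good.sum_nonneg fun p => h.ghp_lo p y
  have p3 := h.good.sum_nonneg fun p => h.clp_lo p x y
  rw [fam_DB]
  refine (sum_le_sum fun p _ => key p).trans ?_
  simp only [mul_add, sum_add_distrib, ← mul_sum, e]
  unfold Ghf Clf
  linarith

end

section

theorem out1 : OUT1 := by
  intro N X PL K _ _ _ s A η Z R L G rq cn W ε _ h y x z hxy hzx hl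
  classical
  generalize hV : (fun p => (s.c p).W fun i =>
    oc s R cn (fun p => max (ghp s L G p y) (ghp s L G (s.bar p) y)) p i ∧ z ∉ i.2) = V
  have eV := congrFun hV
  simp only [eV]
  have V0 : ∀ p, 0 ≤ V p := fun p => by rw [← eV]; exact Cells.W_nonneg (h.good.good p)
  have key : ∀ p, (if cpin s R L cn y p x then ghp s L G p y else 0) ≤
      30 * V p + 30 * V (s.bar p) := fun p => by
    have v1 := V0 p
    have v2 := V0 (s.bar p)
    split_ifs with k
    swap
    · linarith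
    by_cases hg : gth s L p < G p y
    swap
    · rw [ghp, if_neg hg]; linarith
    have eg : ghp s L G p y = G p y := if_pos hg
    have hc := h.good.good p
    have hc' := h.good.good (s.bar p)
    have r0 := h.cen.R_pos p
    have r1 := h.cen.R_pos (s.bar p)
    have x1 := h.xi_pos p
    have x2 := h.xi_pos (s.bar p)
    have L1 := h.L_lo p
    have L2 := h.L_lo (s.bar p)
    unfold gth xs at hg
    have b1 : R p * Real.exp (G p y) ≤ (s.c p).d y (cn p) := by
      have e := h.G_eq p y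
      rcases le_total (Real.log ((s.c p).d y (cn p) / R p)) 0 with q | q
      · rw [max_eq_left q] at e
        linarith
      · rw [max_eq_right q] at e
        rcases (hc.d_nonneg y (cn p)).eq_or_lt with q' | q'
        · rw [← q', zero_div, Real.log_zero] at e
          linarith
        · rw [e, Real.exp_log (div_pos q' r0), mul_div_cancel₀ _ r0.ne']
    have b2 : R p * Real.exp (G p y - (s.c p).xi) ≤ (s.c p).d x y :=
      Cout1.far hc r0 (by rw [hc.d_symm]; exact k.1) (by linarith) (by rwa [hc.d_symm])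
    have b3 := k.2.2
    rw [hc'.d_symm] at b3
    have b4 := mul_le_mul b2 b3 (by positivity) (hc.d_nonneg _ _)
    rw [h.good.f1 p x y z hxy.symm hzx hl.symm] at b4
    rw [eg]
    by_cases q : R p * Real.exp (7 / 20 * G p y) ≤ (s.c p).d x z
    · have := Cout1.place hc (h.R_lo p) k.1 (by linarith)
        (eg.symm.trans_le (le_max_left _ (ghp s L G (s.bar p) y))) q
      linarith [this.trans_eq (congrArg (30 * ·) (eV p))]
    · have q' : R (s.bar p) * Real.exp (7 / 20 * G p y) ≤ (s.c (s.bar p)).d x z := by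
        by_contra q'
        have b5 := mul_lt_mul'' (not_le.1 q) (not_le.1 q') (hc.d_nonneg _ _) (hc'.d_nonneg _ _)
        have b6 := b4.trans_lt b5
        rw [mul_mul_mul_comm, mul_mul_mul_comm (R p) (Real.exp _), ← Real.exp_add,
          ← Real.exp_add] at b6
        have := Real.exp_lt_exp.1 (lt_of_mul_lt_mul_left b6 (mul_pos r0 r1).le)
        linarith
      have := Cout1.place hc' (h.R_lo (s.bar p)) k.2.1 (by linarith)
        (show G p y ≤ max (ghp s L G (s.bar p) y) (ghp s L G (s.bar (s.bar p)) y) by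
          rw [h.ari.bar_bar, eg]; exact le_max_right _ _) q'
      linarith [this.trans_eq (congrArg (30 * ·) (eV (s.bar p)))]
  refine (h.good.sum_le key).trans (le_of_eq ?_)
  simp only [mul_add, sum_add_distrib, mul_left_comm _ (30 : ℝ), ← mul_sum]
  rw [h.good.sum_bar V]
  ring

end

section

namespace Cout2

open Classical in
theorem disc_ge {X ι : Type} [DecidableEq X] [Fintype ι] (F : Fam X ι) (hw : ∀ i, 0 ≤ F.w i)
    (C : ι → Prop) {U Z : Finset X} {a : ℝ} (hU : U.Nonempty)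
    (hb : ∀ i, C i → ¬ F.b i ∧ 1 - 2 / 10 ^ 6 ≤ F.mu Z i) (hC : F.W C ≤ 3 * a)
    (hu : ∀ u ∈ U, a ≤ 120 * F.W fun i => C i ∧ u ∉ F.S i) : 2 * a ≤ 10 ^ 6 * F.disc U Z := by
  have U0 : (0 : ℝ) < U.card := by exact_mod_cast hU.card_pos
  have h1 : ∑ u ∈ U, F.W (fun i => C i ∧ u ∉ F.S i) =
      U.card * ∑ i, if C i then F.w i * (1 - F.mu U i) else 0 := by
    unfold Fam.W
    rw [sum_comm, mul_sum]
    refine sum_congr rfl fun i _ => ?_
    by_cases k : C i
    · have e : ((U \ F.S i).card : ℝ) + (U ∩ F.S i).card = U.card := by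
        exact_mod_cast card_sdiff_add_card_inter U (F.S i)
      simp only [k, true_and, if_true, Fam.mu]
      rw [← sum_filter, sum_const, nsmul_eq_mul, show (U.filter fun u => u ∉ F.S i) = U \ F.S i by
        ext; simp, eq_sub_of_add_eq e]
      field_simp
    · simp [k]
  have h2 := card_nsmul_le_sum _ _ _ hu
  rw [nsmul_eq_mul, ← mul_sum, h1, mul_left_comm] at h2
  have h3 := le_of_mul_le_mul_left h2 U0
  have h4 : (∑ i, if C i then F.w i * (1 - F.mu U i) else 0) / 200 - F.W C / 10 ^ 5 ≤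
      F.disc U Z := by
    unfold Fam.W Fam.disc
    rw [sum_div, sum_div, ← sum_sub_distrib]
    refine sum_le_sum fun i _ => ?_
    by_cases k : C i
    · simp only [k, if_true, if_neg (hb i k).1]
      have : (1 - F.mu U i) / 200 - 1 / 10 ^ 5 ≤ (F.mu U i - F.mu Z i) ^ 2 := by
        nlinarith [sq_nonneg (F.mu Z i - F.mu U i - 1 / 400), (hb i k).2]
      nlinarith [mul_le_mul_of_nonneg_left this (hw i)]
    · simp only [k, if_false, zero_div, sub_zero]
      split_ifs
      · exact le_rfl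
      · exact mul_nonneg (hw i) (sq_nonneg _)
  have h5 : 0 ≤ F.W C := sum_nonneg fun i _ => by split_ifs; exacts [hw i, le_rfl]
  linarith

variable {N : Nb} {X PL K : Type} [DecidableEq X] [Fintype PL] [Field K] {s : Sys X PL}
  {A : Ari X PL K} {η : ℝ} {Z : Finset X} {R L : PL → ℝ} {G rq : PL → X → ℝ} {cn : PL → X}
  {W ε : ℝ} (h : Fm N s A η Z R L G rq cn W ε)
include h

open Classical in
theorem few {y : X} (hy : y ∈ Z) (p : PL) :
    ((Z.filter fun x => ¬ cpin s R L cn y p x).card : ℝ) ≤ 3 / 10 ^ 6 * Z.card := by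
  have h1 := h.cn_in p
  have h2 := h.cn_in (s.bar p)
  have h3 := h.mass (s.bar p) y hy
  have h4 : (Z.filter fun x => ¬ cpin s R L cn y p x).card ≤ _ :=
    (card_le_card (t := ((Z.filter fun x => R p < (s.c p).d (cn p) x) ∪
      Z.filter fun x => R (s.bar p) < (s.c (s.bar p)).d (cn (s.bar p)) x) ∪ Z.filter fun x =>
        (s.c (s.bar p)).d y x < R (s.bar p) * Real.exp (-L (s.bar p))) fun x hx => by
      simp only [mem_filter, mem_union, cpin, not_and_or, not_le] at hx ⊢
      tauto).trans ((card_union_le _ _).trans (add_le_add (card_union_le _ _) le_rfl))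
  have h5 : 10 ^ 6 * (Z.filter fun x => ¬ cpin s R L cn y p x).card ≤ 3 * Z.card := by omega
  have h6 : (10 : ℝ) ^ 6 * (Z.filter fun x => ¬ cpin s R L cn y p x).card ≤ 3 * Z.card := by
    exact_mod_cast h5
  linarith

open Classical in
theorem bad {y : X} (hy : y ∈ Z) :
    ((Z.filter fun x => 2 * ∑ p, s.m p * (if cpin s R L cn y p x then ghp s L G p y else 0) <
      ∑ p, s.m p * ghp s L G p y).card : ℝ) ≤ Z.card / 4 := by
  set a := ∑ p, s.m p * ghp s L G p y with ha
  have a0 : 0 ≤ a := h.good.sum_nonneg fun p => h.ghp_lo p y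
  set B : X → ℝ := fun x => ∑ p, s.m p * (if ¬ cpin s R L cn y p x then ghp s L G p y else 0)
  have b0 : ∀ x, 0 ≤ B x := fun x => h.good.sum_nonneg fun p => by
    split_ifs; exacts [le_rfl, h.ghp_lo p y]
  have b1 : ∀ x, ∑ p, s.m p * (if cpin s R L cn y p x then ghp s L G p y else 0) = a - B x :=
    fun x => by
    rw [ha, ← sum_sub_distrib]
    exact sum_congr rfl fun p _ => by split_ifs <;> simp
  have b2 : ∑ x ∈ Z, B x ≤ 3 / 10 ^ 6 * Z.card * a := by
    rw [sum_comm, ha, mul_sum]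
    refine sum_le_sum fun p _ => ?_
    rw [← mul_sum, ← sum_filter, sum_const, nsmul_eq_mul, mul_left_comm _ (s.m p)]
    exact mul_le_mul_of_nonneg_left (mul_le_mul_of_nonneg_right (few h hy p) (h.ghp_lo p y))
      (h.good.m_lo p)
  simp only [b1]
  set D := Z.filter fun x => 2 * (a - B x) < a
  have Z0 : (0 : ℝ) ≤ Z.card := Nat.cast_nonneg _
  rcases D.eq_empty_or_nonempty with e | e
  · rw [e, card_empty, Nat.cast_zero]; positivity
  · have d1 : ∑ _x ∈ D, a / 2 < ∑ x ∈ D, B x :=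
      sum_lt_sum_of_nonempty e fun x hx => by linarith [(mem_filter.1 hx).2]
    have d2 : ∑ x ∈ D, B x ≤ ∑ x ∈ Z, B x :=
      sum_le_sum_of_subset_of_nonneg (filter_subset _ _) fun x _ _ => b0 x
    rw [sum_const, nsmul_eq_mul] at d1
    have d3 : (D.card : ℝ) * a < 6 / 10 ^ 6 * Z.card * a := by linarith
    have := lt_of_mul_lt_mul_right d3 a0
    linarith

theorem wt (y : X) (p : PL) :
    (s.c p).W (oc s R cn (fun p => max (ghp s L G p y) (ghp s L G (s.bar p) y)) p) ≤
      3 / 2 * (ghp s L G p y + ghp s L G (s.bar p) y) := by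
  have hc := h.good.good p
  have g1 := h.ghp_lo p y
  have g2 := h.ghp_lo (s.bar p) y
  have r0 := mul_pos hc.lam_pos (h.cen.R_pos p)
  rcases (le_max_of_le_left g1 : 0 ≤ max (ghp s L G p y) (ghp s L G (s.bar p) y)).eq_or_lt with
    e | e
  · rw [Cells.W_zero fun i _ k => ?_]
    · positivity
    · have := k.2.1
      simp only [← e, Real.exp_zero, mul_one] at this
      exact not_lt.2 k.1 this
  · have k1 : gth s L p ≤ ghp s L G p y + ghp s L G (s.bar p) y := by
      have k : ∀ q, 0 < ghp s L G q y → gth s L q ≤ ghp s L G q y := fun q => by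
        unfold ghp; split_ifs with u
        exacts [fun _ => u.le, fun v => absurd v (lt_irrefl _)]
      rcases lt_max_iff.1 e with u | u
      · linarith [k _ u]
      · linarith [k _ u, h.gth_bar p]
    have k2 := hc.c2 (cn p) _ _ r0 (le_mul_of_one_le_right r0.le (Real.one_le_exp e.le))
    rw [mul_div_cancel_left₀ _ r0.ne', Real.log_exp] at k2
    refine (Cells.W_mono hc fun i hi k => ⟨k.2.2 _ ?_, k.1, k.2.1⟩).trans (k2.trans ?_)
    · have := max_le_add_of_nonneg g1 g2
      linarith [h.gth_ge p, h.xi_le p, hc.eta_hi, hc.eta_lo]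
    · rw [hc.d_self]; exact (div_pos (hc.rho_pos i hi) hc.lam_pos).le

theorem mu_ge {T : Finset X} (hT : T ⊆ Z) (h9 : 9 * Z.card ≤ 10 * T.card) (h0 : Z.Nonempty)
    {g : PL → ℝ} (i : Σ p : PL, (s.c p).I) (k : oc s R cn g i.1 i.2.1) :
    ¬ (fam s Z R L rq).b i ∧ 1 - 2 / 10 ^ 6 ≤ (fam s Z R L rq).mu T i := by
  have hc := h.good.good i.1
  refine ⟨fun b => not_lt.2 ((le_mul_of_one_le_left (h.cen.R_pos _).le hc.lam_lo).trans k.1)
    (h.bc_lt i.2.2 b), ?_⟩
  have h1 := h.cn_in i.1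
  have h2 : (T \ i.2.1.2).card ≤ _ := card_le_card
    (t := Z.filter fun x => R i.1 < (s.c i.1).d (cn i.1) x) fun x hx => mem_filter.2
      ⟨hT (mem_sdiff.1 hx).1, lt_of_not_ge fun u => (mem_sdiff.1 hx).2 (k.2.2 x
        (u.trans ((le_div_iff₀' hc.lam_pos).2 k.1)))⟩
  have h3 := card_sdiff_add_card_inter T i.2.1.2
  have h4 := h0.card_pos
  have h5 : (0 : ℝ) < T.card := by exact_mod_cast (show 0 < T.card by omega)
  have h6 : (499999 : ℝ) * T.card ≤ 500000 * (T ∩ i.2.1.2).card := by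
    exact_mod_cast (show 499999 * T.card ≤ 500000 * (T ∩ i.2.1.2).card by omega)
  exact (le_div_iff₀ h5).2 (show _ ≤ ((T ∩ i.2.1.2).card : ℝ) by linarith)

end Cout2

open L.Cout2 Classical in
theorem out2 (h1 : OUT1) : OUT2 := by
  intro N X PL K _ _ _ s A η Z R L G rq cn W ε hN h Z' hZ y hy hP
  have hb := bad h (hZ hy)
  set P := (Z'.erase y).filter fun x => ∃ z ∈ Z', z ≠ x ∧ z ≠ y ∧ s.lab x z = s.lab x y
  set D := Z.filter fun x => 2 * ∑ p, s.m p * (if cpin s R L cn y p x then ghp s L G p y else 0) <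
    ∑ p, s.m p * ghp s L G p y
  have hm : ∀ x, ∃ z, x ∈ P → z ∈ Z' ∧ z ≠ x ∧ z ≠ y ∧ s.lab x z = s.lab x y := fun x => by
    by_cases u : x ∈ P
    · exact (mem_filter.1 u).2.imp fun z k _ => k
    · exact ⟨x, fun v => absurd v u⟩
  choose z hz using hm
  have pz : ∀ x ∈ P, x ≠ y ∧ x ∈ Z := fun x hx =>
    (mem_erase.1 (mem_filter.1 hx).1).imp_right fun u => hZ u
  have c1 : ((P \ D).card : ℝ) ≤ N.k * ((P \ D).image z).card := by
    rw [card_eq_sum_card_image z, Nat.cast_sum, mul_comm, ← nsmul_eq_mul]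
    refine sum_le_card_nsmul _ _ _ fun u hu => ?_
    obtain ⟨x, hx, rfl⟩ := mem_image.1 hu
    have k := hz x (mem_sdiff.1 hx).1
    refine le_trans (Nat.cast_le.2 (card_le_card fun v hv => ?_))
      (h.pin _ (hZ k.1) y (hZ hy) k.2.2.1)
    obtain ⟨v1, v2⟩ := mem_filter.1 hv
    exact mem_filter.2 ⟨(pz v (mem_sdiff.1 v1).1).2,
      v2 ▸ (hz v (mem_sdiff.1 v1).1).2.2.2⟩
  have c2 : (P.card : ℝ) ≤ (P \ D).card + D.card := by exact_mod_cast card_le_card_sdiff_add_card
  have c3 : (Z.card : ℝ) ≤ 2 * P.card := by exact_mod_cast hP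
  have c4 : (Z.card : ℝ) ≤ 4 * N.k * ((P \ D).image z).card := by linarith
  refine ⟨(P \ D).image z, fun u hu => ?_, c4, fun T hT h9 => ?_⟩
  · obtain ⟨x, hx, rfl⟩ := mem_image.1 hu
    exact (hz x (mem_sdiff.1 hx).1).1
  have Z0 : Z.Nonempty := ⟨y, hZ hy⟩
  refine disc_ge (fam s Z R L rq) (fam_w_lo h.good) (fun i => oc s R cn
    (fun p => max (ghp s L G p y) (ghp s L G (s.bar p) y)) i.1 i.2.1) ?_
    (fun i => mu_ge h hT h9 Z0 i) ?_ fun u hu => ?_
  · refine nonempty_iff_ne_empty.2 fun e => ?_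
    have : (0 : ℝ) < Z.card := by exact_mod_cast Z0.card_pos
    rw [e, card_empty, Nat.cast_zero, mul_zero] at c4
    linarith
  · refine (fam_W s Z R L rq _).trans_le ((h.good.sum_le (wt h y)).trans_eq ?_)
    have := h.good.sum_bar fun p => ghp s L G p y
    simp only [mul_left_comm _ (3 / 2 : ℝ), ← mul_sum, mul_add, sum_add_distrib]
    linarith
  · obtain ⟨x, hx, rfl⟩ := mem_image.1 hu
    obtain ⟨x1, x2⟩ := mem_sdiff.1 hx
    have k1 := h1 N X PL K s A η Z R L G rq cn W ε hN h y x (z x) (pz x x1).1 (hz x x1).2.1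
      (hz x x1).2.2.2
    have k2 := not_lt.1 fun u => x2 (mem_filter.2 ⟨(pz x x1).2, u⟩)
    have k3 := fam_W s Z R L rq fun p i => oc s R cn
      (fun p => max (ghp s L G p y) (ghp s L G (s.bar p) y)) p i ∧ z x ∉ i.2
    exact k2.trans (le_of_le_of_eq (by linarith) (congrArg (120 * ·) k3.symm))

end


end Pool.Agent.MP_ddf486_co.KV.L
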