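import Pool.Agent.MP_ddf486_co.KL.A

/-! Project KL: block C, second half. -/

set_option autoImplicit false
set_option linter.unusedSectionVars false

noncomputable section

namespace Pool.Agent.MP_ddf486_co.KV.L

open Finset Pool.Agent.MP_6c3157_co.PD Pool.Agent.MP_6c3157_co.PQ

section

namespace Chvc

variable {N : Nb} {X PL K : Type} [DecidableEq X] [Fintype PL] [Field K] {s : Sys X PL}
  {A : Ari X PL K} {η : ℝ} {Z : Finset X} {R L : PL → ℝ} {G rq : PL → X → ℝ} {cn : PL → X}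
  {W ε : ℝ}

theorem place (h : Fm N s A η Z R L G rq cn W ε) (p : PL) {y z : X} (hy : y ∈ Z) (hyz : y ≠ z)
    (U V : Finset X) (hV : V ⊆ U) {c t : ℝ} (ht : 0 ≤ t) (hc : c ≤ V.card)
    (hd : ∀ v, v = z ∨ v ∈ V → (s.c p).d y v ≤
      (s.c p).lam ^ 3 * (R p * Real.exp (-(t + lq R rq p y + ga s L p / 4)))) :
    t ≤ 4 * (s.c p).W fun i => ((N.q : ℝ) ^ 50 * (Z ∩ i.2).card ≤ Z.card ∧
      c ≤ (U ∩ i.2).card) ∧ y ∈ i.2 ∧ z ∈ i.2 := by
  have hg := h.good.good p
  have hl := hg.lam_pos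
  have hl1 := hg.lam_lo
  have hR := h.cen.R_pos p
  set r0 := (s.c p).lam ^ 3 * (R p * Real.exp (-(t + lq R rq p y + ga s L p / 4))) with hr0
  have r0p : 0 < r0 := by positivity
  set b := min (R p) (rq p y) / (s.c p).lam with hb
  have bp : 0 < b := div_pos (lt_min hR (h.rq_pos p hy)) hl
  have e1 : Real.log (b / ((s.c p).lam * r0)) =
      t + ga s L p / 4 - 5 * Real.log (s.c p).lam := by
    rw [hb, hr0, h.min_eq p hy, Real.log_div (by positivity) (by positivity),
      Real.log_div (by positivity) (by positivity), Real.log_mul (by positivity) (by positivity),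
      Real.log_mul (by positivity) (by positivity), Real.log_mul (by positivity) (by positivity),
      Real.log_mul (by positivity) (by positivity), Real.log_exp, Real.log_exp, Real.log_pow]
    push_cast
    ring
  have e2 : t + (s.c p).eta ≤ Real.log (b / ((s.c p).lam * r0)) := by
    rw [e1]
    linarith [h.ga_ge p, h.xi_le p, hg.log_lam, hg.eta_hi, h.xs_pos p]
  have e3 : (s.c p).lam * r0 ≤ b := by
    have : 0 ≤ Real.log (b / ((s.c p).lam * r0)) := by linarith [hg.eta_lo]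
    rwa [Real.log_nonneg_iff (by positivity), one_le_div (by positivity)] at this
  have e4 : (s.c p).rlo ≤ (s.c p).lam * r0 := by
    have h1 := hg.d_lo y z hyz
    have h2 := hd z (Or.inl rfl)
    have h3 := hg.rlo_pos
    nlinarith
  have e5 : b ≤ (s.c p).rhi :=
    ((div_le_self (lt_min hR (h.rq_pos p hy)).le hl1).trans (min_le_left _ _)).trans (h.R_hi p)
  have h1 := hg.c3 y _ _ e4 e3 e5
  have h2 := h1.trans (Cells.W_mono (ψ := fun i => ((N.q : ℝ) ^ 50 * (Z ∩ i.2).card ≤ Z.card ∧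
      c ≤ (U ∩ i.2).card) ∧ y ∈ i.2 ∧ z ∈ i.2) hg fun i hi ⟨k1, k2, k3, k4⟩ => by
    have k5 : ∀ v, v = z ∨ v ∈ V → v ∈ i.2 := fun v hv =>
      k4 v ((hd v hv).trans (by rw [le_div_iff₀ hl]; linarith))
    refine ⟨⟨?_, hc.trans ?_⟩, k1, k5 z (Or.inl rfl)⟩
    · have k6 : (s.c p).lam * (s.c p).ρ i < rq p y := by
        rw [hb, lt_div_iff₀ hl] at k3
        linarith [min_le_right (R p) (rq p y)]
      refine le_trans (mul_le_mul_of_nonneg_left ?_ (by positivity)) (h.rq_min p y hy _ k6).le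
      exact_mod_cast card_le_card (Cells.inter_subset_ball hg hi k1)
    · exact_mod_cast card_le_card fun v hv => mem_inter.2 ⟨hV hv, k5 v (Or.inr hv)⟩)
  linarith

end Chvc

theorem hvc : HVC := by
  classical
  intro N X PL K _ _ _ s A η Z R L G rq cn W ε _ h D hD y hy z hyz U c P hP
  have key : ∀ p : PL, ∃ t : ℝ, 0 ≤ t ∧ (∀ i, P i → D.pl i = p → D.lv i ≤ t) ∧
      t ≤ 4 * (s.c p).W fun i => ((N.q : ℝ) ^ 50 * (Z ∩ i.2).card ≤ Z.card ∧
        c ≤ (U ∩ i.2).card) ∧ y ∈ i.2 ∧ z ∈ i.2 := by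
    intro p
    have h0 := mul_nonneg (by norm_num : (0 : ℝ) ≤ 4) (Cells.W_nonneg
      (φ := fun i => ((N.q : ℝ) ^ 50 * (Z ∩ i.2).card ≤ Z.card ∧
        c ≤ (U ∩ i.2).card) ∧ y ∈ i.2 ∧ z ∈ i.2) (h.good.good p))
    refine ⟨_, h0, fun i hi hp => ?_, le_rfl⟩
    rcases le_total (D.lv i) 0 with k | k
    · exact k.trans h0
    · subst hp
      refine Chvc.place h _ hy hyz U (D.cell i U y) (filter_subset _ _) k (hP i hi).2 ?_
      rintro v (rfl | hv)
      · exact hD.deep i y _ (hP i hi).1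
      · exact hD.deep i y v (mem_filter.1 hv).2.symm
  choose t t0 t1 t2 using key
  refine le_trans ?_ (mul_le_mul_of_nonneg_left (fam_W s Z R L rq fun p i =>
    ((N.q : ℝ) ^ 50 * (Z ∩ i.2).card ≤ Z.card ∧ c ≤ (U ∩ i.2).card) ∧ y ∈ i.2 ∧ z ∈ i.2).ge
    (by norm_num))
  have h1 := hD.good.lv_sum t t0
  have h2 := h.good.sum_le t2
  simp only [mul_left_comm _ (4 : ℝ), ← mul_sum] at h2
  refine le_trans (sum_le_sum fun i _ => ?_) (h1.trans (by linarith))
  by_cases hi : P i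
  · rw [if_pos hi, if_pos (t1 _ i hi rfl)]
  · rw [if_neg hi]
    split_ifs
    · exact hD.good.om_lo i
    · exact le_rfl

end

section

open Crdc DblAux in
theorem rdc : RDC := by
  intro N X PL K _ _ _ s A η Z R L G rq cn W ε _ h
  classical
  have hA := h.ari
  have hs := h.good
  have hR := h.cen.R_pos
  have hξ := h.xi_pos
  have hx := h.xs_pos
  obtain ⟨n, hn⟩ : ∃ n : ℕ, ∀ p, Real.log (R p / (256 * (s.c p).rlo)) ≤ n * (s.c p).xi := by
    obtain ⟨M, hM⟩ := (Set.finite_range fun p =>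
      Real.log (R p / (256 * (s.c p).rlo)) / (s.c p).xi).bddAbove
    obtain ⟨n, hn⟩ := exists_nat_ge M
    exact ⟨n, fun p => (div_le_iff₀ (hξ p)).1 ((hM ⟨p, rfl⟩).trans hn)⟩
  have hpart : ∀ (q : PL) (l : ℝ), ∃ g : Fin 5 → X → ℕ,
      (∀ j x y, g j x = g j y → (s.c q).d x y ≤ (s.c q).lam ^ 3 * (R q * Real.exp (-l))) ∧
      ∀ x y, (s.c q).d x y ≤ R q * Real.exp (-l) →
        ((univ : Finset (Fin 5)).filter fun j => g j x ≠ g j y).card ≤ 2 :=
    fun q l => hA.part q _ (mul_pos (hR q) (Real.exp_pos _))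
  choose g g1 g2 using hpart
  let e := (Fintype.equivFin (PL × Fin n × Fin 5 × Fin 2)).symm
  let l2 : PL → X → ℝ := fun p y => lq R rq p y + ga s L p / 4
  let io : PL → Fin 2 → X → ℕ := fun p j y => ⌊l2 p y / (2 * xs s p) + ((j : ℕ) : ℝ) / 2⌋₊
  let lv : PL → Fin n → ℝ := fun p k => (((k : ℕ) : ℝ) + 1) * (2 * xs s p)
  let om : PL → ℝ := fun p => s.m p * xs s p
  let cl : PL × Fin n × Fin 5 × Fin 2 → X → ℕ := fun a y =>
    Nat.pair (io a.1 a.2.2.2 y) (Nat.pair
      (g a.1 (((io a.1 a.2.2.2 y : ℝ) + 1) * (2 * xs s a.1) + lv a.1 a.2.1) a.2.2.1 y)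
      (g (s.bar a.1) (lv a.1 a.2.1) a.2.2.1 y))
  have om0 : ∀ p, 0 ≤ om p := fun p => mul_nonneg (hs.m_lo _) (hx _).le
  have l20 : ∀ p y, 0 ≤ l2 p y := fun p y =>
    add_nonneg (lq_nonneg _ _ _ _) (by linarith [h.ga_pos p])
  have io1 : ∀ p j y, l2 p y ≤ ((io p j y : ℝ) + 1) * (2 * xs s p) := fun p j y => by
    have h0 : 0 < 2 * xs s p := by linarith [hx p]
    have h1 := Nat.lt_floor_add_one (l2 p y / (2 * xs s p) + ((j : ℕ) : ℝ) / 2)
    have h2 : (0 : ℝ) ≤ ((j : ℕ) : ℝ) / 2 := by positivity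
    rw [← div_le_iff₀ h0]
    exact le_trans (by linarith) h1.le
  have io2 : ∀ p j y, (io p j y : ℝ) * (2 * xs s p) ≤ l2 p y + xs s p := fun p j y => by
    have h0 : 0 < 2 * xs s p := by linarith [hx p]
    have h2 : ((j : ℕ) : ℝ) ≤ 1 := by exact_mod_cast Nat.lt_succ_iff.1 j.2
    have h1 : (io p j y : ℝ) ≤ l2 p y / (2 * xs s p) + ((j : ℕ) : ℝ) / 2 :=
      Nat.floor_le (add_nonneg (div_nonneg (l20 p y) h0.le) (by positivity))
    have h3 := mul_le_mul_of_nonneg_right (h1.trans (add_le_add_right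
      (show ((j : ℕ) : ℝ) / 2 ≤ 1 / 2 by linarith) _)) h0.le
    rw [add_mul, div_mul_cancel₀ _ h0.ne'] at h3
    linarith
  have deep : ∀ a y z, cl a y = cl a z → (s.c a.1).d y z ≤ (s.c a.1).lam ^ 3 *
      (R a.1 * Real.exp (-(lv a.1 a.2.1 + l2 a.1 y))) := fun a y z k => by
    obtain ⟨k1, k2⟩ := Nat.pair_eq_pair.1 k
    have k3 := (Nat.pair_eq_pair.1 k2).1
    rw [← k1] at k3
    refine (g1 _ _ _ _ _ k3).trans (mul_le_mul_of_nonneg_left (mul_le_mul_of_nonneg_left
      (Real.exp_le_exp.2 ?_) (hR _).le) (pow_nonneg (hs.good _).lam_pos.le _))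
    linarith [io1 a.1 a.2.2.2 y]
  refine ⟨⟨_, fun i => om (e i).1, fun i => cl (e i), fun i => (e i).1,
    fun i => lv (e i).1 (e i).2.1⟩, ⟨fun i => om0 _, fun t ht => ?_, fun i x y hxy k => ?_⟩,
    fun i y z k => ?_, fun p y z hyz hl => ?_⟩
  · refine (e.sum_comp fun a => if lv a.1 a.2.1 ≤ t a.1 then om a.1 else 0).trans_le ?_
    rw [Fintype.sum_prod_type, mul_sum]
    refine sum_le_sum fun p _ => ?_
    rw [Fintype.sum_prod_type]
    have h0 : 0 < 2 * xs s p := by linarith [hx p]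
    have h1 := (le_min_iff.1 (cnt_bd h0 (ht p) n).1).2
    have h2 : ∀ k : Fin n, (∑ j : Fin 5 × Fin 2, if lv p k ≤ t p then om p else 0) =
        5 * s.m p * if (((k : ℕ) : ℝ) + 1) * (2 * xs s p) ≤ t p then 2 * xs s p else 0 :=
      fun k => by
        simp only [lv, om, sum_const, card_univ, Fintype.card_prod, Fintype.card_fin, nsmul_eq_mul]
        split_ifs <;> push_cast <;> ring
    simp only [h2, ← mul_sum]
    rw [mul_assoc]
    exact mul_le_mul_of_nonneg_left (mul_le_mul_of_nonneg_left h1 (hs.m_lo p)) (by norm_num)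
  · have k1 := dep_ge ((hs.good _).d_pos hxy) (hR _) (hs.good _).lam_pos (hs.good _).log_lam
      (deep _ _ _ k)
    have k2 := dep_ge ((hs.good _).d_pos hxy) (hR _) (hs.good _).lam_pos
      ((hs.lam_bar (e i).1).symm ▸ (hs.good (e i).1).log_lam)
      (g1 _ _ _ _ _ (Nat.pair_eq_pair.1 (Nat.pair_eq_pair.1 k).2).2)
    rw [← min_add_add_right]
    exact le_min (le_trans (le_add_of_nonneg_right (l20 _ _)) k1) k2
  · have k1 := deep _ _ _ k
    simp only [l2, ← add_assoc] at k1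
    exact k1
  · have nn : ∀ (c : Prop) [Decidable c] (q : PL), 0 ≤ if c then om q else 0 :=
      fun c _ q => by split_ifs; exacts [om0 _, le_rfl]
    refine le_trans ?_ (mul_le_mul_of_nonneg_left (e.sum_comp fun a =>
      if a.1 = p ∧ cl a y = cl a z then om a.1 else 0).symm.le (by norm_num))
    rw [Fintype.sum_prod_type]
    refine le_trans ?_ (mul_le_mul_of_nonneg_left (single_le_sum
      (fun q _ => sum_nonneg fun b _ => nn _ _) (mem_univ p)) (by norm_num))
    have h0 : 0 < 2 * xs s p := by linarith [hx p]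
    have hxp := hx p
    set M := min (dep s R p y z - lq R rq p y - ga s L p / 4) (dep s R (s.bar p) y z) with hM
    have M1 : M ≤ dep s R p y z - l2 p y := (min_le_left _ _).trans_eq (by simp only [l2]; ring)
    have M2 : M ≤ dep s R (s.bar p) y z := min_le_right _ _
    rcases le_or_gt (M - 3 * xs s p) 0 with c0 | c0
    · exact le_trans (mul_nonpos_of_nonneg_of_nonpos (hs.m_lo p) (by linarith))
        (mul_nonneg (by norm_num) (sum_nonneg fun b _ => nn _ _))
    have d1 : dep s R p y z ≤ n * (2 * xs s p) := by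
      refine le_trans (Real.log_le_log (div_pos (hR p) ((hs.good p).d_pos hyz)) ?_)
        ((hn p).trans (mul_le_mul_of_nonneg_left (by linarith [h.xi_le p]) (Nat.cast_nonneg n)))
      have := (hs.good p).rlo_pos
      exact div_le_div_of_nonneg_left (hR p).le (by positivity) ((hs.good p).d_lo y z hyz)
    have h1 := (cnt_bd h0 c0.le n).2
    rw [min_eq_right (by linarith [l20 p y])] at h1
    have h2 := mul_le_mul_of_nonneg_left h1 (hs.m_lo p)
    rw [mul_sum, show M - 3 * xs s p - 2 * xs s p = M - 5 * xs s p by ring] at h2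
    rw [Fintype.sum_prod_type, mul_sum]
    refine h2.trans (sum_le_sum fun k _ => ?_)
    split_ifs with c
    · obtain ⟨j2, hj⟩ := floors (div_nonneg (l20 p y) h0.le) (div_nonneg (l20 p z) h0.le) (by
        rw [← sub_div, abs_div, abs_of_pos h0, div_le_iff₀ h0]
        simp only [l2, add_sub_add_right_eq_sub]
        linarith)
      have hj' : io p j2 y = io p j2 z := hj
      have c1 : ((io p j2 y : ℝ) + 1) * (2 * xs s p) + lv p k ≤ dep s R p y z := by
        have := io2 p j2 y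
        simp only [lv]
        linarith
      have c2 : lv p k ≤ dep s R (s.bar p) y z := by
        simp only [lv]
        linarith
      obtain ⟨j, j1, j3⟩ := common _ _
        (g2 p _ y z (le_of_dep ((hs.good _).d_pos hyz) (hR _) c1))
        (g2 (s.bar p) _ y z (le_of_dep ((hs.good _).d_pos hyz) (hR _) c2))
      refine le_trans (le_of_eq ?_) (mul_le_mul_of_nonneg_left
        (single_le_sum (fun b _ => nn _ _) (mem_univ (j, j2))) (by norm_num))
      rw [if_pos ⟨rfl, Nat.pair_eq_pair.2 ⟨hj', Nat.pair_eq_pair.2 ⟨by rw [← hj']; exact j1, j3⟩⟩⟩]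
      simp only [om]
      ring
    · rw [mul_zero]
      exact mul_nonneg (by norm_num) (sum_nonneg fun b _ => nn _ _)

end

section

open Crare1 in
theorem rare1 (h : SUMM) : RARE1 := by
  intro N X PL K _ _ _ s A η Z R L G rq cn W ε hN hF D hD Z' hZ' t e ht he he1 hq hE
  classical
  let E : X → X → Prop := fun y z => y ≠ z ∧ t ≤ 8 * om2 D y z
  have hed : ed Z' (fun y z => t ≤ 8 * om2 D y z) = ec E Z' Z' := by
    unfold ed ec
    congr
  rw [hed] at hE
  have hLb := hN.L_big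
  have hL1 := hN.L_one
  have hL0 : 0 < N.L := by linarith
  have hLq := hN.L_q
  have hqb := hN.q_big
  have hq1 : (1 : ℝ) ≤ N.q := le_trans (by norm_num) hqb
  have hq0 : (0 : ℝ) < N.q := by linarith
  have hcb := hF.card_big hN
  have hn0 : (0 : ℝ) < Z.card := (pow_pos hq0 _).trans_le hcb
  have hW := hF.W_big
  have hW0 : 0 ≤ W := by linarith
  have hm := hN.m_lo
  have he4 : 0 < e / 4 := by positivity
  obtain ⟨S, hS, hcut⟩ := mcut X E Z' fun x k => k.1 rfl
  have hcut' : (ec E Z' Z' : ℝ) ≤ 4 * ec E S (Z' \ S) := by exact_mod_cast hcut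
  obtain ⟨m, hm'⟩ : ∃ m, N.m = m + 1 := ⟨N.m - 1, by omega⟩
  obtain ⟨T, hT, T', hT', k1, k2, hX⟩ := extm X E S (Z' \ S) (e / 4) Z.card Z.card m he4 hn0 hn0
    (Nat.cast_le.2 (card_le_card (hS.trans hZ')))
    (Nat.cast_le.2 (card_le_card (sdiff_subset.trans hZ'))) (by nlinarith)
  rw [← hm'] at k1 k2
  have hTZ : T ⊆ Z := hT.trans (hS.trans hZ')
  have hTZ' : T' ⊆ Z := hT'.trans (sdiff_subset.trans hZ')
  have hd : Disjoint T T' :=
    Finset.disjoint_of_subset_left hT (Finset.disjoint_of_subset_right hT' disjoint_sdiff)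
  have big : ∀ U : Finset X, (e / 4) ^ N.m * Z.card ≤ U.card →
      (Z.card : ℝ) ≤ (N.q : ℝ) ^ 40 * U.card := fun U k =>
    (le_mul_of_one_le_left hn0.le hq).trans (by
      have := mul_le_mul_of_nonneg_left k (pow_pos hq0 40).le
      linarith)
  have big2 : ∀ U : Finset X, (Z.card : ℝ) ≤ (N.q : ℝ) ^ 40 * U.card →
      (N.q : ℝ) ^ 960 ≤ U.card := fun U k => by
    have := hcb.trans k
    rw [show 1000 = 40 + 960 from rfl, pow_add] at this
    exact le_of_mul_le_mul_left this (pow_pos hq0 40)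
  have fr : ∀ U : Finset X, (Z.card : ℝ) ≤ (N.q : ℝ) ^ 40 * U.card →
      4 * Z.card / (N.q : ℝ) ^ 45 * (((N.q ^ 3 : ℕ) : ℝ) + 1) ≤ U.card := fun U k => by
    push_cast
    rw [div_mul_eq_mul_div, div_le_iff₀ (by positivity)]
    have b1 : (1 : ℝ) ≤ (N.q : ℝ) ^ 3 := one_le_pow₀ hq1
    have b2 : (8 : ℝ) ≤ (N.q : ℝ) ^ 2 := by nlinarith
    calc 4 * (Z.card : ℝ) * ((N.q : ℝ) ^ 3 + 1)
        ≤ 4 * ((N.q : ℝ) ^ 40 * U.card) * ((N.q : ℝ) ^ 3 + (N.q : ℝ) ^ 3) := by gcongr
      _ = 8 * (U.card * (N.q : ℝ) ^ 43) := by ring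
      _ ≤ (N.q : ℝ) ^ 2 * (U.card * (N.q : ℝ) ^ 43) := by gcongr
      _ = U.card * (N.q : ℝ) ^ 45 := by ring
  have c1 := big T k1
  have c2 := big T' k2
  have c3 := big2 T c1
  have c4 := big2 T' c2
  have hT0 : (0 : ℝ) < T.card := (pow_pos hq0 _).trans_le c3
  have hT0' : (0 : ℝ) < T'.card := (pow_pos hq0 _).trans_le c4
  have hr : 0 < 1 / N.L ^ 3 := by positivity
  have hr2 : 1 / N.L ^ 3 ≤ 1 / 2 :=
    one_div_le_one_div_of_le (by norm_num)
      (le_trans (le_trans (by norm_num) hLb) (le_self_pow₀ hL1 (by norm_num)))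
  have hb2 : 2 ≤ N.q ^ 3 := by
    have : (2 : ℝ) ≤ (N.q : ℝ) ^ 3 :=
      le_trans (le_trans (by norm_num) hqb) (le_self_pow₀ hq1 (by norm_num))
    exact_mod_cast this
  obtain ⟨I, hI, hI'⟩ := sp2 hF.ari hF.cen hD T T' (N.q ^ 3) (4 * Z.card / (N.q : ℝ) ^ 45)
    (4 * Z.card / (N.q : ℝ) ^ 45) (1 / N.L ^ 3) (300 / (N.q : ℝ) ^ 3) hTZ hTZ' hd
    (card_pos.1 (Nat.cast_pos.1 hT0)) (card_pos.1 (Nat.cast_pos.1 hT0')) hb2 (by positivity)
    (by positivity) (fun k hk => Rare.free_sub (hF.free k hk) hTZ)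
    (fun k hk => Rare.free_sub (hF.free k hk) hTZ') (fr T c1) (fr T' c2) hr hr2
    (by push_cast; rw [div_mul_cancel₀ _ (by positivity)])
  have hu := hN.u_pos
  have hu4 : 4 * N.u ≤ 1 := by
    have := hN.u_le
    have : (1 : ℝ) / 10 ^ 30 ≤ 1 / 4 := by norm_num
    linarith
  have d1 : 4 * (Z.card : ℝ) ≤ (T.card : ℝ) ^ 2 := by
    have b1 : 4 * (N.q : ℝ) ^ 40 ≤ (N.q : ℝ) ^ 960 := by
      rw [show 960 = 920 + 40 from rfl, pow_add]
      exact mul_le_mul_of_nonneg_right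
        (le_trans (le_trans (by norm_num) hqb) (le_self_pow₀ hq1 (by norm_num))) (by positivity)
    have b2 := mul_le_mul_of_nonneg_right (b1.trans c3) hT0.le
    rw [sq]
    linarith
  have d2 : 2 ≤ (1 / N.L ^ 3) ^ 20 * (T.card : ℝ) := by
    rw [one_div_pow, one_div_mul_eq_div, le_div_iff₀ (by positivity), ← pow_mul,
      show 3 * 20 = 30 * 2 from rfl, pow_mul]
    refine le_trans ?_ c3
    rw [show 960 = 958 + 2 from rfl, pow_add]
    exact mul_le_mul (le_trans (le_trans (by norm_num) hqb) (le_self_pow₀ hq1 (by norm_num)))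
      (pow_le_pow_left₀ (by positivity) hLq 2) (by positivity) (by positivity)
  have key := h X PL D E T T' (e / 4) (1 / N.L ^ 3) Z.card (1 / (2 * N.u)) (t / 8) (6 * W) W
    (300 / (N.q : ℝ) ^ 3) m I hD.om_lo hX (by omega) he4 hr (by linarith) (by positivity)
    (hm' ▸ hB hu hu4 hL1 hN.mL) hW0 (by positivity) (Nat.cast_le.2 (card_le_card hTZ')) d1 d2
    (fun y _ z _ k => by have := k.2; linarith)
    (fun y hy z hz k => (dpw2 hF.good hF.cen hD).1 y (hTZ hy) z (hTZ hz) k) hI hI'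
  have k3 := Crare1.num hLb hLq hW0 ht he4 (he0 he4 (by linarith) hm hq)
  refine ⟨T, hT.trans hS, T', hT'.trans sdiff_subset, hd, k1, k2, ?_⟩
  generalize ∑ y ∈ T, ∑ z ∈ T', omh D T T' ((1 / N.L ^ 3) ^ 20) ((1 / N.L ^ 3) ^ 60) y z = V
    at key ⊢
  have k4 : t / 16 ≤ 1 / (2 * N.u) * V / (T.card * T'.card) := by linarith
  rw [one_div_mul_eq_div, div_div, div_le_div_iff₀ (by norm_num) (by positivity)] at k4
  linarith

end

section

theorem rare2 (h1 : RARE1) (h2 : HVC) : RARE2 := by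
  intro N X PL K _ _ _ s A η Z R L G rq cn W ε hN h D hD Z' hZ' t e ht he he1 hq hed
  obtain ⟨T₁, hT₁, T₂, hT₂, hdis, c1, c2, hsum⟩ :=
    h1 N X PL K s A η Z R L G rq cn W ε hN h D hD.good Z' hZ' t e ht he he1 hq hed
  have hL := hN.L_one
  have hZ : (0 : ℝ) < Z.card := lt_of_lt_of_le (by have := hN.q_big; positivity) (h.card_big hN)
  have p1 : (0 : ℝ) < T₁.card := lt_of_lt_of_le (by positivity) c1
  have p2 : (0 : ℝ) < T₂.card := lt_of_lt_of_le (by positivity) c2
  set a := (1 / N.L ^ 3) ^ 20 with ha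
  set a' := (1 / N.L ^ 3) ^ 60 with ha'
  have haa : a' ≤ a := pow_le_pow_of_le_one (by positivity)
    ((div_le_one (by positivity)).2 (one_le_pow₀ hL)) (by norm_num)
  obtain ⟨T, hT, T', hT', hc, hbig, hs, B, hB, hBc, hsh⟩ : ∃ T ⊆ T₁, ∃ T' ⊆ T₂, T.card = T'.card ∧
      (e / 4) ^ N.m * Z.card ≤ T.card ∧
      N.u * t * (T.card : ℝ) ^ 2 ≤ ∑ y ∈ T, ∑ z ∈ T', 8 * omh D T₁ T₂ a a' y z ∧
      ∃ B ⊆ T ∪ T', B.card = T.card ∧
        ∀ i y, a ≤ D.sh i T₁ y → a' ≤ D.sh i T₂ y → a' ≤ D.sh i B y := by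
    simp only [← mul_sum]
    rcases le_total T₁.card T₂.card with hle | hle
    · obtain ⟨S, hS, hSc, h3⟩ := Crare2.cut (fun z => ∑ y ∈ T₁, omh D T₁ T₂ a a' y z) _ _ T₂ rfl hle
      refine ⟨T₁, Subset.refl _, S, hS, hSc.symm, c1, ?_, T₁, subset_union_left, rfl,
        fun i y h4 _ => haa.trans h4⟩
      rw [sum_comm] at hsum ⊢
      refine le_of_mul_le_mul_left ?_ p2
      nlinarith [mul_le_mul_of_nonneg_left hsum p1.le]
    · obtain ⟨S, hS, hSc, h3⟩ := Crare2.cut (fun y => ∑ z ∈ T₂, omh D T₁ T₂ a a' y z) _ _ T₁ rfl hle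
      refine ⟨S, hS, T₂, Subset.refl _, hSc, hSc ▸ c2, ?_, T₂, subset_union_right, hSc.symm,
        fun i y _ h4 => h4⟩
      rw [hSc]
      refine le_of_mul_le_mul_left ?_ p1
      nlinarith [mul_le_mul_of_nonneg_left hsum p2.le]
  have hd : Disjoint T T' := hdis.mono hT hT'
  have hU : ((T ∪ T').card : ℝ) = 2 * B.card := by
    rw [card_union_of_disjoint hd, ← hc, hBc]; push_cast; ring
  have pB : (0 : ℝ) < B.card := by rw [hBc]; exact lt_of_lt_of_le (by positivity) hbig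
  refine ⟨T, hT.trans hT₁, T', hT'.trans hT₂, hd, hc, hbig, fun y z => 8 * omh D T₁ T₂ a a' y z,
    fun i => (N.q : ℝ) ^ 50 * (Z ∩ (fam s Z R L rq).S i).card ≤ Z.card ∧
      ((T ∪ T').card : ℝ) / N.L ^ 200 ≤ ((T ∪ T') ∩ (fam s Z R L rq).S i).card,
    fun y hy z hz => ?_, hs, fun i hi => ⟨hi.1, ?_⟩⟩
  · have h0 : 0 ≤ omh D T₁ T₂ a a' y z :=
      sum_nonneg fun i _ => by split_ifs; exacts [hD.good.om_lo i, le_rfl]
    have h3 : omh D T₁ T₂ a a' y z ≤ om2 D y z := sum_le_sum fun i _ => by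
      split_ifs with h4 h5
      exacts [le_rfl, absurd h4.1 h5, hD.good.om_lo i, le_rfl]
    have h4 := h2 N X PL K s A η Z R L G rq cn W ε hN h D hD y (hZ' (hT₁ (hT hy))) z
      (fun hyz => disjoint_left.1 hd hy (hyz ▸ hz)) (T ∪ T') (((T ∪ T').card : ℝ) / N.L ^ 200)
      (fun i => D.cl i y = D.cl i z ∧ a ≤ D.sh i T₁ y ∧ a' ≤ D.sh i T₂ y) fun i hi => ⟨hi.1, by
        have h5 := hsh i y hi.2.1 hi.2.2
        rw [Dbl.sh, le_div_iff₀ pB] at h5
        have h6 : ((D.cell i B y).card : ℝ) ≤ (D.cell i (T ∪ T') y).card := by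
          exact_mod_cast card_le_card (filter_subset_filter _ hB)
        have h7 : 2 ≤ a' * N.L ^ 200 := by
          have h8 : a' * N.L ^ 200 = N.L ^ 20 := by rw [ha']; field_simp
          have := hN.L_big
          rw [h8]
          exact le_trans (by linarith) (le_self_pow₀ hL (by norm_num))
        rw [hU, div_le_iff₀ (by positivity)]
        calc 2 * (B.card : ℝ) ≤ a' * N.L ^ 200 * B.card := by gcongr
          _ = a' * B.card * N.L ^ 200 := by ring
          _ ≤ _ := by gcongr; exact h5.trans h6⟩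
    have h5 : omh D T₁ T₂ a a' y z ≤ _ := le_of_eq_of_le (by unfold omh; congr!) h4
    exact ⟨by linarith, by linarith, by linarith⟩
  · have := hi.2
    rwa [div_le_iff₀ (by positivity), mul_comm] at this

end

section

open Cmirp in
theorem cmirp : CMIRP := by
  intro N X PL K _ _ _ s A η Z R L G rq cn W ε hN h p x hx T c a a' ζ r₂ r₃ z0 z1 r20 hr2 r30 hr3
    hcZ hne hf
  classical
  have hc := h.good.good p
  have hb := h.good.good (s.bar p)
  have cp : (0 : ℝ) < c.card := by exact_mod_cast hne.card_pos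
  have hcx : ∀ y ∈ c, y ≠ x := fun y hy => (mem_erase.1 (hcZ hy)).1
  have hcz : ∀ y ∈ c, y ∈ Z := fun y hy => (mem_erase.1 (hcZ hy)).2
  obtain ⟨v, hv, v1, v2⟩ := least ((s.c p).d x) c (2 * ζ * c.card) (by positivity) (by nlinarith)
  have r1 : 0 < (s.c p).d x v := hc.d_pos (hcx v hv).symm
  have rb : 0 < (s.c (s.bar p)).d x v := hb.d_pos (hcx v hv).symm
  have f1 : ∀ y ∈ c, (s.c p).d x y * (s.c (s.bar p)).d x y =
      (s.c p).d x v * (s.c (s.bar p)).d x v :=
    fun y hy => h.good.f1 p x y v (hcx y hy) (hcx v hv) (hf y hy v hv)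
  set lb := (s.c (s.bar p)).lam with hlb
  have lb0 : 0 < lb := hb.lam_pos
  set β := min (rB s R L rq (s.bar p) x) (r₃ / lb) with hβ
  have β0 : 0 < β := lt_min (h.rB_pos _ hx) (by positivity)
  set Λ := Real.log (β / (lb * (s.c (s.bar p)).d x v)) with hΛ
  refine ⟨max 0 ((Λ - (s.c (s.bar p)).eta) / 4), le_max_left _ _,
    c.filter fun z => (s.c p).d x v ≤ (s.c p).d x z, filter_subset _ _, ?_, fun z hz => ?_,
    fun y hy => ?_⟩
  · refine le_trans (Nat.cast_le.2 (card_le_card fun z hz => ?_)) v2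
    obtain ⟨k1, k2⟩ := mem_sdiff.1 hz
    exact mem_filter.2 ⟨k1, lt_of_not_ge fun e => k2 (mem_filter.2 ⟨k1, e⟩)⟩
  · obtain ⟨k1, k2⟩ := mem_filter.1 hz
    refine max_le (Cells.W_nonneg hb) ?_
    rcases le_or_gt (lb * (s.c (s.bar p)).d x v) β with e | e
    · have e1 : (s.c (s.bar p)).rlo ≤ lb * (s.c (s.bar p)).d x v := by
        have := hb.d_lo x v (hcx v hv).symm
        have := hb.rlo_pos
        have := le_mul_of_one_le_left rb.le hb.lam_lo
        linarith
      have e2 : β ≤ (s.c (s.bar p)).rhi :=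
        ((min_le_left _ _).trans (h.rB_le _ hx)).trans (h.R_hi _)
      refine (hb.c3 x _ β e1 e e2).trans (Cells.W_mono hb fun i hi ⟨i1, i2, i3, i4⟩ => ?_)
      refine ⟨h.bc_of_lt hi hx i1 (i3.trans_le (min_le_left _ _)), i1, i4 z ?_, ?_⟩
      · have e3 : (s.c (s.bar p)).d x z ≤ (s.c (s.bar p)).d x v := by
          have e4 := f1 z k1
          have e5 := mul_le_mul_of_nonneg_right k2 (hb.d_nonneg x z)
          exact le_of_mul_le_mul_left (e5.trans_eq e4) r1
        rw [le_div_iff₀ lb0]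
        nlinarith
      · have e3 : lb * (s.c (s.bar p)).ρ i < r₃ := by
          have := i3.trans_le (min_le_right _ _)
          rwa [lt_div_iff₀ lb0, mul_comm] at this
        exact le_trans (Nat.cast_le.2 (card_le_card (Cells.inter_subset_ball hb hi i1)))
          (hr3 _ e3)
    · have e1 : Λ ≤ 0 := Real.log_nonpos (by positivity) ((div_le_one (by positivity)).2 e.le)
      linarith [hb.eta_lo, Cells.W_nonneg hb (φ := fun i => bc s Z R L rq (s.bar p) i ∧ x ∈ i.2 ∧
        z ∈ i.2 ∧ ((T ∩ i.2).card : ℝ) ≤ a')]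
  have n1 : (0 : ℝ) ≤ if y ∈ c.filter fun z => (s.c p).d x v ≤ (s.c p).d x z then 0 else
      4 * max 0 ((Λ - (s.c (s.bar p)).eta) / 4) + (s.c (s.bar p)).eta := by
    split_ifs
    exacts [le_rfl, add_nonneg (mul_nonneg (by norm_num) (le_max_left _ _)) hb.eta_lo]
  have n2 : (0 : ℝ) ≤ if (s.c p).d x y < r₂ then
      lq R rq (s.bar p) x + max 0 (Real.log (R (s.bar p) / r₃)) else 0 := by
    split_ifs
    exacts [add_nonneg (lq_nonneg _ _ _ _) (le_max_left _ _), le_rfl]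
  have n3 := h.clp_lo p x y
  by_cases hex : ∃ i ∈ (s.c p).I, bc s Z R L rq p i ∧ x ∈ i.2 ∧ y ∈ i.2
  swap
  · rw [Cells.W_zero fun i hi k => hex ⟨i, hi, k.1, k.2.1, k.2.2.1⟩]
    linarith
  obtain ⟨i₀, j1, j2, j3, j4⟩ := hex
  have hcl : clp s L G rq p x y = ga s L p + G (s.bar p) x + G (s.bar p) y :=
    if_pos (Or.inl (h.bc_d j1 j2 hx j3 j4))
  have g1 := h.cen.G_lo (s.bar p) x
  have g2 := h.cen.G_lo (s.bar p) y
  have g3 := h.ga_ge p
  have g4 := h.xi_le p
  have g5 := h.xib_le p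
  have g6 := h.xs_pos p
  have hxy := (hcx y hy).symm
  have b1 := cut hc hxy r1 (fun i => bc s Z R L rq p i ∧ x ∈ i.2 ∧ y ∈ i.2 ∧
      ((T ∩ i.2).card : ℝ) ≤ a ∧ ((c ∩ i.2).card : ℝ) < 2 * ζ * c.card) fun i _ k => by
    obtain ⟨b, k1, k2⟩ := miss (S := i.2)
      (filter_subset (fun z => (s.c p).d x z ≤ (s.c p).d x v) c) (a := 0)
      (by linarith [k.2.2.2.2]) le_rfl
    exact ⟨k.2.1, k.2.2.1, b, k2, (mem_filter.1 k1).2⟩
  have b2 := cut hc hxy r20 (fun i => bc s Z R L rq p i ∧ x ∈ i.2 ∧ y ∈ i.2 ∧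
      ((T ∩ i.2).card : ℝ) ≤ a ∧ ((c ∩ i.2).card : ℝ) < 2 * ζ * c.card) fun i _ k => by
    obtain ⟨b, k1, k2⟩ := miss (Cells.ball_subset (c := s.c p) (Y := T) (x := x) (r := r₂))
      (a := 0) (by linarith [k.2.2.2.1]) le_rfl
    exact ⟨k.2.1, k.2.2.1, b, k2, (Cells.mem_ball.1 k1).2⟩
  rcases le_or_gt ((s.c p).d x v) ((s.c p).d x y) with e1 | e1
  · linarith [log_le hc r1 e1]
  rcases le_or_gt r₂ ((s.c p).d x y) with e2 | e2
  · linarith [log_le hc r20 e2]
  have hm : y ∉ c.filter fun z => (s.c p).d x v ≤ (s.c p).d x z := fun k =>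
    absurd (mem_filter.1 k).2 (not_le.2 e1)
  rw [if_neg hm, if_pos e2, hcl]
  have d0 := hc.d_pos hxy
  have db := hb.d_pos hxy
  have Rb := h.cen.R_pos (s.bar p)
  have l1 := congrArg Real.log (f1 y hy)
  rw [Real.log_mul d0.ne' db.ne', Real.log_mul r1.ne' rb.ne'] at l1
  have l2 := h.dep_ge (s.bar p) hx (hcz y hy) hxy
  unfold dep at l2
  rw [Real.log_div Rb.ne' db.ne'] at l2
  have l3 : max (G (s.bar p) x) (G (s.bar p) y) ≤ G (s.bar p) x + G (s.bar p) y :=
    max_le (by linarith) (by linarith)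
  have l4 : Λ = Real.log β - Real.log lb - Real.log ((s.c (s.bar p)).d x v) := by
    rw [hΛ, Real.log_div β0.ne' (by positivity), Real.log_mul lb0.ne' rb.ne']; ring
  have l5 : Real.log lb ≤ (s.c (s.bar p)).xi := hb.log_lam
  have l6 : 0 ≤ Real.log lb := Real.log_nonneg hb.lam_lo
  have m1 := lq_nonneg R rq (s.bar p) x
  have m2 : 0 ≤ max 0 (Real.log (R (s.bar p) / r₃)) := le_max_left _ _
  have l7 : Real.log (R (s.bar p)) - Real.log β ≤ lq R rq (s.bar p) x +
      max 0 (Real.log (R (s.bar p) / r₃)) + ga s L p + 3 * Real.log lb := by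
    rcases min_choice (rB s R L rq (s.bar p) x) (r₃ / lb) with k | k
    · rw [hβ, k, h.log_rB _ hx, h.ga_bar]; linarith
    · have m3 : Real.log (R (s.bar p) / r₃) ≤ max 0 (Real.log (R (s.bar p) / r₃)) :=
        le_max_right _ _
      rw [Real.log_div Rb.ne' r30.ne'] at m3
      rw [hβ, k, Real.log_div r30.ne' lb0.ne']
      rw [Real.log_div Rb.ne' r30.ne']
      linarith
  have l8 : (Λ - (s.c (s.bar p)).eta) / 4 ≤ max 0 ((Λ - (s.c (s.bar p)).eta) / 4) :=
    le_max_right _ _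
  have l9 : 0 ≤ max 0 ((Λ - (s.c (s.bar p)).eta) / 4) := le_max_left _ _
  have l10 : max 0 (Real.log ((s.c p).lam * (s.c p).d x v / (s.c p).d x y)) ≤
      (s.c p).xi + (Real.log ((s.c p).d x v) - Real.log ((s.c p).d x y)) := by
    have := Real.log_le_log d0 e1.le
    rw [Real.log_div (by have := hc.lam_pos; positivity) d0.ne',
      Real.log_mul hc.lam_pos.ne' r1.ne']
    exact max_le (by linarith [hc.xi_nonneg]) (by linarith [hc.log_lam])
  linarith

end

section

open Cmir Classical in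
theorem cmir (h1 : CRAD) (h2 : CMIRP) : CMIR := by
  intro N X PL K _ _ _ s A η Z R L G rq cn W ε hN h x hx T hT hxT a a' ζ a1 a2 aa aT z0 z1
  have hs := h.good
  have m0 := hs.m_lo
  choose r2 p2 q2 s2 using fun p => rad (hs.good p) hxT a1 (aa.trans_lt aT)
  choose r3 p3 q3 s3 using fun p => rad (hs.good p) hxT (a1.trans aa) aT
  obtain ⟨c1, c2⟩ := h1 N X PL K s A η Z R L G rq cn W ε hN h x hx
  have E0 : ∀ p, 0 ≤ lq R rq (s.bar p) x + max 0 (Real.log (R (s.bar p) / r3 (s.bar p))) :=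
    fun p => add_nonneg (lq_nonneg _ _ _ _) (le_max_left _ _)
  refine ⟨fun y => ∑ p, s.m p * if (s.c p).d x y < r2 p then
      lq R rq (s.bar p) x + max 0 (Real.log (R (s.bar p) / r3 (s.bar p))) else 0,
    fun y => sum_nonneg fun p _ => mul_nonneg (m0 p) (by split_ifs; exacts [E0 p, le_rfl]),
    ?_, fun c hc hl => ?_⟩
  · have k1 := c1 T hT r3 (a' / 2) (fun p => by
      have := q3 p
      have e : (((s.c p).ball T x (r3 p)).card : ℝ) ≤
          (((s.c p).ball T x (r3 p)).erase x).card + 1 := by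
        exact_mod_cast tsub_le_iff_right.1 pred_card_le_card_erase
      linarith) (by linarith)
    have k2 : ∑ p, s.m p * max 0 (Real.log (R p / r3 p)) ≤ 4 * W * T.card / a' := by
      rw [le_div_iff₀ (by linarith)]
      linarith
    have k3 : 4 * (N.q : ℝ) ^ 50 * W ≤ (N.q : ℝ) ^ 51 * W := by
      refine mul_le_mul_of_nonneg_right ?_ (by linarith [h.W_big])
      rw [pow_succ' _ 50]
      exact mul_le_mul_of_nonneg_right (le_trans (by norm_num) hN.q_big) (by positivity)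
    have k4 := hs.sum_bar fun p => lq R rq p x + max 0 (Real.log (R p / r3 p))
    rw [sum_comm]
    simp only [← mul_sum]
    refine (sum_le_sum fun p _ => mul_le_mul_of_nonneg_left
      (few (by linarith) (E0 p) (s2 p)) (m0 p)).trans ?_
    simp only [mul_left_comm _ a, ← mul_sum]
    refine mul_le_mul_of_nonneg_left ?_ (by linarith)
    rw [k4]
    simp only [mul_add, sum_add_distrib]
    linarith
  rcases c.eq_empty_or_nonempty with rfl | hne
  · exact ⟨0, le_rfl, by simp, by simp⟩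
  choose Aw A0 M _ M1 M2 M3 using fun p => h2 N X PL K s A η Z R L G rq cn W ε hN h p x hx T c
    a a' ζ (r2 p) (r3 (s.bar p)) z0 z1 (p2 p) (q2 p) (p3 _) (s3 _) hc hne hl
  have c0 : (0 : ℝ) ≤ c.card := Nat.cast_nonneg _
  refine ⟨∑ p, s.m p * Aw p, sum_nonneg fun p _ => mul_nonneg (m0 p) (A0 p), ?_, ?_⟩
  · have k1 : ∀ p, (∑ y ∈ c ∩ T, if y ∈ M p then 0 else 4 * Aw p + (s.c (s.bar p)).eta) ≤
        8 * ζ * c.card * Aw p + c.card * (s.c (s.bar p)).eta := fun p => by
      have e0 := (hs.good (s.bar p)).eta_lo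
      have e1 := off (M := M p) (inter_subset_left (s₁ := c) (s₂ := T))
        (E := 4 * Aw p + (s.c (s.bar p)).eta) (by linarith [A0 p])
      have e2 := mul_le_mul_of_nonneg_right (M1 p) (A0 p)
      have e3 : ((c \ M p).card : ℝ) ≤ c.card := by exact_mod_cast card_le_card sdiff_subset
      have e4 := mul_le_mul_of_nonneg_right e3 e0
      linarith
    have k2 := sum_le_sum fun p (_ : p ∈ univ) => mul_le_mul_of_nonneg_left (k1 p) (m0 p)
    have k3 := mul_le_mul_of_nonneg_left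
      ((hs.sum_bar fun p => (s.c p).eta).le.trans h.ari.eta_sum) c0
    have k4 := sum_le_sum fun y (hy : y ∈ c ∩ T) => (fam_W s Z R L rq _).le.trans
      (sum_le_sum fun p _ => mul_le_mul_of_nonneg_left (M3 p y (mem_inter.1 hy).1) (m0 p))
    refine k4.trans ?_
    simp only [mul_add, sum_add_distrib, mul_left_comm _ (8 * ζ * c.card),
      mul_left_comm _ (c.card : ℝ), ← mul_sum] at k2
    simp only [mul_add (s.m _) (_ + _), mul_add (s.m _) (ite (_ ∈ _) _ _), sum_add_distrib, Clf,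
      mul_left_comm _ (2 : ℝ), ← mul_sum]
    rw [sum_comm]
    simp only [← mul_sum]
    linarith
  · have k1 := markov (c := c) (A := ∑ p, s.m p * Aw p) (b := 2 * ζ * c.card)
      (V := fun z => (fam s Z R L rq).W fun i => (fam s Z R L rq).b i ∧
        x ∈ (fam s Z R L rq).S i ∧ z ∈ (fam s Z R L rq).S i ∧
        ((T ∩ (fam s Z R L rq).S i).card : ℝ) ≤ a')
      (B := fun z => ∑ p, s.m p * if z ∈ M p then 0 else Aw p)
      (sum_nonneg fun p _ => mul_nonneg (m0 p) (A0 p)) (by positivity)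
      (fun z => sum_nonneg fun i _ => by split_ifs; exacts [fam_w_lo hs i, le_rfl])
      (fun z => sum_nonneg fun p _ => mul_nonneg (m0 p) (by split_ifs; exacts [le_rfl, A0 p]))
      (fun z _ => by
        have e := fam_W s Z R L rq fun p i => bc s Z R L rq p i ∧ x ∈ i.2 ∧ z ∈ i.2 ∧
          ((T ∩ i.2).card : ℝ) ≤ a'
        rw [← hs.sum_bar] at e
        refine le_trans ?_ (add_le_add e.ge le_rfl)
        rw [← sum_add_distrib]
        refine sum_le_sum fun p _ => ?_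
        rw [← mul_add]
        refine mul_le_mul_of_nonneg_left ?_ (m0 p)
        split_ifs with k
        · rw [add_zero]; exact M2 p z k
        · exact le_add_of_nonneg_left (Cells.W_nonneg (hs.good _)))
      (by
        rw [sum_comm, mul_sum]
        refine sum_le_sum fun p _ => ?_
        rw [← mul_sum, mul_left_comm]
        exact mul_le_mul_of_nonneg_left ((off Subset.rfl (A0 p)).trans
          (mul_le_mul_of_nonneg_right (M1 p) (A0 p))) (m0 p))
    linarith

end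

section

namespace Csep

variable {N : Nb} {X PL K : Type} [DecidableEq X] [Fintype PL] [Field K] {s : Sys X PL}
  {A : Ari X PL K} {η : ℝ} {Z : Finset X} {R L : PL → ℝ} {G rq : PL → X → ℝ} {cn : PL → X}
  {W ε : ℝ}

theorem place (h : Fm N s A η Z R L G rq cn W ε) (p : PL) {x y z : X} (hx : x ∈ Z) (hz : z ∈ Z)
    (hxy : x ≠ y) :
    max 0 (Real.log ((s.c p).d x z / (s.c p).d x y)) ≤
      4 * (s.c p).W (fun i => bc s Z R L rq p i ∧ x ∈ i.2 ∧ y ∈ i.2 ∧ z ∉ i.2) +
        min (max 0 (dep s R p x y)) (lq R rq p x) + ga s L p + G p x + G p z + 6 * (s.c p).xi := by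
  have hc := h.good.good p
  set Wp := (s.c p).W (fun i => bc s Z R L rq p i ∧ x ∈ i.2 ∧ y ∈ i.2 ∧ z ∉ i.2) with hWp
  have W0 : 0 ≤ Wp := Cells.W_nonneg hc
  have g0 := h.ga_pos p
  have Gx := h.cen.G_lo p x
  have Gz := h.cen.G_lo p z
  have x0 := hc.xi_nonneg
  have m0 : 0 ≤ min (max 0 (dep s R p x y)) (lq R rq p x) :=
    le_min (le_max_left _ _) (lq_nonneg _ _ _ _)
  refine max_le (by positivity) ?_
  by_cases hxz : x = z
  · rw [← hxz, hc.d_self, zero_div, Real.log_zero]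
    positivity
  have dy := hc.d_pos hxy
  have dz := hc.d_pos hxz
  have hl := hc.lam_pos
  have hR := h.cen.R_pos p
  have hB := h.rB_pos p hx
  have l0 : 0 ≤ Real.log (s.c p).lam := Real.log_nonneg hc.lam_lo
  have l1 := hc.log_lam
  have e1 := hc.eta_hi
  have e0 := hc.eta_lo
  have b1 := h.dep_ge p hx hz hxz
  have b2 : max (G p x) (G p z) ≤ G p x + G p z := max_le (by linarith) (by linarith)
  have b3 : dep s R p x y ≤ max 0 (dep s R p x y) := le_max_right _ _
  have k : Real.log (min (rB s R L rq p x) ((s.c p).d x z / (s.c p).lam)) ≤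
      4 * Wp + Real.log (s.c p).lam + Real.log ((s.c p).d x y) + (s.c p).eta := by
    set B := min (rB s R L rq p x) ((s.c p).d x z / (s.c p).lam) with hBd
    have B0 : 0 < B := lt_min hB (div_pos dz hl)
    rcases le_total ((s.c p).lam * (s.c p).d x y) B with o | o
    · have c3 := hc.c3 x _ B (by nlinarith [hc.d_lo x y hxy, hc.rlo_pos, hc.lam_lo]) o
        ((min_le_left _ _).trans ((h.rB_le p hx).trans (h.R_hi p)))
      have : _ ≤ Wp := c3.trans (Cells.W_mono hc fun i hi hj => ⟨h.bc_of_lt hi hx hj.1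
        (hj.2.2.1.trans_le (min_le_left _ _)), hj.1,
        hj.2.2.2 y (by rw [le_div_iff₀' hl]; exact hj.2.1), fun hzi => by
          have a1 := hc.c1 i hi x hj.1 z hzi
          have a2 := (lt_div_iff₀' hl).1 (hj.2.2.1.trans_le (min_le_right _ _))
          linarith⟩)
      rw [Real.log_div B0.ne' (by positivity), Real.log_mul hl.ne' dy.ne'] at this
      linarith
    · have := Real.log_le_log B0 o
      rw [Real.log_mul hl.ne' dy.ne'] at this
      linarith
  have dd : ∀ v, x ≠ v → dep s R p x v = Real.log (R p) - Real.log ((s.c p).d x v) :=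
    fun v hv => Real.log_div hR.ne' (hc.d_pos hv).ne'
  rw [dd z hxz] at b1
  rw [Real.log_div dz.ne' dy.ne']
  have q0 := lq_nonneg R rq p x
  rcases le_total (max 0 (dep s R p x y)) (lq R rq p x) with o | o
  · rw [min_eq_left o]
    have := dd y hxy
    linarith
  · rw [min_eq_right o]
    rcases le_total (rB s R L rq p x) ((s.c p).d x z / (s.c p).lam) with o' | o'
    · rw [min_eq_left o', h.log_rB p hx] at k
      linarith
    · rw [min_eq_right o', Real.log_div dz.ne' hl.ne'] at k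
      linarith

theorem ht_le (h : Fm N s A η Z R L G rq cn W ε) {x y z : X} (hx : x ∈ Z) (hz : z ∈ Z)
    (hxy : x ≠ y) :
    ht s x y z ≤ 4 * (fam s Z R L rq).DB x y z + lm2 s R rq x y + 410 * (ε * W) := by
  have k := h.good.sum_le fun p => place h p hx hz hxy
  simp only [mul_add, sum_add_distrib, mul_left_comm (s.m _) (4 : ℝ),
    mul_left_comm (s.m _) (6 : ℝ), ← mul_sum] at k
  rw [fam_DB]
  unfold ht lm2
  linarith [h.sum_ga, h.cen.G_sum x hx, h.cen.G_sum z hz, h.good.xi_sum, h.cen.eW]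

theorem ed_or {H H₁ H₂ : X → X → Prop}
    (h : ∀ x ∈ Z, ∀ y ∈ Z, x ≠ y → H x y → H₁ x y ∨ H₂ x y) : ed Z H ≤ ed Z H₁ + ed Z H₂ := by
  classical
  refine le_trans (card_le_card fun p hp => ?_) (card_union_le _ _)
  simp only [mem_union, mem_filter, mem_product] at hp ⊢
  exact (h _ hp.1.1 _ hp.1.2 hp.2.1 hp.2.2).imp (fun k => ⟨hp.1, hp.2.1, k⟩)
    fun k => ⟨hp.1, hp.2.1, k⟩

end Csep

theorem csep : CSEP := by
  classical
  intro N X PL K _ _ _ s A η Z R L G rq cn W ε hN h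
  have u0 := hN.u_pos
  have u1 : N.u ≤ 1 / 1000 := hN.u_le.trans (by norm_num)
  have W0 : 0 < W := by linarith [h.W_big]
  have l0 : ∀ x y, 0 ≤ lm2 s R rq x y := fun x y =>
    h.good.sum_nonneg fun p => le_min (le_max_left _ _) (lq_nonneg _ _ _ _)
  have mk : (ed Z fun x y => N.u ^ 5 * W < lm2 s R rq x y : ℝ) ≤ N.u ^ 2 * (Z.card : ℝ) ^ 2 := by
    refine le_of_mul_le_mul_right ?_ (show 0 < N.u ^ 5 * W by positivity)
    refine le_trans ?_ (h.al.trans_eq (by ring))
    have e : ∑ x ∈ Z, ∑ y ∈ Z.erase x, lm2 s R rq x y =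
        ∑ e ∈ (Z ×ˢ Z).filter fun e => e.1 ≠ e.2, lm2 s R rq e.1 e.2 := by
      rw [sum_filter, sum_product]
      refine sum_congr rfl fun x _ => ?_
      rw [← sum_filter]
      exact sum_congr (by ext y; simp [and_comm, eq_comm]) fun _ _ => rfl
    rw [e, ed, ← nsmul_eq_mul]
    refine (card_nsmul_le_sum _ (fun e : X × X => lm2 s R rq e.1 e.2) _
      fun e he => (mem_filter.1 he).2.2.le).trans
      (sum_le_sum_of_subset_of_nonneg (fun e he => ?_) fun e _ _ => l0 _ _)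
    exact mem_filter.2 ⟨(mem_filter.1 he).1, (mem_filter.1 he).2.1⟩
  have sp : ed Z (fun x y => Z.card ^ 9 <
      (Z.filter fun z => (fam s Z R L rq).DB x y z ≤ N.u ^ 10 * W).card ^ 10) ≤
      ed Z (fun x y => Z.card ^ 9 < (Z.filter fun z => ht s x y z ≤ N.u ^ 4 * W).card ^ 10) +
      ed Z fun x y => N.u ^ 5 * W < lm2 s R rq x y := by
    refine Csep.ed_or fun x hx y _ e2 e3 => ?_
    by_cases k : N.u ^ 5 * W < lm2 s R rq x y
    · exact Or.inr k
    refine Or.inl (e3.trans_le (Nat.pow_le_pow_left (card_le_card fun z hz => ?_) _))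
    obtain ⟨z1, z2⟩ := mem_filter.1 hz
    refine mem_filter.2 ⟨z1, (Csep.ht_le h hx z1 e2).trans ?_⟩
    have a1 := mul_le_mul_of_nonneg_right h.e_le W0.le
    have a2 : N.u ^ 10 ≤ N.u ^ 5 := pow_le_pow_of_le_one u0.le (by linarith) (by norm_num)
    have a3 := mul_le_mul_of_nonneg_right a2 W0.le
    have a4 : N.u ^ 5 * W = N.u * (N.u ^ 4 * W) := by ring
    have a5 : 0 < N.u ^ 4 * W := by positivity
    nlinarith [not_lt.1 k]
  have sp' := (Nat.cast_le (α := ℝ)).2 sp
  have hs := h.sep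
  have : N.u ^ 2 * (Z.card : ℝ) ^ 2 ≤ N.u / 2 * (Z.card : ℝ) ^ 2 :=
    mul_le_mul_of_nonneg_right (by nlinarith) (sq_nonneg _)
  push_cast at sp'
  linarith

end

section

theorem cmod (h1 : RDC) (h2 : CTOT) (h3 : DGA) (h4 : CLO) (h5 : TRIP) (h6 : OUT2) (h7 : RARE2)
    (h8 : CMIR) (h9 : CSEP) : MOD := by
  intro N X PL K _ _ _ s A η Z R L G rq cn W ε hN h
  classical
  obtain ⟨D, hD⟩ := h1 N X PL K s A η Z R L G rq cn W ε hN h
  obtain ⟨t1, t2, t3, t4, t5⟩ := h2 N X PL K s A η Z R L G rq cn W ε hN h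
  obtain ⟨c1, c2⟩ := h4 N X PL K s A η Z R L G rq cn W ε hN h
  have hW := h.W_big
  refine ⟨Σ p : PL, (s.c p).I, inferInstance, fam s Z R L rq, ∑ p, s.m p * (s.c p).K,
    fun y z => 8 * om2 D y z, Clf s L G rq, Ghf s L G, fam_w_lo h.good, by linarith, h.eta_lo, ?_,
    t1, t2, h3 N X PL K s A η Z R L G rq cn W ε hN h, fun y z => ?_, fun y hy z hz hyz => ?_,
    t3, t4, c1, c2, h5 N X PL K s A η Z R L G rq cn W ε hN h D hD, t5,
    h6 N X PL K s A η Z R L G rq cn W ε hN h, h7 N X PL K s A η Z R L G rq cn W ε hN h D hD,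
    h8 N X PL K s A η Z R L G rq cn W ε hN h, h9 N X PL K s A η Z R L G rq cn W ε hN h⟩
  · have q1 : (1 : ℝ) ≤ N.q := le_trans (by norm_num) hN.q_big
    have e1 : N.L ^ 10 ≤ Z.card := ((pow_le_pow_right₀ hN.L_one (by norm_num)).trans
      hN.L_q).trans ((le_self_pow₀ q1 (by norm_num)).trans (h.card_big hN))
    linarith [mul_le_mul_of_nonneg_left e1 h.eta_lo, h.eta]
  · refine mul_nonneg (by norm_num) (sum_nonneg fun i _ => ?_)
    split_ifs
    exacts [hD.good.om_lo i, le_rfl]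
  · have := (dpw2 h.good h.cen hD.good).1 y hy z hz hyz
    have e : om2 D y z ≤ 6 * W := by unfold om2; convert this
    linarith

end


end Pool.Agent.MP_ddf486_co.KV.L
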