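import Pool.Agent.MP_ddf486_co.KL.Ae
import Pool.Agent.MP_ddf486_co.KV.AllA

/-! Project KL: consequences of the pencil statement. -/

set_option autoImplicit false

noncomputable section

namespace Pool.Agent.MP_ddf486_co.KV.L

open Finset Filter

theorem pin_le (P : Finset Pl) : ∑ a ∈ P, (((P.image fun b => dist a b).erase 0).card : ℝ) ≤
    P.card * ((P.offDiag.image fun e => dist e.1 e.2).card : ℝ) := by
  rw [← nsmul_eq_mul]
  refine sum_le_card_nsmul _ _ _ fun a ha => Nat.cast_le.2 (card_le_card fun x hx => ?_)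
  obtain ⟨x0, hx⟩ := mem_erase.1 hx
  obtain ⟨y, hy, rfl⟩ := mem_image.1 hx
  exact mem_image.2 ⟨(a, y), mem_offDiag.2 ⟨ha, hy, dist_ne_zero.1 x0⟩, rfl⟩

/-- large extremal configurations satisfy the hypothesis with exponent one quarter -/
theorem extr_hyp : ∃ n₀ : ℕ, ∀ P : Finset Pl, n₀ ≤ P.card →
    (∀ P' : Finset Pl, P'.card = P.card → (P.offDiag.image fun e => dist e.1 e.2).card ≤
      (P'.offDiag.image fun e => dist e.1 e.2).card) →
    ∑ a ∈ P, (((P.image fun b => dist a b).erase 0).card : ℝ) ≤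
      (P.card : ℝ) ^ 2 / Real.log P.card ^ (1 / 4 : ℝ) := by
  obtain ⟨C, hC, L⟩ := all_land
  have ht : Tendsto (fun n : ℕ => Real.log n ^ (1 / 4 : ℝ)) atTop atTop :=
    (tendsto_rpow_atTop (by norm_num)).comp
      (Real.tendsto_log_atTop.comp tendsto_natCast_atTop_atTop)
  obtain ⟨n1, hn1⟩ := eventually_atTop.1 ((ht.eventually_ge_atTop C).and (eventually_ge_atTop 2))
  refine ⟨n1, fun P hn hmin => ?_⟩
  obtain ⟨g1, hP⟩ := hn1 _ hn
  have h2 : (2 : ℝ) ≤ P.card := by exact_mod_cast hP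
  have hl : 0 ≤ Real.log P.card := Real.log_nonneg (by linarith)
  obtain ⟨P', e, hP'⟩ := L _ hP
  have b : ((P.offDiag.image fun e => dist e.1 e.2).card : ℝ) ≤
      C * P.card / Real.sqrt (Real.log P.card) := le_trans (by exact_mod_cast hmin P' e) hP'
  have sq : Real.sqrt (Real.log P.card) =
      Real.log P.card ^ (1 / 4 : ℝ) * Real.log P.card ^ (1 / 4 : ℝ) := by
    rw [Real.sqrt_eq_rpow, ← Real.rpow_add' hl (by norm_num)]
    norm_num
  rw [sq] at b
  generalize Real.log P.card ^ (1 / 4 : ℝ) = t at b g1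
  have t0 : 0 < t := hC.trans_le g1
  have b1 : C * P.card / (t * t) ≤ P.card / t := by
    rw [div_le_div_iff₀ (mul_pos t0 t0) t0]
    nlinarith [mul_le_mul_of_nonneg_right g1 (by positivity : (0 : ℝ) ≤ P.card * t)]
  refine (pin_le P).trans ((mul_le_mul_of_nonneg_left (b.trans b1) (by linarith)).trans
    (le_of_eq (by ring)))

theorem col_line (x y : Pl) : Collinear ℝ (line[ℝ, x, y] : Set Pl) := by
  have h := collinear_pair ℝ x y
  rwa [Collinear, ← direction_affineSpan, AffineSubspace.direction_eq_vectorSpan] at h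

/-- a point that sees many points along rich lines, none of them very rich, lies on many rich
lines -/
theorem lines_of {P : Finset Pl} {x : Pl} {k N M : ℝ} (M0 : 0 < M)
    (h : N ≤ {y | y ∈ P ∧ y ≠ x ∧ k ≤ ((P : Set Pl) ∩ (line[ℝ, x, y] : Set Pl)).ncard}.ncard)
    (hM : ∀ Q ⊆ P, Collinear ℝ (Q : Set Pl) → (Q.card : ℝ) ≤ M) :
    ∃ G : Finset (AffineSubspace ℝ Pl), N / M ≤ G.card ∧ ∀ l ∈ G,
      Module.finrank ℝ l.direction = 1 ∧ x ∈ l ∧ k ≤ ((P : Set Pl) ∩ (l : Set Pl)).ncard := by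
  classical
  set Y := P.filter fun y => y ≠ x ∧ k ≤ ((P : Set Pl) ∩ (line[ℝ, x, y] : Set Pl)).ncard with hY
  have e : {y | y ∈ P ∧ y ≠ x ∧ k ≤ ((P : Set Pl) ∩ (line[ℝ, x, y] : Set Pl)).ncard} =
      (Y : Set Pl) := by
    ext y
    simp only [hY, coe_filter, Set.mem_ofPred_eq]
  rw [e, Set.ncard_coe_finset] at h
  refine ⟨Y.image fun y => line[ℝ, x, y], ?_, fun l hl => ?_⟩
  · rw [div_le_iff₀ M0]
    refine h.trans ?_
    rw [card_eq_sum_card_image (fun y => line[ℝ, x, y]) Y, Nat.cast_sum, ← nsmul_eq_mul]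
    refine sum_le_card_nsmul _ _ _ fun l hl => hM _ ((filter_subset _ _).trans
      (filter_subset _ _)) ?_
    obtain ⟨y, -, rfl⟩ := mem_image.1 hl
    refine (col_line x y).subset fun z hz => ?_
    rw [← (mem_filter.1 hz).2]
    exact right_mem_affineSpan_pair ℝ x z
  · obtain ⟨y, hy, rfl⟩ := mem_image.1 hl
    obtain ⟨-, u1, u2⟩ := mem_filter.1 hy
    refine ⟨?_, left_mem_affineSpan_pair ℝ x y, u2⟩
    rw [direction_affineSpan, vectorSpan_pair, finrank_span_singleton (vsub_ne_zero.2 u1.symm)]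

/-- the pencil statement contains the statement with a single rich line -/
theorem one_line (h : AE) : MAIN := by
  classical
  intro δ hδ
  obtain ⟨c, c0, h⟩ := h δ hδ
  obtain ⟨n₀, h⟩ := h 1 one_pos
  refine ⟨c, c0, max n₀ 3, fun P hn hZ => ?_⟩
  obtain ⟨B, -, b1, b2⟩ := h P (le_of_max_le_left hn) hZ
  have n3 : (3 : ℝ) ≤ P.card := by exact_mod_cast le_of_max_le_right hn
  have l1 : 1 < Real.log P.card := by
    rw [Real.lt_log_iff_exp_lt (by linarith)]
    exact Real.exp_one_lt_d9.trans_le (le_trans (by norm_num) n3)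
  have lt : B.card < P.card := by
    exact_mod_cast b1.trans_lt (div_lt_self (by linarith) (Real.one_lt_rpow l1 (by positivity)))
  obtain ⟨x, hx, xB⟩ := exists_mem_notMem_of_card_lt_card lt
  have p := (Real.rpow_pos_of_pos (by linarith) _).trans_le (b2 x hx xB)
  obtain ⟨y, -, -, hy⟩ := Set.nonempty_of_ncard_ne_zero (Nat.cast_pos.1 p).ne'
  rw [kt_eq] at hy
  exact ⟨_, filter_subset _ _, (col_line x y).subset fun z hz => (mem_filter.1 hz).2, hy⟩

end Pool.Agent.MP_ddf486_co.KV.L
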