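import Mathlib

/-! Project KL: the plane as the complex numbers, and double counting. -/

set_option autoImplicit false

noncomputable section

namespace Pool.Agent.MP_ddf486_co.KV.L

open Finset Complex

/-- the plane -/
abbrev Pl := EuclideanSpace ℝ (Fin 2)

/-- the plane as the complex numbers -/
def cx : Pl ≃ₗᵢ[ℝ] ℂ := Complex.orthonormalBasisOneI.repr.symm

theorem dist_cx (x y : Pl) : dist x y = ‖cx x - cx y‖ := by
  rw [← cx.dist_map, dist_eq_norm]

theorem dist_iff (a b c d : Pl) :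
    dist a b = dist c d ↔ normSq (cx a - cx b) = normSq (cx c - cx d) := by
  rw [dist_cx, dist_cx, Complex.normSq_eq_norm_sq, Complex.normSq_eq_norm_sq,
    sq_eq_sq₀ (norm_nonneg _) (norm_nonneg _)]

/-- double counting with bounded codegrees -/
theorem kst {U V : Type} [DecidableEq U] (A : Finset U) (B : Finset V) (r : U → V → Prop)
    (sm : U → U → Prop) [∀ u v, Decidable (r u v)] [∀ u v, Decidable (sm u v)] (M : ℝ) (h : ∀ u ∈ A, ∀ u' ∈ A, u ≠ u' →
      ((B.filter fun v => r u v ∧ r u' v).card : ℝ) ≤ if sm u u' then M else 0) (hM : 0 ≤ M) :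
    (∑ u ∈ A, ((B.filter fun v => r u v).card : ℝ)) ^ 2 ≤ B.card *
      (∑ u ∈ A, ((B.filter fun v => r u v).card : ℝ) +
        M * ∑ u ∈ A, ((A.filter fun u' => sm u u').card : ℝ)) := by
  have e1 : ∑ u ∈ A, ((B.filter fun v => r u v).card : ℝ) =
      ∑ v ∈ B, ∑ u ∈ A, if r u v then (1 : ℝ) else 0 := by
    rw [sum_comm]
    exact sum_congr rfl fun u _ => by rw [card_filter]; push_cast; rfl
  have e2 : ∑ v ∈ B, (∑ u ∈ A, if r u v then (1 : ℝ) else 0) ^ 2 =
      ∑ u ∈ A, ∑ u' ∈ A, ((B.filter fun v => r u v ∧ r u' v).card : ℝ) := by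
    simp only [sq, sum_mul_sum]
    rw [sum_comm]
    refine sum_congr rfl fun u _ => ?_
    rw [sum_comm]
    refine sum_congr rfl fun u' _ => ?_
    rw [card_filter]
    push_cast
    refine sum_congr rfl fun v _ => ?_
    by_cases a : r u v <;> by_cases b : r u' v <;> simp [a, b]
  refine (le_of_eq (by rw [e1])).trans (sq_sum_le_card_mul_sum_sq.trans
    (mul_le_mul_of_nonneg_left ?_ (Nat.cast_nonneg _)))
  rw [e2, mul_sum, ← sum_add_distrib]
  refine sum_le_sum fun u hu => ?_
  rw [← add_sum_erase _ _ hu]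
  refine add_le_add (by simp) ((sum_le_sum fun u' hu' =>
    h u hu u' (mem_of_mem_erase hu') (ne_of_mem_erase hu').symm).trans ?_)
  refine (sum_le_sum_of_subset_of_nonneg (erase_subset _ _) fun _ _ _ => by positivity).trans ?_
  rw [← sum_filter, sum_const, nsmul_eq_mul, mul_comm]

/-- large sets that share at most two points have small total size -/
theorem rich_sum {X : Type} [DecidableEq X] (P : Finset X) (C : Finset (Finset X)) {r : ℝ}
    (hr : 0 < r) (hn : r ^ 2 = P.card) (h1 : ∀ W ∈ C, W ⊆ P ∧ 2 * r < W.card)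
    (h2 : ∀ W ∈ C, ∀ W' ∈ C, W ≠ W' → (W ∩ W').card ≤ 2) :
    ∑ W ∈ C, (W.card : ℝ) ≤ 2 * r ^ 2 := by
  have k := kst C P (fun W x => x ∈ W) (fun _ _ => True) 2 (fun W hW W' hW' e => by
    rw [if_pos trivial]
    exact Nat.cast_le_ofNat.2 ((card_le_card fun x hx =>
      mem_inter.2 (mem_filter.1 hx).2).trans (h2 W hW W' hW' e))) zero_le_two
  have e1 : ∑ W ∈ C, ((P.filter fun x => x ∈ W).card : ℝ) = ∑ W ∈ C, (W.card : ℝ) :=
    sum_congr rfl fun W hW => by rw [filter_mem_eq_inter, inter_eq_right.2 (h1 W hW).1]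
  simp only [e1, filter_true, sum_const, nsmul_eq_mul] at k
  set T := ∑ W ∈ C, (W.card : ℝ) with hT
  have t1 : C.card * (2 * r) ≤ T := by
    rw [← nsmul_eq_mul]
    exact card_nsmul_le_sum _ _ _ fun W hW => (h1 W hW).2.le
  have t2 := pow_le_pow_left₀ (by positivity) t1 2
  by_contra c
  rw [not_le] at c
  rw [← hn] at k
  nlinarith [mul_pos (sub_pos.2 c) (lt_of_lt_of_le (by positivity) c.le : 0 < T)]

end Pool.Agent.MP_ddf486_co.KV.L
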