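import Mathlib

/-! Project KL: the statement with refined labels, and the statement with forbidden triples. -/

set_option autoImplicit false

namespace Pool.Agent.MP_ddf486_co.KV.L

open Finset Filter

open Classical in
/-- few labels, finer than the distances, give a base with many apexes -/
def LAB : Prop :=
  ∀ δ : ℝ, 0 < δ → ∃ c : ℝ, 0 < c ∧ ∃ n₀ : ℕ, ∀ P : Finset (EuclideanSpace ℝ (Fin 2)),
    n₀ ≤ P.card → ∀ (α : Type) [DecidableEq α]
      (g : EuclideanSpace ℝ (Fin 2) → EuclideanSpace ℝ (Fin 2) → α),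
    (∀ x y z, g x y = g x z → dist x y = dist x z) →
    ∑ a ∈ P, (((P.erase a).image (g a)).card : ℝ) ≤ (P.card : ℝ) ^ 2 / Real.log P.card ^ δ →
    ∃ y ∈ P, ∃ z ∈ P, y ≠ z ∧ Real.exp (Real.log P.card ^ c) ≤
      (P.filter fun x => g x y = g x z).card

open Classical in
/-- a base with many apexes outside a forbidden set of triples -/
def TRI : Prop :=
  ∀ δ : ℝ, 0 < δ → ∃ c : ℝ, 0 < c ∧ ∃ n₀ : ℕ, ∀ P : Finset (EuclideanSpace ℝ (Fin 2)),
    n₀ ≤ P.card →
    ∑ a ∈ P, (((P.image fun b => dist a b).erase 0).card : ℝ) ≤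
      (P.card : ℝ) ^ 2 / Real.log P.card ^ δ →
    ∀ T : Finset (EuclideanSpace ℝ (Fin 2) × EuclideanSpace ℝ (Fin 2) × EuclideanSpace ℝ (Fin 2)),
    (T.card : ℝ) ≤ 7 * (P.card : ℝ) ^ 2 →
    ∃ y ∈ P, ∃ z ∈ P, y ≠ z ∧ Real.exp (Real.log P.card ^ c) ≤
      (P.filter fun x => dist x y = dist x z ∧ (x, y, z) ∉ T).card

/-- greedy colouring -/
theorem greedy {X : Type} [DecidableEq X] (r : X → X → Prop) [DecidableRel r]
    (hs : ∀ y z, r y z → r z y) (hi : ∀ y, ¬ r y y) (j : ℕ) (S : Finset X) :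
    (∀ y ∈ S, (S.filter (r y)).card ≤ j) →
      ∃ col : X → ℕ, (∀ y, col y ≤ j) ∧ ∀ y ∈ S, ∀ z ∈ S, r y z → col y ≠ col z := by
  induction S using Finset.induction_on with
  | empty => exact fun _ => ⟨fun _ => 0, fun _ => Nat.zero_le _, fun y hy => absurd hy (by simp)⟩
  | insert a S ha ih =>
    intro h
    obtain ⟨col, c1, c2⟩ := ih fun y hy => (card_le_card (filter_subset_filter _
      (subset_insert _ _))).trans (h y (mem_insert_of_mem hy))
    obtain ⟨i, i1, i2⟩ := exists_mem_notMem_of_card_lt_card (s := (S.filter (r a)).image col)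
      (t := range (j + 1)) (by
        rw [card_range]
        exact Nat.lt_succ_of_le (card_image_le.trans ((card_le_card (filter_subset_filter _
          (subset_insert _ _))).trans (h a (mem_insert_self _ _)))))
    have key : ∀ z ∈ S, r a z → i ≠ col z := fun z hz e u =>
      i2 (mem_image.2 ⟨z, mem_filter.2 ⟨hz, e⟩, u.symm⟩)
    refine ⟨Function.update col a i, fun y => ?_, fun y hy z hz e => ?_⟩
    · by_cases u : y = a
      · rw [u, Function.update_self]
        exact Nat.lt_succ_iff.1 (mem_range.1 i1)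
      · rw [Function.update_of_ne u]
        exact c1 y
    · have ne : ∀ w ∈ S, w ≠ a := fun w hw u => ha (u ▸ hw)
      rcases mem_insert.1 hy with rfl | hy' <;> rcases mem_insert.1 hz with rfl | hz'
      · exact absurd e (hi _)
      · rw [Function.update_self, Function.update_of_ne (ne z hz')]
        exact key z hz' e
      · rw [Function.update_self, Function.update_of_ne (ne y hy')]
        exact (key y hy' (hs _ _ e)).symm
      · rw [Function.update_of_ne (ne y hy'), Function.update_of_ne (ne z hz')]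
        exact c2 y hy' z hz' e

theorem tri (h : LAB) : TRI := by
  classical
  intro δ hδ
  obtain ⟨c, c0, n₁, h⟩ := h (δ / 4) (by positivity)
  have t1 : Tendsto (fun n : ℕ => Real.log n ^ (δ / 4)) atTop atTop :=
    (tendsto_rpow_atTop (by positivity)).comp
      (Real.tendsto_log_atTop.comp tendsto_natCast_atTop_atTop)
  obtain ⟨n₂, hn₂⟩ := eventually_atTop.1 ((t1.eventually_ge_atTop 17).and
    ((eventually_ge_atTop n₁).and (eventually_ge_atTop 1)))
  refine ⟨c, c0, n₂, fun P hn hZ T hT => ?_⟩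
  obtain ⟨Λ1, g1, g2⟩ := hn₂ _ hn
  have e : Real.log P.card ^ δ = (Real.log P.card ^ (δ / 4)) ^ 4 := by
    rw [← Real.rpow_natCast, ← Real.rpow_mul (Real.log_natCast_nonneg _)]
    congr 1
    push_cast
    ring
  rw [e] at hZ
  replace h := h P g1
  generalize Real.log P.card ^ (δ / 4) = Λ at Λ1 hZ h
  have Λ0 : 0 < Λ := by linarith
  set j := ⌈Λ ^ 2⌉₊ with hj
  have j1 : Λ ^ 2 ≤ j := Nat.le_ceil _
  have j2 : (j : ℝ) + 1 ≤ 3 * Λ ^ 2 := by
    have := Nat.ceil_lt_add_one (sq_nonneg Λ)
    nlinarith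
  set r : EuclideanSpace ℝ (Fin 2) → EuclideanSpace ℝ (Fin 2) → EuclideanSpace ℝ (Fin 2) → Prop :=
    fun x y z => y ≠ z ∧ ((x, y, z) ∈ T ∨ (x, z, y) ∈ T) with hr
  have : ∀ x, ∃ col : EuclideanSpace ℝ (Fin 2) → ℕ, (∀ y, col y ≤ j) ∧
      ∀ y ∈ P.filter fun y => (P.filter (r x y)).card ≤ j,
      ∀ z ∈ P.filter fun y => (P.filter (r x y)).card ≤ j, r x y z → col y ≠ col z := fun x =>
    greedy (r x) (fun y z u => ⟨u.1.symm, u.2.symm⟩) (fun y u => u.1 rfl) j _ fun y hy =>
      (card_le_card (filter_subset_filter _ (filter_subset _ _))).trans (mem_filter.1 hy).2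
  choose col c1 c2 using this
  obtain ⟨y, hy, z, hz, yz, k⟩ := h ((ℝ × ℕ) ⊕ EuclideanSpace ℝ (Fin 2))
    (fun x y => if (P.filter (r x y)).card ≤ j then .inl (dist x y, col x y) else .inr y)
    (fun x y z u => by
      split_ifs at u
      · exact congrArg Prod.fst (Sum.inl_injective u)
      · rw [Sum.inr_injective u]) (by
      have a1 : ∀ a ∈ P, ((P.erase a).image fun y => if (P.filter (r a y)).card ≤ j then
          (Sum.inl (dist a y, col a y) : (ℝ × ℕ) ⊕ EuclideanSpace ℝ (Fin 2)) else .inr y).card ≤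
          ((P.image fun b => dist a b).erase 0).card * (j + 1) +
            (P.filter fun y => j < (P.filter (r a y)).card).card := fun a _ => by
        refine (card_le_card (t := (((P.image fun b => dist a b).erase 0) ×ˢ range (j + 1)).disjSum
          (P.filter fun y => j < (P.filter (r a y)).card)) fun t ht => ?_).trans
          (by rw [card_disjSum, card_product, card_range])
        obtain ⟨y, hy, rfl⟩ := mem_image.1 ht
        obtain ⟨y1, y2⟩ := mem_erase.1 hy
        split_ifs with u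
        · exact inl_mem_disjSum.2 (mem_product.2 ⟨mem_erase.2 ⟨dist_ne_zero.2 y1.symm,
            mem_image_of_mem _ y2⟩, mem_range.2 (Nat.lt_succ_of_le (c1 a y))⟩)
        · exact inr_mem_disjSum.2 (mem_filter.2 ⟨y2, not_le.1 u⟩)
      have a2 : (∑ a ∈ P, (P.filter fun y => j < (P.filter (r a y)).card).card) * j ≤
          2 * T.card := by
        rw [sum_mul]
        refine (sum_le_sum (g := fun a => ∑ y ∈ P, (P.filter (r a y)).card) fun a _ => ?_).trans ?_
        · exact (card_nsmul_le_sum _ _ _ fun y hy => (mem_filter.1 hy).2.le).trans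
            (sum_le_sum_of_subset (filter_subset _ _))
        · rw [← sum_product', ← card_sigma]
          refine (card_le_card_of_injOn (t := T ∪ T.image fun t => (t.1, t.2.2, t.2.1))
            (fun t => (t.1.1, t.1.2, t.2)) (fun t ht => ?_) fun t _ t' _ u => ?_).trans
            ((card_union_le _ _).trans ((Nat.add_le_add_left card_image_le _).trans_eq
              (two_mul _).symm))
          · rcases (mem_filter.1 (mem_sigma.1 (mem_coe.1 ht)).2).2.2 with u | u
            · exact mem_coe.2 (mem_union_left _ u)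
            · exact mem_coe.2 (mem_union_right _ (mem_image.2 ⟨_, u, rfl⟩))
          · simp only [Prod.mk.injEq] at u
            exact Sigma.ext (Prod.ext u.1 u.2.1) (heq_of_eq u.2.2)
      have a3 := (Nat.cast_le (α := ℝ)).2 (sum_le_sum a1)
      have a4 := (Nat.cast_le (α := ℝ)).2 a2
      rw [sum_add_distrib, ← sum_mul] at a3
      push_cast at a3 a4
      generalize ∑ a ∈ P, ((P.filter fun y => j < (P.filter (r a y)).card).card : ℝ) = H at a3 a4
      have H1 : H ≤ 14 * ((P.card : ℝ) ^ 2 / Λ ^ 2) := by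
        rw [← mul_div_assoc, le_div_iff₀ (by positivity)]
        by_cases u : 0 ≤ H
        · linarith [mul_le_mul_of_nonneg_left j1 u]
        · nlinarith [pow_pos Λ0 2]
      have a5 := mul_le_mul hZ j2 (by positivity) (by positivity)
      have a6 : (P.card : ℝ) ^ 2 / Λ ^ 4 * (3 * Λ ^ 2) = 3 * ((P.card : ℝ) ^ 2 / Λ ^ 2) := by
        field_simp
      have a7 : 17 * ((P.card : ℝ) ^ 2 / Λ ^ 2) ≤ (P.card : ℝ) ^ 2 / Λ := by
        rw [← mul_div_assoc, div_le_div_iff₀ (by positivity) Λ0]
        nlinarith [mul_le_mul_of_nonneg_left Λ1 (show 0 ≤ (P.card : ℝ) ^ 2 * Λ by positivity)]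
      exact a3.trans (by linarith))
  refine ⟨y, hy, z, hz, yz, k.trans (Nat.cast_le.2 (card_le_card fun x hx => ?_))⟩
  obtain ⟨x1, u⟩ := mem_filter.1 hx
  split_ifs at u with u1 u2
  · have u3 := Sum.inl_injective u
    exact mem_filter.2 ⟨x1, congrArg Prod.fst u3, fun v => c2 x y (mem_filter.2 ⟨hy, u1⟩) z
      (mem_filter.2 ⟨hz, u2⟩) ⟨yz, Or.inl v⟩ (congrArg Prod.snd u3)⟩
  · exact absurd (Sum.inr_injective u) yz

end Pool.Agent.MP_ddf486_co.KV.L
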