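import Pool.Agent.MP_ddf486_co.KL.B
import Pool.Agent.MP_ddf486_co.KL.C1
import Pool.Agent.MP_ddf486_co.KL.C2
import Pool.Agent.MP_ddf486_co.KL.Iso

/-! Project KL: assembly, and the passage to the plane with refined labels. -/

set_option autoImplicit false

noncomputable section

namespace Pool.Agent.MP_ddf486_co.KV.L

open Finset Pool.Agent.MP_6c3157_co.PD Pool.Agent.MP_6c3157_co.PQ

theorem all_mod : MOD :=
  cmod rdc ctot (dga crad) clo trip (out2 out1) (rare2 (rare1 (summ sum1m)) hvc)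
    (cmir crad cmirp) csep

theorem top_crs : CRS :=
  crs cls3 (case1 bnd (coa bandr clnx) ft (sml blk) crv) (case0 (coa bandr clnx) ft (sml blk))

theorem all_ind : IND :=
  ind phm pq_ind (stepg all_phi top_crs all_mod st0_all (lev_all cla) (all_jmp tail_all)
    (all_los tail_all))

/-- a refinement of the labels keeps the arithmetic data good -/
theorem good_refine {X PL K : Type} [DecidableEq X] [Fintype PL] [Field K] {s : Sys X PL}
    {A : Ari X PL K} {η : ℝ} (h : A.Good s η) (lab : X → X → ℝ)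
    (hl : ∀ x y z, lab x y = lab x z → s.lab x y = s.lab x z) :
    A.Good { s with lab := lab } η :=
  ⟨⟨h.good.good, h.good.m_lo, h.good.m_bar, h.good.lam_bar, h.good.pf,
    fun p x y z a b c => h.good.f1 p x y z a b (hl x y z c),
    fun p x y z a b c => h.good.f2 p x y z a b (hl x y z c), h.good.eta_sum, h.good.xi_sum,
    h.good.g_sum⟩, h.U_inj, h.V_inj, fun x y z c => h.lab x y z (hl x y z c), h.d_eq, h.bar_bar,
    h.av_bar, h.sd_bar, h.eta_pos, h.eta_sum, h.pfge, h.ar_eq, h.ar_sum, h.part⟩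

theorem lab_all : LAB := by
  classical
  intro δ hδ
  obtain ⟨a, b, c, a0, b0, c1, hI⟩ := all_ind
  obtain ⟨D, hD⟩ := exists_nat_one_div_lt hδ
  obtain ⟨B, x₀, B0, hN⟩ := num (D + 1) a b c (by omega) a0 b0 c1
  have B1 : (0 : ℝ) < B := by exact_mod_cast B0
  refine ⟨1 / B, by positivity, ⌈Real.exp (max x₀ 3 ^ B)⌉₊, fun P hn α _ g hg hZ => ?_⟩
  have m2 : (3 : ℝ) ≤ max x₀ 3 := le_max_right _ _
  have m3 : (3 : ℝ) ≤ max x₀ 3 ^ B := m2.trans (le_self_pow₀ (by linarith) B0.ne')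
  have n1 : Real.exp (max x₀ 3 ^ B) ≤ P.card := Nat.ceil_le.1 hn
  have n3 : (4 : ℝ) ≤ P.card := by linarith [Real.add_one_le_exp (max x₀ 3 ^ B)]
  have n0 : (0 : ℝ) < P.card := by linarith
  have l1 : max x₀ 3 ^ B ≤ Real.log P.card := (Real.le_log_iff_exp_le n0).2 n1
  have l0 : 0 < Real.log P.card := by linarith
  have xB : (Real.log P.card ^ (1 / B : ℝ)) ^ B = Real.log P.card := by
    rw [one_div, Real.rpow_inv_natCast_pow l0.le B0.ne']
  have x1 : x₀ ≤ Real.log P.card ^ (1 / B : ℝ) := by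
    refine (le_max_left x₀ 3).trans (le_of_pow_le_pow_left₀ B0.ne' (by positivity) ?_)
    rwa [xB]
  obtain ⟨N, i, eL, ek, eκ, eψ, hR⟩ := hN _ x1
  rw [xB] at eL eκ
  have eL' : Real.exp N.L = P.card := by rw [eL, Real.exp_log n0]
  obtain ⟨K, _, PL, _, s, A, hA, hl, hy, -⟩ :=
    model P (fun x => x.1) Subtype.val_injective (1 / P.card) (by positivity)
  obtain ⟨f, hf⟩ := Set.countable_iff_exists_injOn.1
    ((univ.image fun e : P × P => g e.1.1 e.2.1).finite_toSet.countable)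
  set lab : P → P → ℝ := fun x y => f (g x.1 y.1) with hlab
  have r1 : ∀ x y z, lab x y = lab x z → g x.1 y.1 = g x.1 z.1 := fun x y z e =>
    hf (mem_coe.2 (mem_image.2 ⟨(x, y), mem_univ _, rfl⟩))
      (mem_coe.2 (mem_image.2 ⟨(x, z), mem_univ _, rfl⟩)) (Nat.cast_injective e)
  by_contra hno
  have hG := hR.good N.ψ (by linarith [hR.pos]) le_rfl
  have k1 : 1 ≤ N.κ := hG.one_le_ka
  have h := hI N i P PL K { s with lab := lab } A (1 / P.card) univ hR
    (good_refine hA lab fun x y z e => by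
      rw [hl]
      exact hg _ _ _ (r1 x y z e)) (by positivity)
    (by rw [eL', one_div_mul_cancel n0.ne']) hy (by rw [eL']; simp) fun y _ z _ hyz => by
      by_contra k
      rw [not_le, ek] at k
      refine hno ⟨y.1, y.2, z.1, z.2, fun e => hyz (Subtype.ext e), k.le.trans (Nat.cast_le.2
        (card_le_card_of_injOn (fun x => x.1) (fun x hx => ?_) Subtype.val_injective.injOn))⟩
      exact mem_coe.2 (mem_filter.2 ⟨x.2, r1 x y z (mem_filter.1 (mem_coe.1 hx)).2⟩)
  have h' := (all_phi P lab N.κ univ k1).2.2.2.1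
  unfold Pr at h
  simp only [card_univ, Fintype.card_coe] at h h'
  have r3 : (Zs lab univ : ℝ) ≤ 2 * ((P.card : ℝ) ^ 2 / Real.log P.card ^ δ) := by
    refine le_trans ?_ (hZ.trans (le_mul_of_one_le_left (by positivity) one_le_two))
    unfold Zs
    push_cast
    rw [← sum_coe_sort P]
    refine sum_le_sum fun x _ => Nat.cast_le.2 (le_trans (card_le_card fun t ht => ?_)
      (card_image_le (f := fun a => (f a : ℝ))))
    obtain ⟨y, hy, rfl⟩ := mem_image.1 ht
    exact mem_image_of_mem _ (mem_image_of_mem _ (mem_erase.2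
      ⟨fun e => ne_of_mem_erase hy (Subtype.ext e), y.2⟩))
  have k4 : N.κ ^ 4 ≤ Real.log P.card ^ δ := by
    have D0 : D + 1 ≠ 0 := by omega
    have e : N.κ ^ 4 = Real.log P.card ^ (((D + 1 : ℕ) : ℝ)⁻¹) := by
      rw [← eκ, pow_mul, Real.pow_rpow_inv_natCast (by positivity) D0]
    rw [e]
    refine Real.rpow_le_rpow_of_exponent_le (by linarith) ?_
    rw [← one_div]
    push_cast
    exact hD.le
  have k0 : 0 < N.κ := by linarith
  have z1 := r3.trans (mul_le_mul_of_nonneg_left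
    (div_le_div_of_nonneg_left (sq_nonneg _) (by positivity) k4) zero_le_two)
  have z2 : (N.ψ / 2 * (P.card * (P.card - 1))) ^ 2 ≤
      N.κ ^ 2 * (2 * ((P.card : ℝ) ^ 2 / N.κ ^ 4)) * (P.card : ℝ) ^ 2 :=
    (pow_le_pow_left₀ (mul_nonneg (by linarith [hR.pos]) (mul_nonneg n0.le (by linarith))) h
      2).trans (h'.trans (by gcongr))
  have e1 : N.ψ = 4 / N.κ := by rw [eq_div_iff k0.ne', eψ]
  have e2 : N.κ ^ 2 * (2 * ((P.card : ℝ) ^ 2 / N.κ ^ 4)) * (P.card : ℝ) ^ 2 =
      ((P.card : ℝ) / N.κ) ^ 2 * (2 * (P.card : ℝ) ^ 2) := by field_simp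
  have e3 : (4 / N.κ / 2 * ((P.card : ℝ) * (P.card - 1))) ^ 2 =
      ((P.card : ℝ) / N.κ) ^ 2 * (4 * ((P.card : ℝ) - 1) ^ 2) := by field_simp; ring
  rw [e2, e1, e3] at z2
  have z3 := le_of_mul_le_mul_left z2 (by positivity)
  nlinarith

end Pool.Agent.MP_ddf486_co.KV.L
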