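import Pool.Agent.MP_ddf486_co.KL.Bis
import Pool.Agent.MP_ddf486_co.KL.En
import Pool.Agent.MP_ddf486_co.KL.Iso

/-! Project KL: many pairs of points span a rich line. -/

set_option autoImplicit false

noncomputable section

namespace Pool.Agent.MP_ddf486_co.KV.L

open Finset AffineSubspace Complex Pool.Agent.MP_6c3157_co.KB

theorem bis_rank {y z : Pl} (h : y ≠ z) : Module.finrank ℝ (perpBisector y z).direction = 1 := by
  have : Fact (Module.finrank ℝ Pl = 1 + 1) := ⟨by simp⟩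
  rw [direction_perpBisector]
  exact Submodule.finrank_orthogonal_span_singleton (vsub_ne_zero.2 h.symm)

theorem line_eq {l : AffineSubspace ℝ Pl} (h : Module.finrank ℝ l.direction = 1) {x y : Pl}
    (hx : x ∈ l) (hy : y ∈ l) (e : x ≠ y) : line[ℝ, x, y] = l := by
  have le := affineSpan_pair_le_of_mem_of_mem hx hy
  refine eq_of_direction_eq_of_nonempty_of_le (Submodule.eq_of_le_of_finrank_eq (direction_le le)
    ?_) ⟨x, left_mem_affineSpan_pair ℝ x y⟩ le
  rw [h, direction_affineSpan, vectorSpan_pair, finrank_span_singleton (vsub_ne_zero.2 e)]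

theorem bis_cx {a b c d : Pl} (h : perpBisector a b = perpBisector c d) :
    bis (cx a) (cx b) = bis (cx c) (cx d) := by
  ext z
  have e := (SetLike.ext_iff.1 h) (cx.symm z)
  rwa [mem_perpBisector_iff_dist_eq, mem_perpBisector_iff_dist_eq, dist_iff, dist_iff,
    cx.apply_symm_apply] at e

/-- the pair lies on no line or circle with more than `K` points -/
def gd (P : Finset Pl) (K : ℝ) (e : Pl × Pl) : Prop :=
  Good (P.map cx.toEquiv.toEmbedding) K (cx e.1) (cx e.2)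

open Classical in
/-- isosceles triples with the base on one curve -/
theorem on_curve (P W : Finset Pl) (hW : W ⊆ P) {γ : Fin 4 → ℝ} (g : Nd γ)
    (h : ∀ x ∈ W, OnC γ (cx x)) :
    ((P ×ˢ W ×ˢ W).filter fun t => dist t.1 t.2.1 = dist t.1 t.2.2).card ≤ 3 * P.card * W.card := by
  set c : Pl → Prop := fun x => γ 1 = -2 * γ 0 * (cx x).re ∧ γ 2 = -2 * γ 0 * (cx x).im with hc
  have c1 : (P.filter c).card ≤ 1 := card_le_one.2 fun x hx y hy => by
    obtain ⟨a1, a2⟩ := (mem_filter.1 hx).2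
    obtain ⟨b1, b2⟩ := (mem_filter.1 hy).2
    have g0 : γ 0 ≠ 0 := fun e => g ⟨e, by rw [a1, e]; ring, by rw [a2, e]; ring⟩
    exact cx.injective (Complex.ext (mul_left_cancel₀ g0 (by linarith))
      (mul_left_cancel₀ g0 (by linarith)))
  have c2 : ∀ x y, ¬ c x → (W.filter fun z => dist x y = dist x z).card ≤ 2 := fun x y u => by
    rw [← card_map cx.toEquiv.toEmbedding]
    refine curve_card g (η := ![1, -2 * (cx x).re, -2 * (cx x).im,
      normSq (cx x) - normSq (cx x - cx y)]) (by simp [Nd]) (fun ⟨t, _, ht⟩ => u ?_) _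
      fun z hz => ?_
    · have a0 := ht 0
      have a1 := ht 1
      have a2 := ht 2
      simp only [Matrix.cons_val] at a0 a1 a2
      exact ⟨by linear_combination γ 1 * a0 - γ 0 * a1, by linear_combination γ 2 * a0 - γ 0 * a2⟩
    · obtain ⟨w, hw, rfl⟩ := mem_map.1 hz
      obtain ⟨w1, w2⟩ := mem_filter.1 hw
      refine ⟨h w w1, ?_⟩
      show OnC _ (cx w)
      rw [(dist_iff _ _ _ _).1 w2]
      simp only [OnC, Matrix.cons_val, normSq_apply, sub_re, sub_im]
      ring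
  refine (card_le_card (t := (P.filter c) ×ˢ W ×ˢ W ∪ ((P.filter fun x => ¬ c x) ×ˢ W).biUnion
    fun e => {e.1} ×ˢ {e.2} ×ˢ W.filter fun z => dist e.1 e.2 = dist e.1 z) fun t ht => ?_).trans
    ((card_union_le _ _).trans ?_)
  · simp only [mem_filter, mem_product] at ht
    by_cases u : c t.1
    · exact mem_union_left _ (mem_product.2 ⟨mem_filter.2 ⟨ht.1.1, u⟩, mem_product.2 ht.1.2⟩)
    · exact mem_union_right _ (mem_biUnion.2 ⟨(t.1, t.2.1), mem_product.2
        ⟨mem_filter.2 ⟨ht.1.1, u⟩, ht.1.2.1⟩, mem_product.2 ⟨mem_singleton_self _, mem_product.2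
          ⟨mem_singleton_self _, mem_filter.2 ⟨ht.1.2.2, ht.2⟩⟩⟩⟩)
  · have a1 : (((P.filter fun x => ¬ c x) ×ˢ W).biUnion fun e => {e.1} ×ˢ {e.2} ×ˢ
        W.filter fun z => dist e.1 e.2 = dist e.1 z).card ≤ P.card * W.card * 2 := by
      refine (card_biUnion_le_card_mul _ _ 2 fun e he => ?_).trans (Nat.mul_le_mul_right _ ?_)
      · rw [card_product, card_product, card_singleton, card_singleton, one_mul, one_mul]
        exact c2 _ _ (mem_filter.1 (mem_product.1 he).1).2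
      · rw [card_product]
        exact Nat.mul_le_mul_right _ (card_filter_le _ _)
    have a2 := Nat.mul_le_mul c1 (Nat.mul_le_mul_right W.card (card_le_card hW))
    rw [card_product, card_product]
    nlinarith

open Classical in
/-- few isosceles triples have their base on a very rich curve -/
theorem not_gd {P : Finset Pl} {r : ℝ} (hr : 0 < r) (hn : r ^ 2 = P.card) :
    (((P ×ˢ P.offDiag).filter fun t => ¬ gd P (2 * r) t.2 ∧
      dist t.1 t.2.1 = dist t.1 t.2.2).card : ℝ) ≤ 6 * r ^ 4 := by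
  set C := P.powerset.filter fun W => 2 * r < W.card ∧
    ∃ γ, Nd γ ∧ W = P.filter fun x => OnC γ (cx x) with hC
  have mC : ∀ W ∈ C, W ⊆ P ∧ 2 * r < W.card ∧ ∃ γ, Nd γ ∧ W = P.filter fun x => OnC γ (cx x) :=
    fun W hW => by simpa only [hC, mem_filter, mem_powerset] using hW
  have t3 := rich_sum P C hr hn (fun W hW => ⟨(mC W hW).1, (mC W hW).2.1⟩) fun W hW W' hW' e => by
    obtain ⟨-, -, γ, g1, rfl⟩ := mC W hW
    obtain ⟨-, -, η, g2, rfl⟩ := mC W' hW'
    rw [← card_map cx.toEquiv.toEmbedding]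
    refine curve_card g1 g2 (fun ⟨t, t0, ht⟩ => e (filter_congr fun x _ =>
      (onC_of_prop t0 ht _).symm)) _ fun z hz => ?_
    obtain ⟨x, hx, rfl⟩ := mem_map.1 hz
    simp only [mem_inter, mem_filter] at hx
    exact ⟨hx.1.2, hx.2.2⟩
  have s1 : ((P ×ˢ P.offDiag).filter fun t => ¬ gd P (2 * r) t.2 ∧
      dist t.1 t.2.1 = dist t.1 t.2.2) ⊆ C.biUnion fun W =>
      (P ×ˢ W ×ˢ W).filter fun t => dist t.1 t.2.1 = dist t.1 t.2.2 := by
    intro e he
    obtain ⟨a1, a2, a3⟩ := mem_filter.1 he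
    obtain ⟨b1, b2, b3⟩ := mem_offDiag.1 (mem_product.1 a1).2
    unfold gd Good at a2
    push Not at a2
    obtain ⟨γ, g1, g2, g3, W, w1, w2, w3⟩ := a2 fun c => b3 (cx.injective c)
    refine mem_biUnion.2 ⟨P.filter fun x => OnC γ (cx x), mem_filter.2 ⟨mem_powerset.2
      (filter_subset _ _), w3.trans_le ?_, γ, g1, rfl⟩, mem_filter.2 ⟨mem_product.2
      ⟨(mem_product.1 a1).1, mem_product.2 ⟨mem_filter.2 ⟨b1, g2⟩, mem_filter.2 ⟨b2, g3⟩⟩⟩, a3⟩⟩
    rw [← card_map cx.toEquiv.toEmbedding]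
    refine Nat.cast_le.2 (card_le_card fun z hz => ?_)
    obtain ⟨x, hx, rfl⟩ := mem_map.1 (w1 hz)
    exact mem_map_of_mem _ (mem_filter.2 ⟨hx, w2 _ hz⟩)
  have s2 := (Nat.cast_le (α := ℝ)).2 (((card_le_card s1).trans card_biUnion_le).trans
    (sum_le_sum (g := fun W => 3 * P.card * W.card) fun W hW => by
      obtain ⟨a1, -, γ, g1, a2⟩ := mC W hW
      exact on_curve P W a1 g1 fun x hx => by
        rw [a2] at hx
        exact (mem_filter.1 hx).2))
  rw [← mul_sum] at s2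
  push_cast at s2
  rw [← hn] at s2
  linarith [mul_le_mul_of_nonneg_left t3 (show 0 ≤ 3 * r ^ 2 by positivity)]

open Classical in
/-- points on a line -/
def kt (P : Finset Pl) (l : AffineSubspace ℝ Pl) : ℕ := (P.filter fun x => x ∈ l).card

open Classical in
/-- pairs with a property and a given bisector -/
def wt (P : Finset Pl) (g : Pl × Pl → Prop) (l : AffineSubspace ℝ Pl) : ℕ :=
  (P.offDiag.filter fun e => g e ∧ perpBisector e.1 e.2 = l).card

open Classical in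
/-- the rich bisectors -/
def rich (P : Finset Pl) (k : ℝ) : Finset (AffineSubspace ℝ Pl) :=
  (P.offDiag.image fun e => perpBisector e.1 e.2).filter fun l => k ≤ kt P l

theorem rich_rank {P : Finset Pl} {k : ℝ} {l : AffineSubspace ℝ Pl} (h : l ∈ rich P k) :
    Module.finrank ℝ l.direction = 1 ∧ k ≤ kt P l := by
  classical
  obtain ⟨a, b⟩ := mem_filter.1 h
  obtain ⟨e, he, rfl⟩ := mem_image.1 a
  exact ⟨bis_rank (mem_offDiag.1 he).2.2, b⟩

theorem kt_eq (P : Finset Pl) (l : AffineSubspace ℝ Pl) :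
    ((P : Set Pl) ∩ (l : Set Pl)).ncard = kt P l := by
  classical
  rw [kt, ← Set.ncard_coe_finset, coe_filter]
  rfl

/-- many isosceles triples have a good base and a rich axis -/
theorem tri_ge (hT : TRI) (δ : ℝ) (hδ : 0 < δ) : ∃ c : ℝ, 0 < c ∧ ∃ n₀ : ℕ, ∀ P : Finset Pl,
    n₀ ≤ P.card → ∑ a ∈ P, (((P.image fun b => dist a b).erase 0).card : ℝ) ≤
      (P.card : ℝ) ^ 2 / Real.log P.card ^ δ → ∀ r : ℝ, 0 < r → r ^ 2 = P.card →
    r ^ 4 ≤ ∑ l ∈ rich P (Real.exp (Real.log P.card ^ c)),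
      (kt P l : ℝ) * wt P (gd P (2 * r)) l := by
  classical
  obtain ⟨c, c0, n₀, h⟩ := hT δ hδ
  refine ⟨c, c0, n₀, fun P hn hZ r r0 hr => not_lt.1 fun k => ?_⟩
  obtain ⟨y, hy, z, hz, e, h1⟩ := h P hn hZ
    (((rich P (Real.exp (Real.log P.card ^ c))).biUnion fun l => (P.filter fun x => x ∈ l) ×ˢ
      P.offDiag.filter fun e => gd P (2 * r) e ∧ perpBisector e.1 e.2 = l) ∪
    (P ×ˢ P.offDiag).filter fun t => ¬ gd P (2 * r) t.2 ∧ dist t.1 t.2.1 = dist t.1 t.2.2) (by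
      refine (Nat.cast_le.2 ((card_union_le _ _).trans
        (Nat.add_le_add_right card_biUnion_le _))).trans ?_
      simp only [card_product]
      push_cast
      refine (add_le_add k.le (not_gd r0 hr)).trans_eq ?_
      rw [← hr]
      ring)
  obtain ⟨x, hx⟩ := card_pos.1 (Nat.cast_pos.1 ((Real.exp_pos _).trans_le h1))
  obtain ⟨x1, x2, x3⟩ := mem_filter.1 hx
  have o : (y, z) ∈ P.offDiag := mem_offDiag.2 ⟨hy, hz, e⟩
  by_cases u : gd P (2 * r) (y, z)
  · refine x3 (mem_union_left _ (mem_biUnion.2 ⟨perpBisector y z, mem_filter.2 ⟨mem_image.2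
      ⟨(y, z), o, rfl⟩, h1.trans (Nat.cast_le.2 (card_le_card fun v hv => ?_))⟩, mem_product.2
      ⟨mem_filter.2 ⟨x1, mem_perpBisector_iff_dist_eq.2 x2⟩, mem_filter.2 ⟨o, u, rfl⟩⟩⟩))
    exact mem_filter.2 ⟨(mem_filter.1 hv).1, mem_perpBisector_iff_dist_eq.2 (mem_filter.1 hv).2.1⟩
  · exact x3 (mem_union_right _ (mem_filter.2 ⟨mem_product.2 ⟨x1, o⟩, u, x2⟩))

open Classical in
/-- pairs on rich lines -/
def prs (P : Finset Pl) (k : ℝ) : Finset (Pl × Pl) :=
  P.offDiag.filter fun e => k ≤ kt P line[ℝ, e.1, e.2]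

theorem kt_sq (P : Finset Pl) {k : ℝ} (hk : 1 < k) :
    ∑ l ∈ rich P k, kt P l ^ 2 ≤ 2 * (prs P k).card := by
  classical
  have s : ((rich P k).biUnion fun l => (P.filter fun x => x ∈ l).offDiag) ⊆ prs P k := by
    intro e he
    obtain ⟨l, hl, a⟩ := mem_biUnion.1 he
    simp only [mem_offDiag, mem_filter] at a
    refine mem_filter.2 ⟨mem_offDiag.2 ⟨a.1.1, a.2.1.1, a.2.2⟩, ?_⟩
    rw [line_eq (rich_rank hl).1 a.1.2 a.2.1.2 a.2.2]
    exact (rich_rank hl).2
  refine le_trans ?_ (Nat.mul_le_mul_left 2 (card_le_card s))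
  rw [card_biUnion fun l hl l' hl' e => disjoint_left.2 fun t a b => e ?_, mul_sum]
  · refine sum_le_sum fun l hl => ?_
    have : 1 < kt P l := by exact_mod_cast hk.trans_le (rich_rank hl).2
    rw [offDiag_card]
    show kt P l ^ 2 ≤ 2 * (kt P l * kt P l - kt P l)
    have a : 2 * kt P l ≤ kt P l * kt P l := Nat.mul_le_mul_right _ this
    rw [sq]
    omega
  · simp only [mem_offDiag, mem_filter] at a b
    exact (line_eq (rich_rank hl).1 a.1.2 a.2.1.2 a.2.2).symm.trans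
      (line_eq (rich_rank hl').1 b.1.2 b.2.1.2 b.2.2)

theorem wt_sq (P : Finset Pl) (K : ℝ) (G : Finset (AffineSubspace ℝ Pl)) :
    ∑ l ∈ G, wt P (gd P K) l ^ 2 ≤ (bQuad (P.map cx.toEquiv.toEmbedding) K).card := by
  classical
  have e : ∑ l ∈ G, wt P (gd P K) l ^ 2 = (G.biUnion fun l =>
      (P.offDiag.filter fun e => gd P K e ∧ perpBisector e.1 e.2 = l) ×ˢ
      (P.offDiag.filter fun e => gd P K e ∧ perpBisector e.1 e.2 = l)).card := by
    rw [card_biUnion fun l _ l' _ e => disjoint_left.2 fun t a b => e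
      ((mem_filter.1 (mem_product.1 a).1).2.2.symm.trans (mem_filter.1 (mem_product.1 b).1).2.2)]
    exact sum_congr rfl fun l _ => by rw [card_product, sq]; rfl
  rw [e]
  refine card_le_card_of_injOn (fun t => ((cx t.1.1, cx t.1.2), (cx t.2.1, cx t.2.2)))
    (fun t ht => ?_) fun t _ t' _ e => ?_
  · obtain ⟨l, -, a⟩ := mem_biUnion.1 (mem_coe.1 ht)
    simp only [mem_product, mem_filter, mem_offDiag] at a
    have m : ∀ x ∈ P, cx x ∈ P.map cx.toEquiv.toEmbedding := fun x hx => mem_map_of_mem _ hx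
    exact mem_coe.2 (mem_filter.2 ⟨mem_product.2 ⟨mem_product.2 ⟨m _ a.1.1.1, m _ a.1.1.2.1⟩,
      mem_product.2 ⟨m _ a.2.1.1, m _ a.2.1.2.1⟩⟩, a.1.2.1, a.2.2.1,
      bis_cx (a.1.2.2.trans a.2.2.2.symm)⟩)
  · simp only [Prod.mk.injEq, cx.injective.eq_iff] at e
    exact Prod.ext (Prod.ext e.1.1 e.1.2) (Prod.ext e.2.1 e.2.2)

theorem log_small (A p η : ℝ) (hA : 0 < A) (hη : 0 < η) :
    ∃ n₀ : ℕ, ∀ n : ℕ, n₀ ≤ n → A * Real.log n ^ p ≤ (n : ℝ) ^ η := by
  obtain ⟨x, hx⟩ := Filter.eventually_atTop.1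
    ((isLittleO_log_rpow_rpow_atTop p hη).bound (inv_pos.2 hA))
  refine ⟨⌈x⌉₊, fun n hn => ?_⟩
  have h := hx n (Nat.ceil_le.1 hn)
  rw [Real.norm_of_nonneg (by positivity : 0 ≤ (n : ℝ) ^ η), ← le_div_iff₀' hA] at *
  exact ((le_abs_self _).trans h).trans_eq (by rw [div_eq_inv_mul])

/-- many pairs of points span a rich line -/
theorem many (hT : TRI) : ∀ δ : ℝ, 0 < δ → ∃ c : ℝ, 0 < c ∧ ∀ ε : ℝ, 0 < ε → ∃ n₀ : ℕ,
    ∀ P : Finset Pl, n₀ ≤ P.card →
    ∑ a ∈ P, (((P.image fun b => dist a b).erase 0).card : ℝ) ≤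
      (P.card : ℝ) ^ 2 / Real.log P.card ^ δ →
    (P.card : ℝ) ^ (3 / 2 - ε) ≤ (prs P (Real.exp (Real.log P.card ^ c))).card := by
  classical
  intro δ hδ
  obtain ⟨c, c0, n₁, h⟩ := tri_ge hT δ hδ
  refine ⟨c, c0, fun ε hε => ?_⟩
  obtain ⟨C, C0, hE⟩ := bisector_energy (half_pos hε)
  obtain ⟨n₂, hs⟩ := log_small (6 * C + 1) 0 (ε / 2) (by positivity) (half_pos hε)
  refine ⟨max (max n₁ n₂) 3, fun P hn hZ => ?_⟩
  simp only [max_le_iff] at hn
  have a2 := hs _ hn.1.2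
  rw [Real.rpow_zero, mul_one] at a2
  have n3 : (3 : ℝ) ≤ P.card := by exact_mod_cast hn.2
  have n0 : (0 : ℝ) < P.card := by linarith
  have k1 : 1 < Real.exp (Real.log P.card ^ c) :=
    Real.one_lt_exp_iff.2 (Real.rpow_pos_of_pos (Real.log_pos (by linarith)) _)
  have hE := hE (P.map cx.toEquiv.toEmbedding)
  rw [card_map] at hE
  obtain ⟨r, r0, hr⟩ : ∃ r : ℝ, 0 < r ∧ r ^ 2 = P.card :=
    ⟨√P.card, by positivity, Real.sq_sqrt n0.le⟩
  have a1 := h P hn.1.1 hZ r r0 hr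
  generalize Real.exp (Real.log P.card ^ c) = k at a1 k1 ⊢
  have r1 : 1 ≤ r := by nlinarith
  have rp : ∀ (m : ℕ) (x : ℝ), (P.card : ℝ) ^ ((m : ℝ) / 2 + x) = r ^ m * (P.card : ℝ) ^ x :=
    fun m x => by
      rw [Real.rpow_add n0, ← hr, ← Real.rpow_natCast r 2, ← Real.rpow_mul r0.le,
        ← Real.rpow_natCast r m]
      congr 2
      push_cast
      ring
  set t := (P.card : ℝ) ^ (ε / 2) with ht
  have t0 : 0 < t := by positivity
  have tn : (P.card : ℝ) ^ (-ε) = 1 / t ^ 2 := by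
    rw [ht, ← Real.rpow_natCast, ← Real.rpow_mul n0.le, Real.rpow_neg n0.le, one_div]
    congr 2
    push_cast
    ring
  have e2 : (P.card : ℝ) ^ (3 / 2 - ε) = r ^ 3 / t ^ 2 := by
    rw [show 3 / 2 - ε = ((3 : ℕ) : ℝ) / 2 + -ε by push_cast; ring, rp, tn]
    ring
  have e3 : (P.card : ℝ) ^ (5 / 2 + ε / 2) = r ^ 5 * t := by
    rw [show 5 / 2 + ε / 2 = ((5 : ℕ) : ℝ) / 2 + ε / 2 by push_cast; ring, rp]
  rw [e2, div_le_iff₀ (by positivity)]
  have b6 : (∑ l ∈ rich P k, (kt P l : ℝ) * wt P (gd P (2 * r)) l) ^ 2 ≤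
      (2 * (prs P k).card) * (3 * C * (r ^ 5 * t)) := by
    refine (sum_mul_sq_le_sq_mul_sq _ _ _).trans (mul_le_mul ?_ ?_
      (sum_nonneg fun _ _ => sq_nonneg _) (by positivity))
    · exact_mod_cast kt_sq P k1
    · have w := (Nat.cast_le (α := ℝ)).2 (wt_sq P (2 * r) (rich P k))
      push_cast at w
      refine w.trans ((hE (2 * r) (by linarith)).trans ?_)
      rw [e3, ← hr]
      have : r ^ 5 ≤ r ^ 5 * t := le_mul_of_one_le_right (by positivity) (by linarith)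
      nlinarith
  have b7 := (pow_le_pow_left₀ (by positivity) a1 2).trans b6
  have b8 := mul_le_mul_of_nonneg_left (show 6 * C ≤ t by linarith)
    (show 0 ≤ (prs P k).card * t * r ^ 5 by positivity)
  refine le_of_mul_le_mul_right (a := r ^ 5) ?_ (by positivity)
  linarith

end Pool.Agent.MP_ddf486_co.KV.L
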